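import Pool.Agent.Lib.GBR.Def

/-!
Module CW. A quadratic form in at least five variables over a finite extension `K` of `k(t)`, `k` finite,
has a nontrivial zero.

Proof. `exists_zero_sys`: `r` quadratic forms `xᵀ G_l x` over `k[t]` in `n > 4 r` variables have a common
nontrivial zero over `k[t]`: copy of Lib/HYP/R/CW.lean (`exists_zero_poly`, `r = 1`): entries of degree at most
`D`, unknowns `x_i = ∑_{a ≤ s} y_{ia} t^a`: `n (s + 1)` unknowns, `r (2 s + D + 1)` equations of degree `2`; Chevalley-Warning for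
systems (`char_dvd_card_solutions_of_sum_lt`) needs `2 r (2 s + D + 1) < n (s + 1)`, true for
`s = 2 r (D + 1)` as `n ≥ 4 r + 1`. (`r = 0`: `n ≥ 1`, any nonzero vector.)
`exists_zero_K`: `ω_1..ω_r` a basis of `K` over `k(t)` (`r` its degree), `x_i = ∑_j z_ij ω_j`, `z_ij ∈ k(t)`; the
coordinates of `xᵀ G x` are `r` quadratic forms over `k(t)` in the `5 r > 4 r` variables `z_ij`; multiply them by a
common denominator (Gram matrices over `k[t]`), and apply `exists_zero_sys`.
-/

set_option autoImplicit false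

open Polynomial Matrix

namespace Pool.Agent.GBR

/-- all coefficients have total degree at most `d` -/
private def CwDL {σ k : Type} [CommRing k] (d : ℕ) (P : (MvPolynomial σ k)[X]) : Prop :=
  ∀ j, (P.coeff j).totalDegree ≤ d

private theorem CwDL.sum {σ k ι : Type} [CommRing k] {d : ℕ} (s : Finset ι)
    (P : ι → (MvPolynomial σ k)[X]) (h : ∀ i ∈ s, CwDL d (P i)) : CwDL d (∑ i ∈ s, P i) := by
  intro j
  rw [Polynomial.finsetSum_coeff]
  exact MvPolynomial.totalDegree_finsetSum_le fun i hi => h i hi j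

private theorem CwDL.mul {σ k : Type} [CommRing k] {d e : ℕ} {P Q : (MvPolynomial σ k)[X]}
    (hP : CwDL d P) (hQ : CwDL e Q) : CwDL (d + e) (P * Q) := by
  intro j
  rw [Polynomial.coeff_mul]
  refine MvPolynomial.totalDegree_finsetSum_le fun x _ => ?_
  exact (MvPolynomial.totalDegree_mul _ _).trans (add_le_add (hP _) (hQ _))

theorem exists_zero_sys {k : Type} [Field k] [Finite k] {ι : Type} [Fintype ι] [DecidableEq ι]
    {r : ℕ} (hn : 4 * r < Fintype.card ι) (G : Fin r → Matrix ι ι k[X]) :
    ∃ x : ι → k[X], x ≠ 0 ∧ ∀ l, x ⬝ᵥ (G l *ᵥ x) = 0 := by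
  classical
  have : Fintype k := Fintype.ofFinite k
  obtain ⟨D, hD⟩ : ∃ D : ℕ, ∀ l i j, (G l i j).natDegree ≤ D :=
    ⟨Finset.univ.sup fun l => Finset.univ.sup fun i => Finset.univ.sup fun j =>
      (G l i j).natDegree, fun l i j =>
      ((Finset.le_sup (f := fun j => (G l i j).natDegree) (Finset.mem_univ j)).trans
        (Finset.le_sup (f := fun i => Finset.univ.sup fun j => (G l i j).natDegree)
          (Finset.mem_univ i))).trans
        (Finset.le_sup (f := fun l => Finset.univ.sup fun i => Finset.univ.sup fun j =>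
          (G l i j).natDegree) (Finset.mem_univ l))⟩
  set s : ℕ := 2 * r * (D + 1) with hs
  set σ := ι × Fin (s + 1) with hσ
  let P : ι → (MvPolynomial σ k)[X] := fun i =>
    ∑ a : Fin (s + 1), C (MvPolynomial.X (i, a)) * X ^ (a : ℕ)
  let Q : Fin r → (MvPolynomial σ k)[X] := fun l =>
    ∑ i, P i * ∑ j, (G l i j).map (MvPolynomial.C (σ := σ)) * P j
  have hP : ∀ i, CwDL 1 (P i) := by
    intro i
    refine CwDL.sum _ _ fun a _ j => ?_
    rw [Polynomial.coeff_C_mul, Polynomial.coeff_X_pow]
    split_ifs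
    · rw [mul_one, MvPolynomial.totalDegree_X]
    · simp
  have hQ : ∀ l, CwDL 2 (Q l) := by
    intro l
    refine CwDL.sum _ _ fun i _ => ?_
    refine CwDL.mul (d := 1) (e := 1) (hP i) ?_
    refine CwDL.sum _ _ fun j _ => ?_
    have : CwDL 0 ((G l i j).map (MvPolynomial.C (σ := σ))) := by
      intro a
      rw [Polynomial.coeff_map, MvPolynomial.totalDegree_C]
    have := this.mul (hP j)
    rwa [zero_add] at this
  -- evaluation
  let ev : (σ → k) → ι → k[X] := fun y i => ∑ a : Fin (s + 1), C (y (i, a)) * X ^ (a : ℕ)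
  have hev : ∀ l y, (Q l).map (MvPolynomial.eval y) = ev y ⬝ᵥ (G l *ᵥ ev y) := by
    intro l y
    have h1 : ∀ i, (P i).map (MvPolynomial.eval y) = ev y i := by
      intro i
      simp only [P, ev, Polynomial.map_sum, Polynomial.map_mul, Polynomial.map_C,
        Polynomial.map_pow, Polynomial.map_X, MvPolynomial.eval_X]
    have h2 : ∀ p : k[X], (p.map (MvPolynomial.C (σ := σ))).map (MvPolynomial.eval y) = p := by
      intro p
      rw [Polynomial.map_map]
      have : (MvPolynomial.eval y).comp (MvPolynomial.C (σ := σ)) = RingHom.id k := by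
        ext a; simp
      rw [this, Polynomial.map_id]
    simp only [Q, Polynomial.map_sum, Polynomial.map_mul, h1, h2, dotProduct, Matrix.mulVec]
  have hdeg : ∀ l y, (ev y ⬝ᵥ (G l *ᵥ ev y)).natDegree ≤ 2 * s + D := by
    intro l y
    have h1 : ∀ i, (ev y i).natDegree ≤ s := by
      intro i
      refine Polynomial.natDegree_sum_le_of_forall_le _ _ fun a _ => ?_
      refine (Polynomial.natDegree_C_mul_X_pow_le _ _).trans ?_
      omega
    unfold dotProduct Matrix.mulVec
    refine Polynomial.natDegree_sum_le_of_forall_le _ _ fun i _ => ?_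
    refine Polynomial.natDegree_mul_le.trans ?_
    have h2 : ((fun j => G l i j) ⬝ᵥ ev y).natDegree ≤ D + s := by
      unfold dotProduct
      refine Polynomial.natDegree_sum_le_of_forall_le _ _ fun j _ => ?_
      exact Polynomial.natDegree_mul_le.trans (add_le_add (hD l i j) (h1 j))
    refine (add_le_add (h1 i) h2).trans ?_
    omega
  -- Chevalley-Warning
  obtain ⟨p, hp⟩ := CharP.exists k
  have := hp
  have hpp : p.Prime := CharP.char_is_prime k p
  set E : Finset (Fin r × ℕ) := Finset.univ ×ˢ Finset.range (2 * s + D + 1) with hE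
  have hcw := char_dvd_card_solutions_of_sum_lt p (K := k) (σ := σ)
    (s := E) (f := fun z => (Q z.1).coeff z.2) (by
      calc ∑ z ∈ E, ((Q z.1).coeff z.2).totalDegree
          ≤ ∑ z ∈ E, 2 := Finset.sum_le_sum fun z _ => hQ z.1 z.2
        _ = r * (2 * s + D + 1) * 2 := by
            rw [Finset.sum_const, hE, Finset.card_product, Finset.card_univ, Fintype.card_fin,
              Finset.card_range, smul_eq_mul]
        _ < (4 * r + 1) * (s + 1) := by
            have : r * (2 * s + D + 1) * 2 = 4 * r * s + 2 * r * (D + 1) := by ring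
            rw [this, ← hs]
            have : (4 * r + 1) * (s + 1) = 4 * r * s + s + (4 * r + 1) := by ring
            rw [this]
            omega
        _ ≤ Fintype.card ι * (s + 1) := Nat.mul_le_mul_right _ hn
        _ = Fintype.card σ := by simp [hσ])
  rw [← Nat.card_eq_fintype_card] at hcw
  have hsol : ∀ y : σ → k, (∀ z ∈ E,
      MvPolynomial.eval y ((Q z.1).coeff z.2) = 0) → ∀ l, ev y ⬝ᵥ (G l *ᵥ ev y) = 0 := by
    intro y hy l
    ext j
    rw [← hev, Polynomial.coeff_map, Polynomial.coeff_zero]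
    by_cases hj : j < 2 * s + D + 1
    · exact hy (l, j) (Finset.mem_product.2 ⟨Finset.mem_univ _, Finset.mem_range.mpr hj⟩)
    · rw [← Polynomial.coeff_map, hev]
      exact Polynomial.coeff_eq_zero_of_natDegree_lt (by have := hdeg l y; omega)
  have hev0 : ev 0 = 0 := by
    funext i
    simp [ev]
  have h0 : ∀ z ∈ E, MvPolynomial.eval (0 : σ → k) ((Q z.1).coeff z.2) = 0 := by
    intro z _
    rw [← Polynomial.coeff_map, hev, hev0, zero_dotProduct, Polynomial.coeff_zero]
  have hcard : 1 < Nat.card {y : σ → k // ∀ z ∈ E,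
      MvPolynomial.eval y ((Q z.1).coeff z.2) = 0} := by
    have hpos : 0 < Nat.card {y : σ → k // ∀ z ∈ E,
      MvPolynomial.eval y ((Q z.1).coeff z.2) = 0} := Nat.card_pos_iff.mpr ⟨⟨⟨0, h0⟩⟩, inferInstance⟩
    exact hpp.one_lt.trans_le (Nat.le_of_dvd hpos hcw)
  have hnt := Finite.one_lt_card_iff_nontrivial.mp hcard
  obtain ⟨⟨y, hy⟩, hy0⟩ := exists_ne (⟨0, h0⟩ : {y : σ → k // ∀ z ∈ E,
      MvPolynomial.eval y ((Q z.1).coeff z.2) = 0})
  refine ⟨ev y, ?_, hsol y hy⟩
  intro h
  apply hy0
  refine Subtype.ext (funext fun ⟨i, a⟩ => ?_)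
  have h1 := congrArg (fun q : k[X] => q.coeff (a : ℕ)) (congrFun h i)
  simp only [ev, Polynomial.finsetSum_coeff, Polynomial.coeff_C_mul, Polynomial.coeff_X_pow,
    Pi.zero_apply, Polynomial.coeff_zero] at h1
  rw [Finset.sum_eq_single a] at h1
  · simpa using h1
  · intro b _ hb
    have : (a : ℕ) ≠ (b : ℕ) := fun h => hb (Fin.ext h).symm
    simp [this]
  · intro h; exact absurd (Finset.mem_univ a) h

theorem exists_zero_K {k K : Type} [Field k] [Finite k] [Field K] [Algebra (RatFunc k) K]
    [FiniteDimensional (RatFunc k) K] {n : ℕ} (hn : 5 ≤ n) (G : Matrix (Fin n) (Fin n) K) :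
    ∃ x : Fin n → K, x ≠ 0 ∧ x ⬝ᵥ (G *ᵥ x) = 0 := by
  classical
  set r := Module.finrank (RatFunc k) K with hr
  have hr0 : 0 < r := Module.finrank_pos
  let b : Module.Basis (Fin r) (RatFunc k) K := Module.finBasis (RatFunc k) K
  obtain ⟨d, hd⟩ := IsLocalization.exist_integer_multiples_of_finite (nonZeroDivisors k[X])
    (fun z : Fin r × (Fin n × Fin r) × (Fin n × Fin r) =>
      b.repr (b z.2.1.2 * G z.2.1.1 z.2.2.1 * b z.2.2.2) z.1)
  choose G' hG' using hd
  obtain ⟨x, hx, hx0⟩ := exists_zero_sys (ι := Fin n × Fin r) (r := r) (by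
      rw [Fintype.card_prod, Fintype.card_fin, Fintype.card_fin]
      nlinarith) (fun l => Matrix.of fun i j => G' (l, i, j))
  set ι := algebraMap k[X] (RatFunc k) with hι
  have hinj : Function.Injective ι := IsFractionRing.injective k[X] (RatFunc k)
  refine ⟨fun i => ∑ j, ι (x (i, j)) • b j, ?_, ?_⟩
  · intro h
    apply hx
    funext ⟨i, j⟩
    apply hinj
    rw [Pi.zero_apply, map_zero]
    exact Fintype.linearIndependent_iff.1 b.linearIndependent (fun j => ι (x (i, j)))
      (congrFun h i) j
  · have key : (fun i => ∑ j, ι (x (i, j)) • b j) ⬝ᵥ (G *ᵥ fun i => ∑ j, ι (x (i, j)) • b j) =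
        ∑ p : Fin n × Fin r, ∑ q : Fin n × Fin r,
          (ι (x p) * ι (x q)) • (b p.2 * G p.1 q.1 * b q.2) := by
      simp only [dotProduct, Matrix.mulVec]
      rw [Fintype.sum_prod_type]
      refine Finset.sum_congr rfl fun i _ => ?_
      rw [Finset.sum_mul]
      refine Finset.sum_congr rfl fun j _ => ?_
      rw [Fintype.sum_prod_type, Finset.mul_sum]
      refine Finset.sum_congr rfl fun i' _ => ?_
      rw [Finset.mul_sum, Finset.mul_sum]
      refine Finset.sum_congr rfl fun j' _ => ?_
      rw [Algebra.smul_def, Algebra.smul_def, Algebra.smul_def, map_mul]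
      ring
    rw [key]
    apply b.repr.injective
    ext l
    rw [map_zero, Finsupp.zero_apply]
    have hd0 : ι d ≠ 0 := by
      rw [Ne, map_eq_zero_iff ι hinj]
      exact nonZeroDivisors.ne_zero d.2
    refine (mul_eq_zero.mp ?_).resolve_left hd0
    have h1 := congrArg ι (hx0 l)
    rw [map_zero] at h1
    rw [← h1]
    simp only [dotProduct, Matrix.mulVec, map_sum, map_mul, map_smul, Finsupp.finsetSum_apply,
      Finsupp.smul_apply, Finset.mul_sum, Matrix.of_apply, smul_eq_mul]
    refine Finset.sum_congr rfl fun p _ => Finset.sum_congr rfl fun q _ => ?_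
    have h2 := hG' (l, p, q)
    simp only [Algebra.smul_def] at h2
    rw [hι] at *
    rw [h2]
    ring

end Pool.Agent.GBR
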