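import Pool.Agent.Lib.GBR.Recip2
import Pool.Agent.Lib.GBR.CW
import Pool.Agent.Lib.BSDP.R.Diag
import Pool.Agent.Lib.HYP.R.Split

/-!
Module RecipN. Reciprocity for nondegenerate forms of rank `3` (isotropic at all places but one =>
isotropic at this place) and of rank `2 g + 1` (split at all places but one => split at this place).

Proof. Rank 3: `BSDP.R.exists_diag_field` over `K`: `Pᵀ G P = diag (d₁, d₂, d₃)`, so
`d₁⁻¹ • (Pᵀ G P) = diag (1, -a, -b)`, `a = -d₂ / d₁`, `b = -d₃ / d₁`; over the completions use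
`BSDP.R.isotropic_congr` (see `IsoAt.congr` in Lib/BSDP/R/Congr.lean) and `iso2_iff_isotropic`, then `recip2` with
`sepB_ratFunc` and `BSDK.locAt`. Rank `2 g + 1`: copy of Lib/HYP/R/Recip.lean (`recip_aux`, `recip`) with
`exists_zero_K` and `reciprocity3`; `HYP.R.exists_split`, `HYP.R.splitI_step` are over any field.
-/

set_option autoImplicit false

open Polynomial

namespace Pool.Agent.GBR

open BSDFF BSDP

/-- change of variables over the completions -/
private theorem RecipN_congr {k K : Type} [Field k] [Field K] [Algebra k K] (v : Place k K)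
    (G P : Matrix (Fin 3) (Fin 3) K) (hP : P.det ≠ 0) (c : K) (hc : c ≠ 0) :
    Isotropic ((c • (P.transpose * G * P)).map v.toCompletion) ↔
      Isotropic (G.map v.toCompletion) := by
  have h1 : (c • (P.transpose * G * P)).map v.toCompletion = v.toCompletion c •
      ((P.map v.toCompletion).transpose * G.map v.toCompletion * P.map v.toCompletion) := by
    rw [← Matrix.transpose_map, ← Matrix.map_mul, ← Matrix.map_mul]
    ext i j
    simp only [Matrix.map_apply, Matrix.smul_apply, smul_eq_mul, map_mul]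
  rw [h1]
  refine R.isotropic_congr _ _ ?_ _ ?_
  · have h2 : (P.map v.toCompletion).det = v.toCompletion P.det := (RingHom.map_det _ P).symm
    rw [h2]
    exact (map_ne_zero v.toCompletion).2 hP
  · exact (map_ne_zero v.toCompletion).2 hc

private theorem RecipN_split_one {F : Type} [Field F] (G : Matrix (Fin 3) (Fin 3) F) :
    HYP.R.SplitI 1 G ↔ Isotropic G := by
  constructor
  · rintro ⟨W, hd, hW⟩
    obtain ⟨⟨x, hx⟩, hx0⟩ : ∃ x : W, x ≠ 0 := by
      have : 0 < Module.finrank F W := by omega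
      exact Module.finrank_pos_iff_exists_ne_zero.mp this
    exact ⟨x, fun h => hx0 (Subtype.ext h), hW x hx x hx⟩
  · rintro ⟨x, hx0, hx⟩
    refine ⟨Submodule.span F {x}, finrank_span_singleton hx0, ?_⟩
    intro a ha b hb
    obtain ⟨s, rfl⟩ := Submodule.mem_span_singleton.mp ha
    obtain ⟨t, rfl⟩ := Submodule.mem_span_singleton.mp hb
    rw [Matrix.mulVec_smul, dotProduct_smul, smul_dotProduct, hx, smul_zero, smul_zero]

private theorem RecipN_two {k K : Type} [Field k] [Field K] [Algebra k K] (h2 : (2 : k) ≠ 0) :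
    (2 : K) ≠ 0 := by
  intro h
  apply h2
  have h3 : algebraMap k K 2 = 0 := by
    rw [map_ofNat]; exact h
  exact (map_eq_zero_iff _ (algebraMap k K).injective).mp h3

variable {k K : Type} [Field k] [Finite k] [Field K] [Algebra k K] [Algebra (RatFunc k) K]
  [IsScalarTower k (RatFunc k) K] [FiniteDimensional (RatFunc k) K]
  [Algebra.IsSeparable (RatFunc k) K]

theorem reciprocity3 (h2 : (2 : k) ≠ 0) (G : Matrix (Fin 3) (Fin 3) K) (hG : G.IsSymm)
    (hdet : G.det ≠ 0) (v : Place k K)
    (h : ∀ w : Place k K, w ≠ v → Isotropic (G.map w.toCompletion)) :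
    Isotropic (G.map v.toCompletion) := by
  obtain ⟨P, d, e, f, hP, hd, he, hf, hdiag⟩ :=
    R.exists_diag_field (RecipN_two (K := K) h2) G hG hdet
  have hform : d⁻¹ • (P.transpose * G * P) =
      Matrix.diagonal ![1, -(-(e / d)), -(-(f / d))] := by
    rw [hdiag]
    ext i j
    fin_cases i <;> fin_cases j <;>
      simp [Matrix.diagonal, hd, div_eq_inv_mul]
  have key : ∀ w : Place k K, Isotropic (G.map w.toCompletion) ↔
      Iso2 w (-(e / d)) (-(f / d)) := by
    intro w
    rw [← RecipN_congr w G P hP d⁻¹ (inv_ne_zero hd), hform, iso2_iff_isotropic]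
  rw [key]
  refine recip2 h2 (fun w => BSDK.locAt h2 w) (sepB_ratFunc (k := k) (K := K)) ?_ ?_ v ?_
  · exact neg_ne_zero.2 (div_ne_zero he hd)
  · exact neg_ne_zero.2 (div_ne_zero hf hd)
  · intro w hw
    rw [← key]
    exact h w hw

private theorem RecipN_aux (h2 : (2 : k) ≠ 0)
    (v₀ : Place k K) : ∀ (g : ℕ), 1 ≤ g → ∀ (n : ℕ), n = 2 * g + 1 →
    ∀ (G : Matrix (Fin n) (Fin n) K), G.transpose = G → G.det ≠ 0 →
    (∀ v : Place k K, v ≠ v₀ → HYP.R.SplitI g (G.map v.toCompletion)) →
    HYP.R.SplitI g (G.map v₀.toCompletion) := by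
  intro g hg
  induction g, hg using Nat.le_induction with
  | base =>
    intro n hn G hs hd H
    obtain rfl : n = 3 := hn
    rw [RecipN_split_one]
    refine reciprocity3 h2 G hs hd v₀ fun w hw => ?_
    rw [← RecipN_split_one]
    exact H w hw
  | succ g hg ih =>
    intro n hn G hs hd H
    obtain ⟨m, rfl⟩ : ∃ m, n = m + 2 := ⟨2 * g + 1, by omega⟩
    obtain ⟨e, he, hee⟩ := exists_zero_K (k := k) (by omega) G
    obtain ⟨P, Q, G', hPQ, hQP, hs', hd', hG⟩ :=
      HYP.R.exists_split (RecipN_two (K := K) h2) G hs hd e he hee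
    rw [HYP.R.splitI_step v₀.toCompletion hPQ hQP hG]
    refine ih m (by omega) G' hs' hd' fun v hv => ?_
    rw [← HYP.R.splitI_step v.toCompletion hPQ hQP hG]
    exact H v hv

theorem recipN (h2 : (2 : k) ≠ 0) {g : ℕ} (hg : 1 ≤ g)
    (G : Matrix (Fin (2 * g + 1)) (Fin (2 * g + 1)) K) (hs : G.transpose = G) (hd : G.det ≠ 0)
    (v₀ : Place k K) (H : ∀ v : Place k K, v ≠ v₀ → HYP.SplitM g (G.map v.toCompletion)) :
    HYP.SplitM g (G.map v₀.toCompletion) :=
  RecipN_aux h2 v₀ g hg _ rfl G hs hd H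

end Pool.Agent.GBR
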