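import Pool.Agent.Lib.GBR.Def

/-!
Module Approx. Weak approximation for finitely many places of a field `K`.

Proof. For a place `v` let `|x|_v` be the real absolute value with `|x|_v = 2 ^ (-n)` for `x = π ^ n u`, `u` a
unit (`IsDiscreteValuationRing`, for example from `(IsDiscreteValuationRing.maximalIdeal v.ring).valuation K`
or `HeightOneSpectrum.adicAbv`-like constructions: `HeightOneSpectrum.adicAbv` exists for number fields,
in general use `Valuation.RankOne`/`WithZeroMulInt.toNNReal`), so that
`|x|_v < |y|_v ↔ v.ring.valuation x < v.ring.valuation y`. It is nontrivial. Absolute values of different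
places are not equivalent: `|x|_v ≤ 1 ↔ |x|_w ≤ 1` for all `x` gives `v.ring = w.ring`, `v = w`
(`Place.ext'` in Lib/MP_48b749_nt/Places.lean). `AbsoluteValue.denseRange_algebraMap_pi`
(Mathlib/Analysis/AbsoluteValue/Equivalence.lean) for the family indexed by `T` gives `x` with
`|x - c v|_v < |d v|_v` for all `v ∈ T`. (`Metric.denseRange_iff`, radius `min |d v|_v`.)
-/

set_option autoImplicit false

namespace Pool.Agent.GBR

open BSDFF

variable {k K : Type} [Field k] [Field K] [Algebra k K]

open IsDedekindDomain in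
private theorem isEquiv_max (v : Place k K) :
    ((IsDiscreteValuationRing.maximalIdeal v.ring).valuation K).IsEquiv v.ring.valuation := by
  rw [Valuation.isEquiv_iff_valuationSubring, ValuationSubring.valuationSubring_valuation]
  ext x
  rw [Valuation.mem_valuationSubring_iff]
  constructor
  · intro h
    obtain ⟨a, ha⟩ := IsDiscreteValuationRing.exists_lift_of_le_one h
    rw [← ha]
    exact a.2
  · intro h
    exact HeightOneSpectrum.valuation_le_one _ (⟨x, h⟩ : v.ring)

theorem exists_abs (v : Place k K) : ∃ f : AbsoluteValue K ℝ,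
    (∀ x y : K, f x < f y ↔ v.ring.valuation x < v.ring.valuation y) ∧ f.IsNontrivial := by
  have he : (1 : NNReal) < 2 := one_lt_two
  have key : ∀ x y : K, (IsDiscreteValuationRing.maximalIdeal v.ring).adicAbv he x <
      (IsDiscreteValuationRing.maximalIdeal v.ring).adicAbv he y ↔
      (IsDiscreteValuationRing.maximalIdeal v.ring).valuation K x <
        (IsDiscreteValuationRing.maximalIdeal v.ring).valuation K y := by
    intro x y
    exact (NNReal.coe_lt_coe).trans (WithZeroMulInt.toNNReal_strictMono he).lt_iff_lt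
  refine ⟨(IsDiscreteValuationRing.maximalIdeal v.ring).adicAbv he,
    fun x y => (key x y).trans (isEquiv_max v).lt_iff_lt, ?_⟩
  obtain ⟨π, hπ⟩ := IsDiscreteValuationRing.exists_irreducible v.ring
  refine ⟨(π : K), ?_, ?_⟩
  · intro h
    exact hπ.ne_zero (Subtype.ext h)
  · apply ne_of_lt
    refine ((IsDiscreteValuationRing.maximalIdeal v.ring).adicAbv_coe_lt_one_iff he (r := π)).2 ?_
    change π ∈ IsLocalRing.maximalIdeal v.ring
    exact (IsLocalRing.mem_maximalIdeal _).2 hπ.not_isUnit

private theorem place_ext {v w : Place k K} (h : v.ring = w.ring) : v = w := by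
  cases v
  cases w
  simp only at h
  subst h
  rfl

theorem approx (T : Finset (Place k K)) (c d : Place k K → K) (hd : ∀ v ∈ T, d v ≠ 0) :
    ∃ x : K, ∀ v ∈ T, v.ring.valuation (x - c v) < v.ring.valuation (d v) := by
  classical
  choose f hf hn using fun v : Place k K => exists_abs v
  have hdense := AbsoluteValue.denseRange_algebraMap_pi (ι := ↥T) (v := fun v => f v.1)
    (fun v => hn v.1) (by
      intro v w hvw he
      apply hvw
      apply Subtype.ext
      apply place_ext
      ext x
      have hm : ∀ u : Place k K, x ∈ u.ring ↔ f u x ≤ 1 := by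
        intro u
        rw [← ValuationSubring.valuation_le_one_iff, ← not_lt, ← not_lt, ← map_one (f u),
          hf u 1 x, map_one]
      rw [hm, hm]
      exact he.le_one_iff)
  obtain ⟨r, hr, hr'⟩ : ∃ r : ℝ, 0 < r ∧ ∀ v : ↥T, r ≤ f v.1 (d v.1) := by
    rcases T.eq_empty_or_nonempty with h0 | h0
    · exact ⟨1, one_pos, fun v => absurd h0 (Finset.ne_empty_of_mem v.2)⟩
    · obtain ⟨v0, hv0, hmin⟩ := T.exists_min_image (fun v => f v (d v)) h0
      exact ⟨f v0 (d v0), (f v0).pos (hd v0 hv0), fun v => hmin v.1 v.2⟩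
  obtain ⟨x, hx⟩ := Metric.denseRange_iff.1 hdense
    (fun v => WithAbs.toAbs (f v.1) (c v.1)) r hr
  refine ⟨x, fun v hv => ?_⟩
  rw [← hf v]
  have h1 := (dist_pi_lt_iff hr).1 hx ⟨v, hv⟩
  have h2 : f v (x - c v) < r := by
    rw [(f v).map_sub, ← WithAbs.norm_toAbs_eq, WithAbs.toAbs_sub, ← dist_eq_norm]
    exact h1
  exact lt_of_lt_of_le h2 (hr' ⟨v, hv⟩)

/-- prescribed values at finitely many places -/
theorem exists_value (T : Finset (Place k K)) (c : Place k K → K) (hc : ∀ v ∈ T, c v ≠ 0) :
    ∃ x : K, x ≠ 0 ∧ ∀ v ∈ T, v.ring.valuation x = v.ring.valuation (c v) := by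
  rcases T.eq_empty_or_nonempty with h0 | ⟨v0, hv0⟩
  · refine ⟨1, one_ne_zero, fun v hv => ?_⟩
    rw [h0] at hv
    exact absurd hv (Finset.notMem_empty _)
  · obtain ⟨x, hx⟩ := approx T c c hc
    have h1 : ∀ v ∈ T, v.ring.valuation x = v.ring.valuation (c v) := by
      intro v hv
      have h2 := v.ring.valuation.map_add_eq_of_lt_left (hx v hv)
      rwa [add_sub_cancel] at h2
    refine ⟨x, ?_, h1⟩
    intro h2
    have h3 := h1 v0 hv0
    rw [h2, map_zero] at h3
    exact hc v0 hv0 ((map_eq_zero _).1 h3.symm)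

end Pool.Agent.GBR
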