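import Pool.Agent.Lib.GBR.Def

/-!
Module Chart. If `K` is finite and separable over `k(b)` then the integral closure `Rb k b` of `k[b]` in
`K` is a Dedekind domain with field of fractions `K`, free of finite rank over `k[X]` (`X ↦ b`).

Proof. `A := Algebra.adjoin k {b}` is isomorphic to `k[X]` (`h.tr`: `aeval b` is injective,
`AlgebraicIndependent`/`Algebra.adjoin_singleton_eq_range_aeval`), a PID, and `IntermediateField.adjoin k {b}`
is its field of fractions (`IntermediateField.algebraAdjoinAdjoin` instances). With `L = k⟮b⟯`:
`IsIntegralClosure.isDedekindDomain A L K`, `IsIntegralClosure.isNoetherian`,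
`integralClosure.isFractionRing_of_finite_extension L K` for `integralClosure A K`; `Rb k b` is this ring
(`restrictScalars` does not change the carrier). Finite over `A`, so finite over `k[X]` (`k[X] → A` is
onto); torsion free over the PID `k[X]`, so free (`Module.free_of_finite_type_torsion_free'`).
-/

set_option autoImplicit false

open Polynomial UniqueFactorizationMonoid

namespace Pool.Agent.GBR

variable {k K : Type} [Field k] [Field K] [Algebra k K] {b : K}

open scoped IntermediateField.algebraAdjoinAdjoin

private theorem Chart_pid (h : SepB k b) : IsPrincipalIdealRing (Algebra.adjoin k {b}) :=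
  IsPrincipalIdealRing.of_surjective
    (Polynomial.algEquivOfTranscendental k b h.tr).toAlgHom.toRingHom
    (Polynomial.algEquivOfTranscendental k b h.tr).surjective

private theorem Chart_finA (h : SepB k b) :
    Module.Finite (Algebra.adjoin k {b}) (integralClosure (Algebra.adjoin k {b}) K) := by
  have := h.fin
  have := h.sep
  have := Chart_pid h
  exact IsIntegralClosure.finite (Algebra.adjoin k {b}) (IntermediateField.adjoin k {b}) K
    (integralClosure (Algebra.adjoin k {b}) K)

instance chart_ded [h : Fact (SepB k b)] : IsDedekindDomain (Rb k b) := by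
  have := h.out.fin
  have := h.out.sep
  have := Chart_pid h.out
  exact (integralClosure.isDedekindDomain (Algebra.adjoin k {b})
    (IntermediateField.adjoin k {b}) (L := K))

instance chart_frac [h : Fact (SepB k b)] : IsFractionRing (Rb k b) K := by
  have := h.out.fin
  have := h.out.sep
  exact (integralClosure.isFractionRing_of_finite_extension (A := Algebra.adjoin k {b})
    (IntermediateField.adjoin k {b}) K)

private def Chart_cast (y : integralClosure (Algebra.adjoin k {b}) K) : Rb k b := ⟨y.1, y.2⟩

instance chart_fin [h : Fact (SepB k b)] : Module.Finite k[X] (Rb k b) := by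
  have hA := Chart_finA h.out
  obtain ⟨s, hs⟩ := hA.fg_top
  refine ⟨Submodule.fg_def.mpr ⟨Chart_cast '' (s : Set (integralClosure (Algebra.adjoin k {b}) K)),
    s.finite_toSet.image _, ?_⟩⟩
  rw [eq_top_iff]
  intro x _
  have hx : (⟨x.1, x.2⟩ : integralClosure (Algebra.adjoin k {b}) K) ∈
      Submodule.span (Algebra.adjoin k {b})
      (s : Set (integralClosure (Algebra.adjoin k {b}) K)) := by
    rw [hs]; trivial
  have key : ∀ y ∈ Submodule.span (Algebra.adjoin k {b})
      (s : Set (integralClosure (Algebra.adjoin k {b}) K)),
      Chart_cast y ∈ Submodule.span k[X]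
        (Chart_cast '' (s : Set (integralClosure (Algebra.adjoin k {b}) K))) := by
    intro y hy
    induction hy using Submodule.span_induction with
    | mem y hy => exact Submodule.subset_span ⟨y, hy, rfl⟩
    | zero =>
      have : Chart_cast (0 : integralClosure (Algebra.adjoin k {b}) K) = 0 := rfl
      rw [this]; exact Submodule.zero_mem _
    | add y z _ _ hy hz =>
      have : Chart_cast (y + z) = Chart_cast y + Chart_cast z := rfl
      rw [this]; exact Submodule.add_mem _ hy hz
    | smul a y _ hy =>
      obtain ⟨p, hp⟩ := (Polynomial.algEquivOfTranscendental k b h.out.tr).surjective a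
      have e : p • Chart_cast y = Chart_cast (a • y) := by
        apply Subtype.ext
        rw [Algebra.smul_def]
        show ((algebraMap k[X] (Rb k b) p : Rb k b) : K) * (y : K) = (a : K) * (y : K)
        rw [coe_algebraMap_Rb, ← hp]
        simp
      rw [← e]
      exact Submodule.smul_mem _ _ hy
  exact key _ hx

instance chart_faithful [h : Fact (SepB k b)] : FaithfulSMul k[X] (Rb k b) := by
  rw [faithfulSMul_iff_algebraMap_injective]
  intro p q hpq
  have h1 := congrArg (fun x : Rb k b => (x : K)) hpq
  simp only [coe_algebraMap_Rb] at h1
  exact transcendental_iff_injective.mp h.out.tr h1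

instance chart_free [h : Fact (SepB k b)] : Module.Free k[X] (Rb k b) := by
  have : Module.IsTorsionFree k[X] (Rb k b) := inferInstance
  exact Module.free_of_finite_type_torsion_free'

theorem sepB_inv (h : SepB k b) : SepB k b⁻¹ := by
  have e : IntermediateField.adjoin k {b⁻¹} = IntermediateField.adjoin k {b} := by
    apply le_antisymm
    · rw [IntermediateField.adjoin_le_iff]
      rintro _ rfl
      exact inv_mem (IntermediateField.mem_adjoin_simple_self k b)
    · rw [IntermediateField.adjoin_le_iff]
      intro x hx
      rw [Set.mem_singleton_iff] at hx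
      have := inv_mem (IntermediateField.mem_adjoin_simple_self k b⁻¹)
      rw [inv_inv] at this
      rw [hx]
      exact this
  refine ⟨?_, ?_, ?_⟩
  · intro hb
    exact h.tr (by simpa using hb.inv)
  · rw [e]; exact h.fin
  · rw [e]; exact h.sep

end Pool.Agent.GBR
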