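import Pool.Agent.Lib.GBR.Def

/-!
Module ChiNorm. The quadratic character of a finite field of odd characteristic: multiplicativity, and
`(N x / k) = (x / κ)` for an extension `κ / k` of finite fields.

Proof. `sg x = quadraticChar k x` (`quadraticChar_apply`, `quadraticCharFun`; see `char_sgn_eq` in
Lib/BSDP/R/Char.lean), so it is multiplicative. For the norm: `x ∈ κ` nonzero, `q = #k`, `Q = #κ = q ^ n`,
`N x = x ^ ((Q - 1) / (q - 1))` (`FiniteField.algebraMap_norm_eq_pow_sum` or
`FiniteField.norm...`/`Algebra.norm_eq_prod_embeddings`, see also HYP/F/FinNorm.lean), so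
`(N x) ^ ((q - 1) / 2) = x ^ ((Q - 1) / 2)`; `quadraticChar_eq_pow_of_char_ne_two`,
`FiniteField.isSquare_iff`: a nonzero element is a square iff this power is `1`. A simpler way: if
`x = y²` then `N x = (N y)²`; if `x` is not a square and `N x` is one: the norm is onto
(`FiniteField.norm_surjective` or count), so its kernel on units has `(Q-1)/(q-1)` elements, ... .
-/

set_option autoImplicit false

open Polynomial UniqueFactorizationMonoid

namespace Pool.Agent.GBR

theorem sg_zero {A : Type} [CommRing A] : sg (0 : A) = 0 := by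
  simp [sg]

private theorem ChiNorm_eq {k : Type} [Field k] [Fintype k] [DecidableEq k] (x : k) :
    sg x = quadraticChar k x := by
  unfold sg
  by_cases h0 : x = 0
  · rw [if_pos h0, h0]
    exact quadraticChar_zero.symm
  · rw [if_neg h0]
    by_cases h1 : IsSquare x
    · rw [if_pos h1]
      exact ((quadraticChar_one_iff_isSquare h0).2 h1).symm
    · rw [if_neg h1]
      exact (quadraticChar_neg_one_iff_not_isSquare.2 h1).symm

theorem sg_mul {A : Type} [Field A] [Finite A] (x y : A) : sg (x * y) = sg x * sg y := by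
  classical
  have := Fintype.ofFinite A
  rw [ChiNorm_eq, ChiNorm_eq, ChiNorm_eq, map_mul]

theorem sg_pow {A : Type} [Field A] [Finite A] (x : A) (n : ℕ) (hn : n ≠ 0) :
    sg (x ^ n) = sg x ^ n := by
  classical
  have := Fintype.ofFinite A
  rw [ChiNorm_eq, ChiNorm_eq, map_pow]

theorem sg_one {A : Type} [Field A] : sg (1 : A) = 1 := by
  unfold sg
  rw [if_neg one_ne_zero, if_pos ⟨1, by rw [mul_one]⟩]

theorem sg_sq {A : Type} [Field A] {x : A} (hx : x ≠ 0) : sg (x ^ 2) = 1 := by
  unfold sg
  rw [if_neg (pow_ne_zero 2 hx), if_pos ⟨x, by rw [sq]⟩]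

theorem sg_mul_self {A : Type} [Field A] {x : A} (hx : x ≠ 0) : sg x * sg x = 1 := by
  unfold sg
  rw [if_neg hx]
  by_cases h1 : IsSquare x
  · rw [if_pos h1, mul_one]
  · rw [if_neg h1]
    norm_num

theorem sg_eq_zero {A : Type} [CommRing A] {x : A} : sg x = 0 ↔ x = 0 := by
  constructor
  · intro h
    by_contra h0
    unfold sg at h
    rw [if_neg h0] at h
    by_cases h1 : IsSquare x
    · rw [if_pos h1] at h
      exact one_ne_zero h
    · rw [if_neg h1] at h
      norm_num at h
  · rintro rfl
    exact sg_zero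

private theorem ChiNorm_isSquare {k L : Type} [Field k] [Finite k] [Field L] [Algebra k L]
    [FiniteDimensional k L] (h2 : (2 : k) ≠ 0) (x : L) :
    IsSquare x ↔ IsSquare (Algebra.norm k x) := by
  classical
  have hfin : Finite L := Module.finite_of_finite k
  have hc : Nat.card L = Nat.card k ^ Module.finrank k L :=
    Module.natCard_eq_pow_finrank (K := k)
  have hpow : algebraMap k L (Algebra.norm k x) =
      x ^ ((Nat.card L - 1) / (Nat.card k - 1)) :=
    FiniteField.algebraMap_norm_eq_pow
  have hinj : Function.Injective (algebraMap k L) := (algebraMap k L).injective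
  rw [hc] at hpow
  set N := Algebra.norm k x with hN
  set q := Nat.card k with hq
  have hq1 : 1 < q := Finite.one_lt_card
  have hd : Module.finrank k L ≠ 0 := Module.finrank_pos.ne'
  obtain ⟨e, he⟩ : q - 1 ∣ q ^ Module.finrank k L - 1 := by
    have := Nat.sub_dvd_pow_sub_pow q 1 (Module.finrank k L)
    rwa [one_pow] at this
  have hqd : 1 < q ^ Module.finrank k L := Nat.one_lt_pow hd hq1
  have he0 : e ≠ 0 := by
    rintro rfl
    rw [mul_zero] at he
    omega
  have hdiv : (q ^ Module.finrank k L - 1) / (q - 1) = e := by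
    rw [he]
    exact Nat.mul_div_cancel_left e (by omega)
  rw [hdiv] at hpow
  have hck : ringChar k ≠ 2 := by
    intro h3
    apply h2
    have := (ringChar.spec k 2).2 (by rw [h3])
    exact_mod_cast this
  have h2L : (2 : L) ≠ 0 := by
    intro h3
    apply h2
    apply hinj
    rw [map_ofNat, map_zero]
    exact h3
  have hcL : ringChar L ≠ 2 := by
    intro h3
    apply h2L
    have := (ringChar.spec L 2).2 (by rw [h3])
    exact_mod_cast this
  have hfk := Fintype.ofFinite k
  have hfL := Fintype.ofFinite L
  by_cases hx0 : x = 0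
  · have hN0 : N = 0 := by
      apply hinj
      rw [hpow, hx0, zero_pow he0, map_zero]
    rw [hx0, hN0]
    exact ⟨fun _ => ⟨0, by simp⟩, fun _ => ⟨0, by simp⟩⟩
  · have hN0 : N ≠ 0 := by
      intro h3
      rw [h3, map_zero] at hpow
      exact hx0 (pow_eq_zero_iff he0 |>.1 hpow.symm)
    rw [FiniteField.isSquare_iff hcL hx0, FiniteField.isSquare_iff hck hN0,
      ← Nat.card_eq_fintype_card, ← Nat.card_eq_fintype_card, hc]
    have hodd : q % 2 = 1 := by
      rw [hq, Nat.card_eq_fintype_card]
      exact FiniteField.odd_card_of_char_ne_two hck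
    have hodd2 : (q ^ Module.finrank k L) % 2 = 1 := by
      have : Odd (q ^ Module.finrank k L) := (Nat.odd_iff.2 hodd).pow
      exact Nat.odd_iff.1 this
    have hexp : e * (q / 2) = q ^ Module.finrank k L / 2 := by
      have h1 : q - 1 = 2 * (q / 2) := by omega
      have h3 : q ^ Module.finrank k L - 1 = 2 * (q ^ Module.finrank k L / 2) := by omega
      have h4 : 2 * (q ^ Module.finrank k L / 2) = 2 * (e * (q / 2)) := by
        rw [← h3, he]
        calc (q - 1) * e = (2 * (q / 2)) * e := by rw [← h1]
          _ = 2 * (e * (q / 2)) := by ring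
      omega
    have h5 : algebraMap k L (N ^ (q / 2)) = x ^ (q ^ Module.finrank k L / 2) := by
      rw [map_pow, hpow, ← pow_mul, hexp]
    rw [← h5]
    constructor
    · intro h6
      exact hinj (by rw [h6, map_one])
    · intro h6
      rw [h6, map_one]

private theorem ChiNorm_norm {k L : Type} [Field k] [Finite k] [Field L] [Algebra k L]
    [FiniteDimensional k L] (h2 : (2 : k) ≠ 0) (x : L) : sg (Algebra.norm k x) = sg x := by
  unfold sg
  by_cases h0 : x = 0
  · rw [if_pos h0, if_pos (by rw [h0]; exact Algebra.norm_zero)]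
  · rw [if_neg h0, if_neg (fun h => h0 (Algebra.norm_eq_zero_iff.1 h))]
    by_cases h1 : IsSquare x
    · rw [if_pos h1, if_pos ((ChiNorm_isSquare h2 x).1 h1)]
    · rw [if_neg h1, if_neg (fun h => h1 ((ChiNorm_isSquare h2 x).2 h))]

/-- the norm of finite fields; `κ` is given as a commutative ring which is a field -/
theorem sg_norm {k κ : Type} [Field k] [Finite k] [CommRing κ] [Algebra k κ] (hκ : IsField κ)
    [FiniteDimensional k κ] (h2 : (2 : k) ≠ 0) (x : κ) : sg (Algebra.norm k x) = sg x := by
  let : Field κ := hκ.toField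
  exact ChiNorm_norm h2 x

end Pool.Agent.GBR
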