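import Pool.Agent.Lib.GBR.CritA

/-!
Module Crit. Local solubility of `X² = x Y² + y Z²` at the place of a prime ideal `P`, `x` prime to `P`:
it is soluble iff `x` is a square modulo `P` or `P` divides `(y)` with even multiplicity, that is,
iff `sg (x mod P) ^ count = 1`.
(`exists_repr`, `isSquare_iff` are in CritA.) (helper92)
-/

set_option autoImplicit false

open Polynomial UniqueFactorizationMonoid IsDedekindDomain

namespace Pool.Agent.GBR

open BSDFF

variable {k R K : Type} [Field k] [CommRing R] [IsDedekindDomain R] [Field K]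
  [Algebra R K] [IsFractionRing R K] [Algebra k R] [Algebra k K] [IsScalarTower k R K]

private theorem Crit_val_lt (P : HeightOneSpectrum R) (L : BSDK.LocAt (plc k K P)) (a : K) :
    L.O.valuation ((plc k K P).toCompletion a) < 1 ↔ P.valuation K a < 1 :=
  (L.lt_iff a).trans
    (Valuation.isEquiv_valuation_valuationSubring (P.valuation K)).lt_one_iff_lt_one.symm

private theorem Crit_val_le (P : HeightOneSpectrum R) (L : BSDK.LocAt (plc k K P)) (a : K) :
    L.O.valuation ((plc k K P).toCompletion a) ≤ 1 ↔ P.valuation K a ≤ 1 := by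
  rw [ValuationSubring.valuation_le_one_iff, L.mem_iff]
  exact Iff.rfl

private theorem Crit_val_one (P : HeightOneSpectrum R) (L : BSDK.LocAt (plc k K P)) (a : K) :
    L.O.valuation ((plc k K P).toCompletion a) = 1 ↔ P.valuation K a = 1 := by
  have h1 := Crit_val_lt P L a
  have h2 := Crit_val_le P L a
  constructor
  · intro h
    exact le_antisymm (h2.mp h.le) (not_lt.mp fun h' => (h1.mpr h').ne h)
  · intro h
    exact le_antisymm (h2.mpr h.le) (not_lt.mp fun h' => (h1.mp h').ne h)

private theorem Crit_count (P : HeightOneSpectrum R) (y : R) (hy : y ≠ 0) :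
    P.intValuation y = WithZero.exp
      (-((normalizedFactors (Ideal.span {y})).count P.asIdeal : ℤ)) := by
  classical
  have hsr : Ideal.span {y} ≠ 0 := Submodule.span_singleton_eq_bot.mp.mt hy
  rw [P.intValuation_if_neg hy, WithZero.exp_inj, neg_inj, Int.natCast_inj,
    Ideal.count_associates_factors_eq hsr P.isPrime P.ne_bot]

/-- parity of the valuation -/
theorem sameClass_iff (P : HeightOneSpectrum R) (L : BSDK.LocAt (plc k K P)) (y : R) (hy : y ≠ 0) :
    BSDP.R.SameClass L.O.valuation ((plc k K P).toCompletion (algebraMap R K y)) 1 ↔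
      Even ((normalizedFactors (Ideal.span {y})).count P.asIdeal) := by
  have hy' : algebraMap R K y ≠ 0 := (map_ne_zero_iff _ (IsFractionRing.injective R K)).mpr hy
  have hY : (plc k K P).toCompletion (algebraMap R K y) ≠ 0 := (_root_.map_ne_zero _).mpr hy'
  have hPy : P.valuation K (algebraMap R K y) = WithZero.exp
      (-((normalizedFactors (Ideal.span {y})).count P.asIdeal : ℤ)) := by
    rw [P.valuation_of_algebraMap, Crit_count P y hy]
  constructor
  · rintro ⟨s, hs⟩
    rw [mul_one] at hs
    have hs0 : s ≠ 0 := by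
      rintro rfl
      rw [map_zero, zero_pow two_ne_zero] at hs
      exact (Valuation.ne_zero_iff _).mpr hY hs
    obtain ⟨a, ha⟩ := L.dense s s hs0
    have hVa : L.O.valuation ((plc k K P).toCompletion a) = L.O.valuation s := by
      have h1 := Valuation.map_sub_eq_of_lt_left _ ha
      rw [sub_sub_cancel] at h1
      exact h1
    have h2 : L.O.valuation ((plc k K P).toCompletion (a ^ 2 / algebraMap R K y)) = 1 := by
      rw [map_div₀, map_pow, map_div₀, map_pow, hVa, ← hs]
      exact div_self ((Valuation.ne_zero_iff _).mpr hY)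
    rw [Crit_val_one, map_div₀, map_pow, hPy, div_eq_one_iff_eq WithZero.exp_ne_zero] at h2
    have ha0 : P.valuation K a ≠ 0 := by
      intro h
      rw [h, zero_pow two_ne_zero] at h2
      exact WithZero.exp_ne_zero h2.symm
    obtain ⟨m, hm⟩ : ∃ m : ℤ, P.valuation K a = WithZero.exp m :=
      ⟨WithZero.log (P.valuation K a), (WithZero.exp_log ha0).symm⟩
    rw [hm, ← WithZero.exp_nsmul, WithZero.exp_inj] at h2
    rw [← Int.even_coe_nat, ← even_neg, ← h2]
    exact ⟨m, by rw [two_nsmul]⟩
  · rintro ⟨m, hm⟩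
    obtain ⟨p, hp⟩ := P.intValuation_exists_uniformizer
    have hp' : P.valuation K (algebraMap R K p) = WithZero.exp (-1 : ℤ) := by
      rw [P.valuation_of_algebraMap, hp]
    refine ⟨(plc k K P).toCompletion (algebraMap R K p ^ m), ?_⟩
    rw [mul_one]
    have h2 : L.O.valuation ((plc k K P).toCompletion
        ((algebraMap R K p ^ m) ^ 2 / algebraMap R K y)) = 1 := by
      rw [Crit_val_one, map_div₀, map_pow, map_pow, hPy, hp', div_eq_one_iff_eq WithZero.exp_ne_zero,
        ← WithZero.exp_nsmul, ← WithZero.exp_nsmul, WithZero.exp_inj, hm]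
      push_cast
      simp only [nsmul_eq_mul]
      push_cast
      ring
    rw [map_div₀, map_div₀, div_eq_one_iff_eq ((Valuation.ne_zero_iff _).mpr hY), map_pow,
      map_pow] at h2
    exact h2.symm

theorem crit (P : HeightOneSpectrum R) (L : BSDK.LocAt (plc k K P)) (x y : R)
    (hx : x ∉ P.asIdeal) (hy : y ≠ 0) :
    Iso2 (plc k K P) (algebraMap R K x) (algebraMap R K y) ↔
      sg (Ideal.Quotient.mk P.asIdeal x) ^ (normalizedFactors (Ideal.span {y})).count P.asIdeal =
        1 := by
  have hLS := BSDP.R.locSq_of_loc L.toLoc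
  set X := (plc k K P).toCompletion (algebraMap R K x) with hX
  set Y := (plc k K P).toCompletion (algebraMap R K y) with hYdef
  have hy' : algebraMap R K y ≠ 0 := (map_ne_zero_iff _ (IsFractionRing.injective R K)).mpr hy
  have hY : Y ≠ 0 := (_root_.map_ne_zero _).mpr hy'
  have hVX : L.O.valuation X = 1 := by
    rw [hX, Crit_val_one, P.valuation_of_algebraMap, HeightOneSpectrum.intValuation_eq_one_iff]
    exact hx
  have hX0 : X ≠ 0 := by
    rintro h
    rw [h, map_zero] at hVX
    exact zero_ne_one hVX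
  have hform : Iso2 (plc k K P) (algebraMap R K x) (algebraMap R K y) ↔
      ∃ a b c : (plc k K P).ring.valuation.Completion, (a ≠ 0 ∨ b ≠ 0 ∨ c ≠ 0) ∧
        -Y * a ^ 2 + 1 * b ^ 2 + -X * c ^ 2 = 0 := by
    constructor
    · rintro ⟨a, b, c, h, he⟩
      refine ⟨c, a, b, by tauto, ?_⟩
      rw [he]
      ring
    · rintro ⟨c, a, b, h, he⟩
      refine ⟨a, b, c, by tauto, ?_⟩
      linear_combination he
  have hs : BSDP.R.SameClass L.O.valuation (-Y) 1 ↔
      Even ((normalizedFactors (Ideal.span {y})).count P.asIdeal) := by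
    rw [← sameClass_iff P L y hy]
    unfold BSDP.R.SameClass
    simp only [mul_one, Valuation.map_neg, hYdef]
  have h1X : BSDP.R.SameClass L.O.valuation 1 (-X) := ⟨1, by
    rw [one_mul, Valuation.map_neg, hVX, map_one, one_pow]⟩
  have hsg : sg (Ideal.Quotient.mk P.asIdeal x) = 1 ∨ sg (Ideal.Quotient.mk P.asIdeal x) = -1 := by
    have h0 : Ideal.Quotient.mk P.asIdeal x ≠ 0 := fun h => hx (Ideal.Quotient.eq_zero_iff_mem.mp h)
    unfold sg
    rw [if_neg h0]
    by_cases h : IsSquare (Ideal.Quotient.mk P.asIdeal x)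
    · rw [if_pos h]; exact Or.inl rfl
    · rw [if_neg h]; exact Or.inr rfl
  have hsgsq : sg (Ideal.Quotient.mk P.asIdeal x) = 1 ↔ IsSquare X := by
    rw [hX, isSquare_iff P L x hx]
    have h0 : Ideal.Quotient.mk P.asIdeal x ≠ 0 := fun h => hx (Ideal.Quotient.eq_zero_iff_mem.mp h)
    unfold sg
    rw [if_neg h0]
    by_cases h : IsSquare (Ideal.Quotient.mk P.asIdeal x)
    · simp [h]
    · simp [h]
  rw [hform]
  by_cases hev : Even ((normalizedFactors (Ideal.span {y})).count P.asIdeal)
  · refine iff_of_true (hLS.iso_same (neg_ne_zero.mpr hY) one_ne_zero (neg_ne_zero.mpr hX0)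
      (hs.mpr hev) h1X) ?_
    rcases hsg with h | h
    · rw [h, one_pow]
    · rw [h, hev.neg_one_pow]
  · rw [hLS.iso_ram (neg_ne_zero.mpr hY) one_ne_zero (neg_ne_zero.mpr hX0)
      (fun h => hev (hs.mp h)) h1X, one_mul, neg_neg, ← hsgsq]
    rw [Nat.not_even_iff_odd] at hev
    rcases hsg with h | h
    · rw [h, one_pow]
    · rw [h, hev.neg_one_pow]

end Pool.Agent.GBR
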