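import Pool.Agent.Lib.GBR.Plc
import Pool.Agent.Lib.GBR.ChiNorm
import Pool.Agent.Lib.BSDP.R.Loc

/-!
Module CritA (first part of the plan in Crit.lean): every element of the valuation ring of the place of a
prime ideal `P` is congruent to an element of `R`; squares modulo `P` and squares in the completion.
(helper92)
-/

set_option autoImplicit false

open Polynomial UniqueFactorizationMonoid IsDedekindDomain

namespace Pool.Agent.GBR

open BSDFF

variable {k R K : Type} [Field k] [CommRing R] [IsDedekindDomain R] [Field K]
  [Algebra R K] [IsFractionRing R K] [Algebra k R] [Algebra k K] [IsScalarTower k R K]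

/-- every element of the valuation ring is congruent to an element of `R` -/
theorem exists_repr (P : HeightOneSpectrum R) (x : K) (hx : x ∈ (plc k K P).ring) :
    ∃ r : R, (plc k K P).ring.valuation (x - algebraMap R K r) < 1 := by
  have hx' : P.valuation K x ≤ 1 := hx
  obtain ⟨a, ha⟩ := P.exists_valuation_sub_lt_of_integer hx' 1
  refine ⟨a, ?_⟩
  rw [Units.val_one, Valuation.map_sub_swap] at ha
  exact (Valuation.isEquiv_valuation_valuationSubring (P.valuation K)).lt_one_iff_lt_one.mp ha

/-- squares modulo `P` and squares in the completion -/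
theorem isSquare_iff (P : HeightOneSpectrum R) (L : BSDK.LocAt (plc k K P)) (x : R)
    (hx : x ∉ P.asIdeal) :
    IsSquare ((plc k K P).toCompletion (algebraMap R K x)) ↔
      IsSquare (Ideal.Quotient.mk P.asIdeal x) := by
  have hlt : ∀ r : R, L.O.valuation ((plc k K P).toCompletion (algebraMap R K r)) < 1 ↔
      r ∈ P.asIdeal := fun r => (L.lt_iff _).trans (plc_lt P r)
  have hle : ∀ r : R, L.O.valuation ((plc k K P).toCompletion (algebraMap R K r)) ≤ 1 := by
    intro r
    rw [ValuationSubring.valuation_le_one_iff, L.mem_iff]
    exact mem_plc P r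
  have h1 : ∀ r : R, r ∉ P.asIdeal →
      L.O.valuation ((plc k K P).toCompletion (algebraMap R K r)) = 1 := fun r hr =>
    le_antisymm (hle r) (not_lt.mp fun h => hr ((hlt r).mp h))
  constructor
  · rintro ⟨y, hy⟩
    have hy1 : L.O.valuation y ≤ 1 := by
      by_contra hcon
      rw [not_le] at hcon
      have h2 : L.O.valuation y * L.O.valuation y = 1 := by rw [← map_mul, ← hy, h1 x hx]
      have h3 : (1 : L.O.ValueGroup) < L.O.valuation y * L.O.valuation y := by
        calc (1 : L.O.ValueGroup) < L.O.valuation y := hcon
          _ = 1 * L.O.valuation y := (one_mul _).symm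
          _ ≤ L.O.valuation y * L.O.valuation y := mul_le_mul_left hcon.le _
      exact absurd h2 h3.ne'
    obtain ⟨a, ha⟩ := L.dense y 1 one_ne_zero
    rw [map_one] at ha
    have ha1 : a ∈ (plc k K P).ring := by
      rw [← L.mem_iff, ← ValuationSubring.valuation_le_one_iff]
      have : (plc k K P).toCompletion a = y - (y - (plc k K P).toCompletion a) := by ring
      rw [this]
      exact (Valuation.map_sub _ _ _).trans (max_le hy1 ha.le)
    obtain ⟨r, hr⟩ := exists_repr P a ha1
    rw [← L.lt_iff, map_sub] at hr
    have h4 : L.O.valuation (y - (plc k K P).toCompletion (algebraMap R K r)) < 1 := by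
      have : y - (plc k K P).toCompletion (algebraMap R K r) =
          (y - (plc k K P).toCompletion a) +
            ((plc k K P).toCompletion a - (plc k K P).toCompletion (algebraMap R K r)) := by ring
      rw [this]
      exact lt_of_le_of_lt (Valuation.map_add _ _ _) (max_lt ha hr)
    have h5 : L.O.valuation (y + (plc k K P).toCompletion (algebraMap R K r)) ≤ 1 :=
      (Valuation.map_add _ _ _).trans (max_le hy1 (hle r))
    have h6 : x - r * r ∈ P.asIdeal := by
      rw [← hlt, map_sub, map_sub, map_mul, map_mul, hy]
      have : y * y - (plc k K P).toCompletion (algebraMap R K r) *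
          (plc k K P).toCompletion (algebraMap R K r) =
          (y - (plc k K P).toCompletion (algebraMap R K r)) *
            (y + (plc k K P).toCompletion (algebraMap R K r)) := by ring
      rw [this, map_mul]
      exact mul_lt_one_of_lt_of_le h4 h5
    refine ⟨Ideal.Quotient.mk P.asIdeal r, ?_⟩
    rw [← map_mul]
    exact Ideal.Quotient.eq.mpr h6
  · rintro ⟨t, ht⟩
    obtain ⟨s, rfl⟩ := Ideal.Quotient.mk_surjective t
    rw [← map_mul] at ht
    have h2 : x - s * s ∈ P.asIdeal := Ideal.Quotient.eq.mp ht
    have hs : s ∉ P.asIdeal := by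
      intro h
      apply hx
      have : x = (x - s * s) + s * s := by ring
      rw [this]
      exact add_mem h2 (P.asIdeal.mul_mem_left s h)
    refine BSDP.R.isSquare_of_near_sq L.toLoc _ ((plc k K P).toCompletion (algebraMap R K s))
      (h1 s hs) ?_
    have h3 : (plc k K P).toCompletion (algebraMap R K x) -
        (plc k K P).toCompletion (algebraMap R K s) ^ 2 =
        (plc k K P).toCompletion (algebraMap R K (x - s * s)) := by
      rw [map_sub, map_sub, map_mul, map_mul, sq]
    rw [h3]
    exact (hlt _).mpr h2

end Pool.Agent.GBR
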