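import Pool.Agent.Lib.BSDK.LocK
import Pool.Agent.Lib.BSDP.R.Form
import Pool.Agent.Lib.BSDP.R.Congr

/-!
Block GBR: reciprocity for quadratic forms over a function field `K` (finite and separable over `k(t)`,
`k` finite of odd characteristic), for the project BSD and Tate over every global function field
(MP_48b749_nt, MP_950c68_ag). Text: /team-store/MP_generalbase_referee75.md, section R.

Plan (Weil reciprocity for the quadratic character). For `b ∈ K` with `K / k(b)` separable let `Rb k b`
be the integral closure of `k[b]` in `K`. `pp y x = ∏_{P | y} (x / P)` in a Dedekind ring.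
* `pp b u = sg (F (0))`, `pp u b = sg ((-1)^deg F lc(F) F(0))`, `F` the norm of `u` over `k[b]`
  (determinants of multiplications on `R ⧸ I`): modules DetMul, DetNorm, DetX, ChiNorm, PP.
* `weil`: `pp b a₁ * pp a₁ b * pp b⁻¹ a₂ = 1` for `a₁ = a₂ s²`, `a₁ ∈ Rb k b` prime to `b`,
  `a₂ ∈ Rb k b⁻¹` prime to `b⁻¹`: modules Poly, NormB, Weil.
* places = prime ideals (Plc), `x² = a y² + b z²` is soluble at a place iff the symbol is `1` (Crit).
* every pair `(a, b)` can be replaced by a pair with disjoint supports and `K / k(b)` separable:
  Approx, Iso, Kahler, SepG, Supp, Modify.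
* Recip2, Recip (ternary forms), CW (forms of rank at least `5` have a zero), RecipN (rank `2 g + 1`).
-/

set_option autoImplicit false

open Polynomial UniqueFactorizationMonoid

namespace Pool.Agent.GBR

open BSDFF BSDP

/-- The quadratic character of a ring: `0` at `0`, `1` at the other squares, `-1` at nonsquares. -/
noncomputable def sg {A : Type} [CommRing A] (x : A) : ℤ :=
  open Classical in if x = 0 then 0 else if IsSquare x then 1 else -1

/-- `∏ (x / P)`, the product over the prime factors `P` (with multiplicity) of the ideal `(y)`. -/
noncomputable def pp {R : Type} [CommRing R] [IsDedekindDomain R] (y x : R) : ℤ :=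
  ((normalizedFactors (Ideal.span {y})).map fun P => sg (Ideal.Quotient.mk P x)).prod

/-- `x² = a y² + b z²` has a nontrivial solution over the completion at `v`. -/
def Iso2 {k K : Type} [Field k] [Field K] [Algebra k K] (v : Place k K) (a b : K) : Prop :=
  ∃ x y z : v.ring.valuation.Completion, (x ≠ 0 ∨ y ≠ 0 ∨ z ≠ 0) ∧
    x ^ 2 = v.toCompletion a * y ^ 2 + v.toCompletion b * z ^ 2

/-- `K` is finite and separable over `k(b)`, `b` transcendental. -/
structure SepB (k : Type) {K : Type} [Field k] [Field K] [Algebra k K] (b : K) : Prop where
  tr : Transcendental k b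
  fin : FiniteDimensional (IntermediateField.adjoin k {b}) K
  sep : Algebra.IsSeparable (IntermediateField.adjoin k {b}) K

section rb

variable (k : Type) {K : Type} [Field k] [Field K] [Algebra k K]

/-- The integral closure of `k[b]` in `K`. -/
noncomputable def Rb (b : K) : Subalgebra k K :=
  (integralClosure (Algebra.adjoin k {b}) K).restrictScalars k

theorem self_mem_Rb (b : K) : b ∈ Rb k b :=
  (integralClosure (Algebra.adjoin k {b}) K).algebraMap_mem
    ⟨b, Algebra.subset_adjoin (Set.mem_singleton b)⟩

/-- `b` as an element of `Rb k b`. -/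
noncomputable def gen (b : K) : Rb k b := ⟨b, self_mem_Rb k b⟩

/-- `Rb k b` as an algebra over `k[X]`, `X ↦ b`. -/
noncomputable instance algRb (b : K) : Algebra k[X] (Rb k b) := (aeval (gen k b)).toAlgebra

theorem algebraMap_Rb (b : K) (p : k[X]) : algebraMap k[X] (Rb k b) p = aeval (gen k b) p := rfl

theorem algebraMap_X (b : K) : algebraMap k[X] (Rb k b) X = gen k b := by
  rw [algebraMap_Rb, aeval_X]

instance towerRb (b : K) : IsScalarTower k k[X] (Rb k b) :=
  IsScalarTower.of_algebraMap_eq fun x => by
    rw [algebraMap_Rb, Polynomial.algebraMap_eq, aeval_C]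

theorem coe_algebraMap_Rb (b : K) (p : k[X]) :
    ((algebraMap k[X] (Rb k b) p : Rb k b) : K) = aeval b p := by
  rw [algebraMap_Rb]
  have h := Polynomial.aeval_algHom_apply (Rb k b).val (gen k b) p
  exact h.symm

/-- The norm from `K` to `k(b)`, as an element of `K`. -/
noncomputable def Nb (b x : K) : K :=
  algebraMap (IntermediateField.adjoin k {b}) K (Algebra.norm (IntermediateField.adjoin k {b}) x)

end rb

section place

open IsDedekindDomain

variable (k : Type) {R : Type} (K : Type) [Field k] [CommRing R] [IsDedekindDomain R] [Field K]
  [Algebra R K] [IsFractionRing R K] [Algebra k R] [Algebra k K] [IsScalarTower k R K]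

/-- The place of `K` given by a prime ideal of the Dedekind ring `R`. -/
noncomputable def plc (P : HeightOneSpectrum R) : Place k K where
  ring := (P.valuation K).valuationSubring
  const_mem := fun c => by
    rw [Valuation.mem_valuationSubring_iff, IsScalarTower.algebraMap_apply k R K]
    exact HeightOneSpectrum.valuation_le_one _ _
  dvr := inferInstance

end place

end Pool.Agent.GBR
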