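import Pool.Agent.Lib.GBR.Def

/-!
Module DetMul. In a Dedekind domain `R` which is an algebra over a field `k` with finite dimensional
quotients, the determinant of the multiplication by `u` on `R ⧸ I` (this is `Algebra.norm k` of the class
of `u`) is the product of the determinants on `R ⧸ P`, `P` the prime factors of `I` with multiplicity.

Proof. Induction on the factorization of `I` (`UniqueFactorizationMonoid.induction_on_prime`, ideals up
to units: the only unit is `⊤`, `R ⧸ ⊤` is trivial, the norm is `1` (`LinearMap.det` of a trivial space)).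
Step: `J = P * I`, `P` maximal, `I ≠ ⊥`. `normalizedFactors (P * I) = P ::ₘ normalizedFactors I`
(`normalizedFactors_mul`, `normalizedFactors_irreducible`, ideals are their own normalization). Let
`W ⊆ R ⧸ J` be the image of `I`, a `k`-subspace stable under the multiplication by `u`
(`LinearMap.det_eq_det_mul_det` with `e = LinearMap.mulLeft k (mk u)`, `Algebra.norm_apply`):
* `(R ⧸ J) ⧸ W ≃ₗ[k] R ⧸ I` (`DoubleQuot.quotQuotEquivQuotOfLE` or a surjection with kernel `W`),
  compatible with `u`; determinants are invariant: `LinearMap.det_conj`.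
* `W ≃ₗ[k] R ⧸ P`: choose `x ∈ I`, `x ∉ P * I` (`P * I < I`: `Ideal.mul_lt..`, cancel `I` in
  `P * I = I`). The map `r ↦ r x` from `R` to `W` is onto with kernel `P`: the kernel contains `P` and not
  `1`, and `P` is maximal; `span {x} ⊔ P * I` is an ideal with `P * I < · ≤ I`, so it is `I` (write it as
  `L * I` (`I ∣ ·` by `Ideal.dvd_iff_le`); `P < L` or use `P ≤ L`, `L ≠ P`, `P` maximal, `L = ⊤`).
-/

set_option autoImplicit false

open Polynomial UniqueFactorizationMonoid

namespace Pool.Agent.GBR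

private theorem DetMul_conj {k M N : Type} [Field k] [AddCommGroup M] [Module k M] [AddCommGroup N]
    [Module k N] (f : M →ₗ[k] M) (g : N →ₗ[k] N) (φ : M ≃ₗ[k] N) (h : ∀ m, φ (f m) = g (φ m)) :
    LinearMap.det f = LinearMap.det g := by
  rw [← LinearMap.det_conj f φ]
  congr 1
  ext n
  simp [h]

private theorem DetMul_aux {k R : Type} [Field k] [CommRing R] [Algebra k R] (P I J : Ideal R)
    (hfin : FiniteDimensional k (R ⧸ J)) (hJI : J ≤ I) (x : R) (hx : x ∈ I)
    (hgen : ∀ y ∈ I, ∃ r : R, y - r * x ∈ J) (hker : ∀ r : R, r * x ∈ J ↔ r ∈ P) (u : R) :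
    Algebra.norm k (Ideal.Quotient.mk J u) =
      Algebra.norm k (Ideal.Quotient.mk P u) * Algebra.norm k (Ideal.Quotient.mk I u) := by
  classical
  -- the subspace
  let W : Submodule k (R ⧸ J) := (Ideal.map (Ideal.Quotient.mk J) I).restrictScalars k
  have hW : ∀ r : R, Ideal.Quotient.mk J r ∈ W ↔ r ∈ I := by
    intro r
    change Ideal.Quotient.mk J r ∈ Ideal.map (Ideal.Quotient.mk J) I ↔ r ∈ I
    rw [Ideal.mem_quotient_iff_mem hJI]
  have he : W ≤ W.comap (Algebra.lmul k (R ⧸ J) (Ideal.Quotient.mk J u)) := by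
    intro w hw
    exact Ideal.mul_mem_left _ _ hw
  have h1 : Algebra.norm k (Ideal.Quotient.mk J u) =
      ((Algebra.lmul k (R ⧸ J) (Ideal.Quotient.mk J u)).restrict he).det *
        (W.mapQ W (Algebra.lmul k (R ⧸ J) (Ideal.Quotient.mk J u)) he).det := by
    rw [Algebra.norm_apply]
    exact LinearMap.det_eq_det_mul_det W _ he
  -- first factor
  let F0 : (R ⧸ P) →ₗ[R] (R ⧸ J) :=
    Submodule.liftQ P (LinearMap.toSpanSingleton R (R ⧸ J) (Ideal.Quotient.mk J x)) (by
      intro r hr
      rw [LinearMap.mem_ker, LinearMap.toSpanSingleton_apply, Algebra.smul_def,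
        Ideal.Quotient.algebraMap_eq, ← map_mul, Ideal.Quotient.eq_zero_iff_mem]
      exact (hker r).2 hr)
  have hF0 : ∀ r : R, F0 (Ideal.Quotient.mk P r) = Ideal.Quotient.mk J (r * x) := by
    intro r
    change (LinearMap.toSpanSingleton R (R ⧸ J) (Ideal.Quotient.mk J x)) r = _
    rw [LinearMap.toSpanSingleton_apply, Algebra.smul_def, Ideal.Quotient.algebraMap_eq, ← map_mul]
  let F : (R ⧸ P) →ₗ[k] W := (F0.restrictScalars k).codRestrict W (by
    intro c
    obtain ⟨r, rfl⟩ := Ideal.Quotient.mk_surjective c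
    change F0 (Ideal.Quotient.mk P r) ∈ W
    rw [hF0, hW]
    exact Ideal.mul_mem_left _ _ hx)
  have hF : ∀ r : R, ((F (Ideal.Quotient.mk P r) : W) : R ⧸ J) = Ideal.Quotient.mk J (r * x) := by
    intro r
    exact hF0 r
  have hinj : Function.Injective F := by
    rw [injective_iff_map_eq_zero]
    intro c hc
    obtain ⟨r, rfl⟩ := Ideal.Quotient.mk_surjective c
    have h2 : Ideal.Quotient.mk J (r * x) = 0 := by
      rw [← hF, hc]; rfl
    rw [Ideal.Quotient.eq_zero_iff_mem] at h2
    rw [Ideal.Quotient.eq_zero_iff_mem]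
    exact (hker r).1 h2
  have hsur : Function.Surjective F := by
    rintro ⟨c, hc⟩
    obtain ⟨y, rfl⟩ := Ideal.Quotient.mk_surjective c
    obtain ⟨r, hr⟩ := hgen y ((hW y).1 hc)
    refine ⟨Ideal.Quotient.mk P r, ?_⟩
    apply Subtype.ext
    rw [hF]
    exact (Ideal.Quotient.eq.2 hr).symm
  have h2 : ((Algebra.lmul k (R ⧸ J) (Ideal.Quotient.mk J u)).restrict he).det =
      Algebra.norm k (Ideal.Quotient.mk P u) := by
    rw [Algebra.norm_apply]
    symm
    apply DetMul_conj _ _ (LinearEquiv.ofBijective F ⟨hinj, hsur⟩)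
    intro c
    obtain ⟨r, rfl⟩ := Ideal.Quotient.mk_surjective c
    apply Subtype.ext
    change ((F (Ideal.Quotient.mk P u * Ideal.Quotient.mk P r) : W) : R ⧸ J) =
      Ideal.Quotient.mk J u * ((F (Ideal.Quotient.mk P r) : W) : R ⧸ J)
    rw [← map_mul, hF, hF, ← map_mul, mul_assoc]
  -- second factor
  let π : (R ⧸ J) →ₗ[k] (R ⧸ I) := (Ideal.Quotient.factorₐ k hJI).toLinearMap
  have hπ : ∀ r : R, π (Ideal.Quotient.mk J r) = Ideal.Quotient.mk I r := fun r => rfl
  have hπs : Function.Surjective π := by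
    intro c
    obtain ⟨r, rfl⟩ := Ideal.Quotient.mk_surjective c
    exact ⟨Ideal.Quotient.mk J r, rfl⟩
  have hπk : LinearMap.ker π = W := by
    ext c
    obtain ⟨r, rfl⟩ := Ideal.Quotient.mk_surjective c
    rw [LinearMap.mem_ker, hπ, hW, Ideal.Quotient.eq_zero_iff_mem]
  have h3 : (W.mapQ W (Algebra.lmul k (R ⧸ J) (Ideal.Quotient.mk J u)) he).det =
      Algebra.norm k (Ideal.Quotient.mk I u) := by
    rw [Algebra.norm_apply]
    apply DetMul_conj _ _ ((Submodule.quotEquivOfEq W (LinearMap.ker π) hπk.symm).trans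
      (π.quotKerEquivOfSurjective hπs))
    intro c
    obtain ⟨c, rfl⟩ := Submodule.Quotient.mk_surjective _ c
    obtain ⟨r, rfl⟩ := Ideal.Quotient.mk_surjective c
    change π (Ideal.Quotient.mk J u * Ideal.Quotient.mk J r) =
      Ideal.Quotient.mk I u * π (Ideal.Quotient.mk J r)
    rw [← map_mul, hπ, hπ, ← map_mul]
  rw [h1, h2, h3]

theorem norm_mul_prime {k R : Type} [Field k] [CommRing R] [IsDedekindDomain R] [Algebra k R]
    (hfin : ∀ I : Ideal R, I ≠ ⊥ → FiniteDimensional k (R ⧸ I)) (P I : Ideal R) (hP : P.IsMaximal)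
    (hP0 : P ≠ ⊥) (hI : I ≠ ⊥) (u : R) :
    Algebra.norm k (Ideal.Quotient.mk (P * I) u) =
      Algebra.norm k (Ideal.Quotient.mk P u) * Algebra.norm k (Ideal.Quotient.mk I u) := by
  have hJ0 : P * I ≠ ⊥ := mul_ne_zero hP0 hI
  have hle : P * I ≤ I := Ideal.mul_le_right
  have hne : ¬ I ≤ P * I := by
    intro h
    have h1 : P * I = 1 * I := by rw [one_mul]; exact le_antisymm hle h
    have h2 : P = 1 := mul_right_cancel₀ hI h1
    exact hP.ne_top (by rw [h2]; exact Ideal.one_eq_top)
  obtain ⟨x, hxI, hxJ⟩ := Set.not_subset.1 hne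
  -- the ideal generated
  have hspan : Ideal.span {x} ⊔ P * I = I := by
    have hle2 : Ideal.span {x} ⊔ P * I ≤ I :=
      sup_le ((Ideal.span_singleton_le_iff_mem I).2 hxI) hle
    obtain ⟨L, hL⟩ := Ideal.dvd_iff_le.2 hle2
    have hPL : P ≤ L := by
      rw [← Ideal.dvd_iff_le]
      have h3 : Ideal.span {x} ⊔ P * I ∣ P * I := Ideal.dvd_iff_le.2 le_sup_right
      rw [hL, mul_comm P I] at h3
      exact (mul_dvd_mul_iff_left hI).1 h3
    have hLP : L ≠ P := by
      rintro rfl
      apply hxJ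
      have : x ∈ Ideal.span {x} ⊔ L * I := Ideal.mem_sup_left (Ideal.mem_span_singleton_self x)
      rw [hL, mul_comm] at this
      exact this
    have hLt : L = ⊤ := by
      by_contra h
      exact hLP (hP.eq_of_le h hPL).symm
    rw [hL, hLt]
    exact Ideal.mul_top I
  have hgen : ∀ y ∈ I, ∃ r : R, y - r * x ∈ P * I := by
    intro y hy
    rw [← hspan, Ideal.mem_span_singleton_sup] at hy
    obtain ⟨r, b, hb, hrb⟩ := hy
    refine ⟨r, ?_⟩
    rw [← hrb]
    simpa using hb
  have hker : ∀ r : R, r * x ∈ P * I ↔ r ∈ P := by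
    let K : Ideal R :=
      { carrier := {r | r * x ∈ P * I}
        add_mem' := by
          intro a b ha hb
          simp only [Set.mem_ofPred_eq] at ha hb ⊢
          rw [add_mul]
          exact add_mem ha hb
        zero_mem' := by simp
        smul_mem' := by
          intro c a ha
          simp only [Set.mem_ofPred_eq, smul_eq_mul] at ha ⊢
          rw [mul_assoc]
          exact Ideal.mul_mem_left _ _ ha }
    have hPK : P ≤ K := fun r hr => Ideal.mul_mem_mul hr hxI
    have hK : K ≠ ⊤ := by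
      intro h
      have h1 : (1 : R) ∈ K := by rw [h]; trivial
      apply hxJ
      have h2 : (1 : R) * x ∈ P * I := h1
      rwa [one_mul] at h2
    have hPK2 : P = K := hP.eq_of_le hK hPK
    intro r
    have h3 : r ∈ K ↔ r * x ∈ P * I := Iff.rfl
    rw [← h3, ← hPK2]
  exact DetMul_aux P I (P * I) (hfin _ hJ0) hle x hxI hgen hker u

theorem norm_quot {k R : Type} [Field k] [CommRing R] [IsDedekindDomain R] [Algebra k R]
    (hfin : ∀ I : Ideal R, I ≠ ⊥ → FiniteDimensional k (R ⧸ I)) (I : Ideal R) (hI : I ≠ ⊥) (u : R) :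
    Algebra.norm k (Ideal.Quotient.mk I u) =
      ((normalizedFactors I).map fun P => Algebra.norm k (Ideal.Quotient.mk P u)).prod := by
  induction I using UniqueFactorizationMonoid.induction_on_prime with
  | h₁ => exact absurd rfl hI
  | h₂ J hJ =>
    have hJ1 : J = ⊤ := Ideal.isUnit_iff.1 hJ
    subst hJ1
    have h1 : normalizedFactors (⊤ : Ideal R) = 0 := by
      rw [← Ideal.one_eq_top, normalizedFactors_one]
    rw [h1, Multiset.map_zero, Multiset.prod_zero]
    have : Subsingleton (R ⧸ (⊤ : Ideal R)) := Ideal.Quotient.subsingleton_iff.2 rfl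
    rw [Algebra.norm_apply]
    exact LinearMap.det_eq_one_of_subsingleton _
  | h₃ J P hJ hP ih =>
    have hPm : P.IsMaximal := (Ideal.isPrime_of_prime hP).isMaximal hP.ne_zero
    rw [norm_mul_prime hfin P J hPm hP.ne_zero hJ u, ih hJ,
      normalizedFactors_mul hP.ne_zero hJ, normalizedFactors_irreducible hP.irreducible,
      Multiset.map_add, Multiset.prod_add]
    simp

end Pool.Agent.GBR
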