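import Pool.Agent.Lib.GBR.Def

/-!
Module DetNorm. `R` free of finite rank over `k[X]`. (1) The quotients of `R` by nonzero ideals are finite
dimensional over `k`. (2) The determinant over `k` of the multiplication by `u` on `R ⧸ (X)` is the value
at `0` of the norm of `u` over `k[X]`.

Proof. (1) `Mathlib.LinearAlgebra.FreeModule.Norm` and `IdealQuotient`: `Ideal.quotientEquivDirectSum`
(or `Ideal.quotientEquivPiSpan`, restrict scalars to `k`) and the instance that `k[X] ⧸ span {smithCoeffs}` is
finite dimensional; `Module.Free.chooseBasis k[X] R`.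
(2) Let `b` be a basis of `R` over `k[X]`, `M = Algebra.leftMulMatrix b u`, `norm u = det M`
(`Algebra.norm_eq_matrix_det`). The classes of the `b i` are a `k`-basis of `R ⧸ (X)`: span: the
coefficients `p_i` of `r` can be replaced by the constants `p_i (0)` modulo `X`; independent: if
`∑ c_i b_i = X r`, compare coordinates: `c_i = X r_i`, evaluate at `0`. In this basis the matrix of the
multiplication by `u` is `M.map (eval 0)`; `RingHom.map_det`.
-/

set_option autoImplicit false

open Polynomial UniqueFactorizationMonoid

namespace Pool.Agent.GBR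

variable {k R : Type} [Field k] [CommRing R] [IsDomain R] [Algebra k R] [Algebra k[X] R]
  [IsScalarTower k k[X] R] [Module.Free k[X] R] [Module.Finite k[X] R]

theorem finite_quot (I : Ideal R) (hI : I ≠ ⊥) : FiniteDimensional k (R ⧸ I) := by
  classical
  let b := Module.Free.chooseBasis k[X] R
  have : ∀ i, Module.Finite k (k[X] ⧸ Ideal.span ({I.smithCoeffs b hI i} : Set k[X])) :=
    fun i => inferInstance
  exact Module.Finite.equiv (Ideal.quotientEquivDirectSum k b hI).symm

omit [IsDomain R] [Module.Free k[X] R] [Module.Finite k[X] R] in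
private theorem DetNorm_key (p : k[X]) (r : R) :
    Ideal.Quotient.mk (Ideal.span {algebraMap k[X] R X}) (p • r) =
      (p.eval 0) • Ideal.Quotient.mk (Ideal.span {algebraMap k[X] R X}) r := by
  have h1 : (p.eval 0) • Ideal.Quotient.mk (Ideal.span {algebraMap k[X] R X}) r =
      Ideal.Quotient.mk (Ideal.span {algebraMap k[X] R X}) (algebraMap k R (p.eval 0) * r) := by
    rw [Algebra.smul_def, map_mul]
    rfl
  rw [h1, Ideal.Quotient.eq, Ideal.mem_span_singleton]
  refine ⟨algebraMap k[X] R p.divX * r, ?_⟩
  have h2 : algebraMap k[X] R p =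
      algebraMap k[X] R p.divX * algebraMap k[X] R X + algebraMap k R (p.eval 0) := by
    conv_lhs => rw [← Polynomial.divX_mul_X_add p]
    rw [map_add, map_mul, IsScalarTower.algebraMap_apply k k[X] R, Polynomial.algebraMap_eq,
      Polynomial.coeff_zero_eq_eval_zero]
  rw [Algebra.smul_def, h2]
  ring

theorem norm_mod_X (u : R) :
    Algebra.norm k (Ideal.Quotient.mk (Ideal.span {algebraMap k[X] R X}) u) =
      (Algebra.norm k[X] u).eval 0 := by
  classical
  let b := Module.Free.chooseBasis k[X] R
  let v : Module.Free.ChooseBasisIndex k[X] R → R ⧸ Ideal.span {algebraMap k[X] R X} :=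
    fun i => Ideal.Quotient.mk (Ideal.span {algebraMap k[X] R X}) (b i)
  have hmk : ∀ r : R, Ideal.Quotient.mk (Ideal.span {algebraMap k[X] R X}) r =
      ∑ i, (b.repr r i).eval 0 • v i := by
    intro r
    conv_lhs => rw [← b.sum_repr r]
    rw [map_sum]
    exact Finset.sum_congr rfl fun i _ => DetNorm_key _ _
  have hli : LinearIndependent k v := by
    rw [Fintype.linearIndependent_iff]
    intro g hg i
    have h1 : Ideal.Quotient.mk (Ideal.span {algebraMap k[X] R X}) (∑ i, (C (g i)) • b i) = 0 := by
      rw [map_sum, ← hg]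
      refine Finset.sum_congr rfl fun i _ => ?_
      rw [DetNorm_key, eval_C]
    rw [Ideal.Quotient.eq_zero_iff_mem, Ideal.mem_span_singleton] at h1
    obtain ⟨r, hr⟩ := h1
    have h2 := congrArg (fun z => b.repr z i) hr
    simp only [← Algebra.smul_def] at h2
    rw [map_smul, b.repr_sum_self] at h2
    have h3 := congrArg (eval 0) h2
    simpa using h3
  have hsp : ⊤ ≤ Submodule.span k (Set.range v) := by
    rintro x -
    obtain ⟨r, rfl⟩ := Ideal.Quotient.mk_surjective x
    rw [hmk r]
    apply Submodule.sum_mem
    intro i _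
    exact Submodule.smul_mem _ _ (Submodule.subset_span ⟨i, rfl⟩)
  let c := Module.Basis.mk hli hsp
  have hc : ∀ i, c i = v i := fun i => Module.Basis.mk_apply hli hsp i
  rw [Algebra.norm_eq_matrix_det c, Algebra.norm_eq_matrix_det b]
  have hM : Algebra.leftMulMatrix c (Ideal.Quotient.mk (Ideal.span {algebraMap k[X] R X}) u) =
      (Polynomial.evalRingHom (0 : k)).mapMatrix (Algebra.leftMulMatrix b u) := by
    ext i j
    rw [Algebra.leftMulMatrix_eq_repr_mul, RingHom.mapMatrix_apply, Matrix.map_apply,
      Algebra.leftMulMatrix_eq_repr_mul, hc j, Polynomial.coe_evalRingHom]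
    have h1 : Ideal.Quotient.mk (Ideal.span {algebraMap k[X] R X}) u * v j =
        ∑ i, (b.repr (u * b j) i).eval 0 • c i := by
      rw [← map_mul, hmk]
      exact Finset.sum_congr rfl fun i _ => by rw [hc]
    rw [h1, c.repr_sum_self]
  rw [hM, ← RingHom.map_det, Polynomial.coe_evalRingHom]

end Pool.Agent.GBR
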