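import Pool.Agent.Lib.GBR.Def
import Pool.Agent.Lib.GBR.DetNorm

/-!
Module DetX. `R` free of finite rank over `k[X]`, `u ∈ R` nonzero, `F` the norm of `u` over `k[X]`. The
determinant over `k` of the multiplication by `X` on `R ⧸ (u)` is `(-1) ^ deg F * F (0) / lc (F)`.

Proof. `b := Module.Free.chooseBasis k[X] R`, `d i := smithCoeffs b _ _ i` (nonzero,
`Ideal.smithCoeffs_ne_zero`). `Ideal.quotientEquivPiSpan : (R ⧸ (u)) ≃ₗ[k[X]] ∀ i, k[X] ⧸ (d i)` carries the
multiplication by the class of `X`, which is the action of the scalar `X`, to the action of `X` on the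
product. `LinearMap.det_conj`; the determinant of a product map is the product (`LinearMap.det_pi`).
For `d ≠ 0` the determinant of `X` on `k[X] ⧸ (d)` is `(-1) ^ deg d * d (0) / lc (d)`: replace `d` by the
monic `d * C (lc d)⁻¹` (same ideal); it is `Algebra.norm k (AdjoinRoot.root d)`,
`AdjoinRoot.powerBasis'`, `PowerBasis.norm_gen_eq_coeff_zero_minpoly`,
`AdjoinRoot.minpoly_powerBasis_gen_of_monic`. Finally `F` is associated to `∏ d i`
(`associated_norm_prod_smith`): `F = c ∏ d i`, `c` a nonzero constant, so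
`F (0) / lc (F) = ∏ d i (0) / lc (d i)` and `deg F = ∑ deg (d i)`.
-/

set_option autoImplicit false

open Polynomial UniqueFactorizationMonoid

namespace Pool.Agent.GBR

private theorem DetX_det_block {k : Type} [Field k] {n : ℕ} {m : Fin n → Type}
    [∀ i, Fintype (m i)] [∀ i, DecidableEq (m i)] (d : ∀ i, Matrix (m i) (m i) k) :
    (Matrix.blockDiagonal' d).det = ∏ i, (d i).det := by
  rw [(Matrix.blockTriangular_blockDiagonal' d).det_fintype]
  refine Finset.prod_congr rfl fun i _ => ?_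
  rw [← Matrix.det_submatrix_equiv_self (Equiv.sigmaSubtype i) (d i)]
  congr 1
  ext ⟨⟨a, x⟩, ha⟩ ⟨⟨b, y⟩, hb⟩
  change a = i at ha
  change b = i at hb
  subst ha
  subst hb
  simp [Matrix.toSquareBlock_def, Matrix.blockDiagonal'_apply, Equiv.sigmaSubtype]

private theorem DetX_det_pi {k : Type} [Field k] {n : ℕ} (M : Fin n → Type)
    [∀ i, AddCommGroup (M i)] [∀ i, Module k (M i)] [∀ i, FiniteDimensional k (M i)]
    (f : ∀ i, M i →ₗ[k] M i) :
    LinearMap.det (LinearMap.pi (fun i => (f i).comp (LinearMap.proj i))) =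
      ∏ i, LinearMap.det (f i) := by
  let b := fun i => Module.finBasis k (M i)
  rw [← LinearMap.det_toMatrix (Pi.basis b)]
  simp_rw [← LinearMap.det_toMatrix (b _)]
  rw [← DetX_det_block]
  congr 1
  ext ⟨i, x⟩ ⟨j, y⟩
  rw [LinearMap.toMatrix_apply, Matrix.blockDiagonal'_apply, Pi.basis_repr, Pi.basis_apply]
  rcases eq_or_ne i j with rfl | hij
  · simp [LinearMap.toMatrix_apply]
  · rw [dif_neg hij]
    simp [Pi.single_eq_of_ne hij]

/-- the cyclic case -/
theorem det_X_cyclic {k : Type} [Field k] (d : k[X]) (hd : d ≠ 0) :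
    LinearMap.det ((LinearMap.lsmul k[X] (k[X] ⧸ Ideal.span {d}) X).restrictScalars k) *
      d.leadingCoeff = (-1) ^ d.natDegree * d.eval 0 := by
  have h1 : LinearMap.det ((LinearMap.lsmul k[X] (k[X] ⧸ Ideal.span {d}) X).restrictScalars k) =
      Algebra.norm k (AdjoinRoot.root d) := by
    rw [Algebra.norm_apply]
    rfl
  have h2 := Algebra.PowerBasis.norm_gen_eq_coeff_zero_minpoly (AdjoinRoot.powerBasis hd)
  rw [AdjoinRoot.minpoly_powerBasis_gen, AdjoinRoot.powerBasis_gen, AdjoinRoot.powerBasis_dim,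
    mul_coeff_zero, coeff_C_zero, coeff_zero_eq_eval_zero] at h2
  have h3 : d.leadingCoeff ≠ 0 := leadingCoeff_ne_zero.mpr hd
  rw [h1, h2]
  field_simp

variable {k R : Type} [Field k] [CommRing R] [IsDomain R] [Algebra k R] [Algebra k[X] R]
  [IsScalarTower k k[X] R] [Module.Free k[X] R] [Module.Finite k[X] R]

omit [IsDomain R] [IsScalarTower k k[X] R] [Module.Free k[X] R] [Module.Finite k[X] R] in
private theorem DetX_smul (I : Ideal R) (y : R ⧸ I) :
    Algebra.lmul k (R ⧸ I) (Ideal.Quotient.mk I (algebraMap k[X] R X)) y = (X : k[X]) • y := by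
  obtain ⟨r, rfl⟩ := Ideal.Quotient.mk_surjective y
  change Ideal.Quotient.mk I (algebraMap k[X] R X) * Ideal.Quotient.mk I r = _
  rw [← map_mul, ← Algebra.smul_def]
  rfl

omit [IsDomain R] [Module.Free k[X] R] [Module.Finite k[X] R] in
private theorem DetX_conj {n : ℕ} (I : Ideal R) (d : Fin n → k[X])
    (e : (R ⧸ I) ≃ₗ[k[X]] ∀ i, k[X] ⧸ Ideal.span {d i}) :
    Algebra.norm k (Ideal.Quotient.mk I (algebraMap k[X] R X)) =
      LinearMap.det (LinearMap.pi (fun i =>
        ((LinearMap.lsmul k[X] (k[X] ⧸ Ideal.span {d i}) X).restrictScalars k).comp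
          (LinearMap.proj (R := k) (φ := fun i => k[X] ⧸ Ideal.span {d i}) i))) := by
  rw [Algebra.norm_apply, ← LinearMap.det_conj _ (e.restrictScalars k)]
  congr 1
  refine LinearMap.ext fun x => ?_
  funext i
  rw [LinearMap.comp_apply, LinearMap.comp_apply, DetX_smul]
  change e ((X : k[X]) • e.symm x) i = (X : k[X]) • x i
  rw [map_smul, LinearEquiv.apply_symm_apply]
  rfl

theorem norm_X (u : R) (hu : u ≠ 0) :
    Algebra.norm k (Ideal.Quotient.mk (Ideal.span {u}) (algebraMap k[X] R X)) *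
      (Algebra.norm k[X] u).leadingCoeff =
        (-1) ^ (Algebra.norm k[X] u).natDegree * (Algebra.norm k[X] u).eval 0 := by
  have hI : Ideal.span {u} ≠ ⊥ := by
    rw [Ne, Ideal.span_singleton_eq_bot]
    exact hu
  obtain ⟨d, hd, h0, ⟨e⟩⟩ : ∃ d : Fin (Module.finrank k[X] R) → k[X], (∀ i, d i ≠ 0) ∧
      Associated (Algebra.norm k[X] u) (∏ i, d i) ∧
      Nonempty ((R ⧸ Ideal.span {u}) ≃ₗ[k[X]] ∀ i, k[X] ⧸ Ideal.span {d i}) :=
    ⟨fun i => Ideal.smithCoeffs (Module.finBasis k[X] R) (Ideal.span {u}) hI i,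
      fun i => Ideal.smithCoeffs_ne_zero _ _ hI i, associated_norm_prod_smith _ hu,
      ⟨Ideal.quotientEquivPiSpan (Ideal.span {u}) (Module.finBasis k[X] R) hI⟩⟩
  have hfd : ∀ i, FiniteDimensional k (k[X] ⧸ Ideal.span {d i}) := fun i =>
    PowerBasis.finite (AdjoinRoot.powerBasis (hd i))
  rw [DetX_conj _ d e, DetX_det_pi]
  obtain ⟨w, hw⟩ := h0.symm
  obtain ⟨c, hc, hcw⟩ := Polynomial.isUnit_iff.mp w.isUnit
  have hF : Algebra.norm k[X] u = (∏ i, d i) * C c := by
    rw [← hw, hcw]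
  have hc0 : c ≠ 0 := hc.ne_zero
  have hP : (∏ i, d i) ≠ 0 := Finset.prod_ne_zero_iff.mpr fun i _ => hd i
  rw [hF, leadingCoeff_mul, leadingCoeff_C, natDegree_mul hP (C_ne_zero.mpr hc0), natDegree_C,
    add_zero, eval_mul, eval_C, leadingCoeff_prod, natDegree_prod _ _ fun i _ => hd i, eval_prod,
    ← Finset.prod_pow_eq_pow_sum, ← mul_assoc, ← mul_assoc, ← Finset.prod_mul_distrib,
    ← Finset.prod_mul_distrib]
  congr 1
  exact Finset.prod_congr rfl fun i _ => det_X_cyclic (d i) (hd i)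

end Pool.Agent.GBR
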