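import Pool.Agent.Lib.GBR.Def

/-!
Module Plc. Places of `K` and prime ideals of a Dedekind ring with field of fractions `K`.

Proofs. `mem_plc`: `HeightOneSpectrum.valuation_le_one`. `plc_lt`: `HeightOneSpectrum.valuation_lt_one_iff_mem`
and `Valuation.isEquiv_valuation_valuationSubring`. `exists_plc`: let `v` contain `R`; the prime
`P = comap (maximal ideal of v.ring)` is not zero: otherwise every nonzero element of `R` is a unit of
`v.ring`, so `K = Frac R ⊆ v.ring`, and `v.ring` is not a field. For `x ∈ (plc P).ring`, that is `v_P (x) ≤ 1`: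
`x = a / s` with `a ∈ R`, `s ∈ R \ P` (Dedekind: choose by `IsDedekindDomain` approximation, or:
the localization `R_P ⊆ K` is a discrete valuation ring with this valuation; or
`HeightOneSpectrum.exists_...`), so `x ∈ v.ring`: `(plc P).ring ≤ v.ring`. A discrete valuation ring is a
maximal subring: if `x ∈ v.ring \ (plc P).ring` then `x⁻¹` is in the maximal ideal of `(plc P).ring`, take a
uniformizer `π` of `plc P` in `R` (`exists_uniformizer`), `π^n x` is a unit of `(plc P).ring` for some
`n ≥ 1`, so `1/π ∈ v.ring`, but `π ∈ P` is in the maximal ideal of `v`. So they are equal,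
`Place.ext'` (Lib/MP_48b749_nt/Places.lean).
`Rb_le`: `v.ring` is integrally closed in `K` and contains `k[b]`.
-/

set_option autoImplicit false

open Polynomial UniqueFactorizationMonoid IsDedekindDomain

namespace Pool.Agent.GBR

open BSDFF

section

variable {k R K : Type} [Field k] [CommRing R] [IsDedekindDomain R] [Field K]
  [Algebra R K] [IsFractionRing R K] [Algebra k R] [Algebra k K] [IsScalarTower k R K]

theorem mem_plc (P : HeightOneSpectrum R) (r : R) : algebraMap R K r ∈ (plc k K P).ring :=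
  (Valuation.mem_valuationSubring_iff _ _).2 (HeightOneSpectrum.valuation_le_one P r)

theorem plc_lt (P : HeightOneSpectrum R) (r : R) :
    (plc k K P).ring.valuation (algebraMap R K r) < 1 ↔ r ∈ P.asIdeal := by
  have h := Valuation.isEquiv_valuation_valuationSubring (P.valuation K)
  rw [← HeightOneSpectrum.valuation_lt_one_iff_mem (K := K) P r]
  exact (Valuation.isEquiv_iff_val_lt_one.1 h).symm

theorem plc_eq_one (P : HeightOneSpectrum R) (r : R) :
    (plc k K P).ring.valuation (algebraMap R K r) = 1 ↔ r ∉ P.asIdeal := by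
  have h := Valuation.isEquiv_valuation_valuationSubring (P.valuation K)
  rw [← HeightOneSpectrum.valuation_eq_one_iff_notMem (K := K)]
  exact (Valuation.isEquiv_iff_val_eq_one.1 h).symm

theorem exists_plc (v : Place k K) (hv : ∀ r : R, algebraMap R K r ∈ v.ring) :
    ∃ P : HeightOneSpectrum R, v = plc k K P := by
  have hm : ∀ r : R, algebraMap R K r ∈ v.ring.toSubring := hv
  obtain ⟨θ, hθ⟩ : ∃ θ : R →+* v.ring, ∀ r, (θ r : K) = algebraMap R K r :=
    ⟨(algebraMap R K).codRestrict v.ring.toSubring hm, fun r => rfl⟩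
  obtain ⟨I, hI⟩ : ∃ I : Ideal R, I = Ideal.comap θ (IsLocalRing.maximalIdeal v.ring) := ⟨_, rfl⟩
  have hIp : I.IsPrime := by
    rw [hI]
    exact Ideal.IsPrime.comap θ
  have hinv : ∀ s : R, s ∉ I → (algebraMap R K s)⁻¹ ∈ v.ring := by
    intro s hs
    rw [hI, Ideal.mem_comap, IsLocalRing.mem_maximalIdeal, mem_nonunits_iff, not_not] at hs
    obtain ⟨u, hu⟩ := hs
    have h1 : (u : v.ring) * ((u⁻¹ : v.ringˣ) : v.ring) = 1 := u.mul_inv
    rw [hu] at h1
    have h2 : algebraMap R K s * (((u⁻¹ : v.ringˣ) : v.ring) : K) = 1 := by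
      rw [← hθ s]
      exact congrArg Subtype.val h1
    rw [inv_eq_of_mul_eq_one_right h2]
    exact ((u⁻¹ : v.ringˣ) : v.ring).2
  have hI0 : I ≠ ⊥ := by
    intro h0
    obtain ⟨ϖ, hϖ⟩ := IsDiscreteValuationRing.exists_irreducible v.ring
    have h1 : ∀ x : K, x ∈ v.ring := by
      intro x
      obtain ⟨a, s, hs, rfl⟩ := IsFractionRing.div_surjective (A := R) x
      rw [div_eq_mul_inv]
      refine mul_mem (hv a) (hinv s ?_)
      rw [h0, Ideal.mem_bot]
      exact nonZeroDivisors.ne_zero hs
    apply hϖ.not_isUnit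
    have h2 : (ϖ : K) ≠ 0 := fun h => hϖ.ne_zero (Subtype.ext h)
    exact IsUnit.of_mul_eq_one ⟨(ϖ : K)⁻¹, h1 _⟩ (Subtype.ext (mul_inv_cancel₀ h2))
  refine ⟨⟨I, hIp, hI0⟩, ?_⟩
  obtain ⟨P, hP⟩ : ∃ P : HeightOneSpectrum R, P = ⟨I, hIp, hI0⟩ := ⟨_, rfl⟩
  have hPI : P.asIdeal = I := by rw [hP]
  rw [← hP]
  apply Place.ext'
  have hle : (P.valuation K).valuationSubring ≤ v.ring := by
    intro x hx
    obtain ⟨n, d, hnd⟩ := P.exists_primeCompl_mul_eq_of_integer x
      ((Valuation.mem_valuationSubring_iff _ _).1 hx)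
    have hd : (d : R) ∉ I := by
      rw [← hPI]
      exact d.2
    have hd0 : algebraMap R K d ≠ 0 := by
      intro h
      apply hd
      rw [(IsFractionRing.injective R K) (h.trans (map_zero _).symm)]
      exact I.zero_mem
    rw [(eq_mul_inv_iff_mul_eq₀ hd0).2 hnd]
    exact mul_mem (hv n) (hinv d hd)
  have hne : v.ring ≠ ⊤ := by
    intro h
    obtain ⟨ϖ, hϖ⟩ := IsDiscreteValuationRing.exists_irreducible v.ring
    apply hϖ.not_isUnit
    have h2 : (ϖ : K) ≠ 0 := fun h => hϖ.ne_zero (Subtype.ext h)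
    have h3 : ∀ x : K, x ∈ v.ring := fun x => by
      rw [h]
      exact ValuationSubring.mem_top _
    exact IsUnit.of_mul_eq_one ⟨(ϖ : K)⁻¹, h3 _⟩ (Subtype.ext (mul_inv_cancel₀ h2))
  have h4 := P.valuationSubringAtPrime_eq_valuationSubring (K := K)
  have h5 : P.valuationSubringAtPrime K = v.ring :=
    ValuationSubring.eq_of_le_of_ne_top _ (h4.le.trans hle) hne
  exact h5.symm.trans h4

end

section

variable {k K : Type} [Field k] [Field K] [Algebra k K]

theorem Rb_le (v : Place k K) {b : K} (hb : b ∈ v.ring) (r : Rb k b) :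
    algebraMap (Rb k b) K r ∈ v.ring := by
  let S : Subalgebra k K := { v.ring.toSubring with algebraMap_mem' := v.const_mem }
  have hS : Algebra.adjoin k {b} ≤ S := Algebra.adjoin_le (by
    intro x hx
    rw [Set.mem_singleton_iff.1 hx]
    exact hb)
  have hm : ∀ x : Algebra.adjoin k {b},
      algebraMap (Algebra.adjoin k {b}) K x ∈ v.ring.toSubring := fun x => hS x.2
  have h1 : IsIntegral (Algebra.adjoin k {b}) (r : K) := r.2
  have h2 : IsIntegral v.ring (RingHom.id K (r : K)) :=
    h1.map_of_comp_eq ((algebraMap (Algebra.adjoin k {b}) K).codRestrict v.ring.toSubring hm)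
      (RingHom.id K) rfl
  obtain ⟨y, hy⟩ := IsIntegrallyClosed.isIntegral_iff.1 h2
  have h3 : (y : K) = (r : K) := hy
  show (r : K) ∈ v.ring
  rw [← h3]
  exact y.2

end

end Pool.Agent.GBR
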