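import Pool.Agent.Lib.GBR.Chart
import Pool.Agent.Lib.GBR.Plc

/-!
Module Int. If `a` is a unit at every place at which `b` is not a unit, there are `a₁ ∈ Rb k b`, prime to
`b`, and `w ∈ Rb k b` with `a₁ = a w²`; the same for `b⁻¹` (apply it to `b⁻¹`).

Proof. `R = Rb k b`. `J = {w ∈ R | w a ∈ R}` is a nonzero ideal. It is not contained in a prime `P`
which contains `gen k b`: such a `P` gives a place `plc P` at which `b` is not a unit (`plc_lt`), so `a` is a
unit there; `a = u / w'` with ... : an element with `v_P (a) ≤ 1` is of the form `u / w'`, `w' ∉ P`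
(`HeightOneSpectrum` localization lemma, see the proof of `exists_plc`), so `w' ∈ J \ P`. So `J` and
`(gen)` are coprime ideals (a maximal ideal containing both is a nonzero prime, `b` is not zero), `J ⊔ (gen) = ⊤`:
`w + r gen = 1`, `w ∈ J`: `w` is prime to `gen`. `u := w a ∈ R` is prime to `gen` too: a prime `P` containing
`u` and `gen`: `v_P (u) = v_P (w) v_P (a) = 1`. Take `a₁ = u w = a w²` (`IsCoprime.mul_left`).
-/

set_option autoImplicit false

open Polynomial

namespace Pool.Agent.GBR

open BSDFF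

open IsDedekindDomain

/-- An element `x / y` with `v_P ≤ 1` has a denominator outside `P`. -/
private theorem Int_denom {R K : Type} [CommRing R] [IsDedekindDomain R] [Field K]
    [Algebra R K] [IsFractionRing R K] (P : HeightOneSpectrum R) (x y : R) (hy : y ≠ 0)
    (hv : P.valuation K (algebraMap R K x) ≤ P.valuation K (algebraMap R K y)) :
    ∃ w : R, w ∉ P.asIdeal ∧ w * x ∈ Ideal.span {y} := by
  have hy0 : (Ideal.span {y} : Ideal R) ≠ 0 := by
    rw [Ne, Ideal.zero_eq_bot, Ideal.span_singleton_eq_bot]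
    exact hy
  have hfm : FiniteMultiplicity P.asIdeal (Ideal.span {y}) := by
    apply FiniteMultiplicity.of_not_isUnit _ hy0
    rw [Ideal.isUnit_iff]
    exact P.isPrime.ne_top
  obtain ⟨I, hI, hPI⟩ := hfm.exists_eq_pow_mul_and_not_dvd
  set n := multiplicity P.asIdeal (Ideal.span {y}) with hn
  rw [Ideal.dvd_iff_le] at hPI
  obtain ⟨w, hwI, hwP⟩ := SetLike.not_le_iff_exists.mp hPI
  refine ⟨w, hwP, ?_⟩
  have h1 : P.intValuation y ≤ WithZero.exp (-(n : ℤ)) := by
    rw [HeightOneSpectrum.intValuation_le_pow_iff_dvd]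
    exact Dvd.intro _ hI.symm
  have h2 : P.intValuation x ≤ WithZero.exp (-(n : ℤ)) := by
    rw [HeightOneSpectrum.valuation_of_algebraMap, HeightOneSpectrum.valuation_of_algebraMap] at hv
    exact hv.trans h1
  rw [HeightOneSpectrum.intValuation_le_pow_iff_mem] at h2
  rw [hI, mul_comm w x]
  exact Ideal.mul_mem_mul h2 hwI

variable {k K : Type} [Field k] [Field K] [Algebra k K]

theorem exists_int {b : K} [Fact (SepB k b)] (a : K) (ha : a ≠ 0)
    (h : ∀ v : Place k K, v.ring.valuation b < 1 → v.ring.valuation a = 1) :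
    ∃ (a₁ : Rb k b) (w : K), a₁ ≠ 0 ∧ w ≠ 0 ∧ (a₁ : K) = a * w ^ 2 ∧ IsCoprime a₁ (gen k b) := by
  classical
  have hinj : Function.Injective (algebraMap (Rb k b) K) := IsFractionRing.injective _ _
  have hcoe : ∀ r : Rb k b, algebraMap (Rb k b) K r = (r : K) := fun r => rfl
  have hg0 : gen k b ≠ 0 := by
    intro h0
    have h1 : b = 0 := congrArg Subtype.val h0
    have h2 := (Fact.out : SepB k b).tr
    rw [h1] at h2
    exact h2 isAlgebraic_zero
  obtain ⟨x, y, hy, hxy⟩ := IsFractionRing.div_surjective (A := Rb k b) a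
  have hy0 : y ≠ 0 := nonZeroDivisors.ne_zero hy
  have hyK : algebraMap (Rb k b) K y ≠ 0 := by
    rw [Ne, IsFractionRing.to_map_eq_zero_iff]
    exact hy0
  have hx0 : x ≠ 0 := by
    rintro rfl
    rw [map_zero, zero_div] at hxy
    exact ha hxy.symm
  -- the places given by primes containing `gen`
  have hplace : ∀ P : HeightOneSpectrum (Rb k b), gen k b ∈ P.asIdeal →
      (plc k K P).ring.valuation a = 1 := by
    intro P hP
    apply h
    have := (plc_lt (k := k) (K := K) P (gen k b)).2 hP
    exact this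
  have hprime : ∀ M : Ideal (Rb k b), M.IsMaximal → gen k b ∈ M →
      ∃ P : HeightOneSpectrum (Rb k b), P.asIdeal = M := by
    intro M hM hgM
    refine ⟨⟨M, hM.isPrime, ?_⟩, rfl⟩
    rintro rfl
    exact hg0 ((Submodule.mem_bot _).1 hgM)
  let J : Ideal (Rb k b) := Submodule.comap (LinearMap.mulRight (Rb k b) x) (Ideal.span {y})
  have hJ : ∀ w, w ∈ J ↔ w * x ∈ Ideal.span {y} := fun w => Iff.rfl
  have hsup : J ⊔ Ideal.span {gen k b} = ⊤ := by
    by_contra hne
    obtain ⟨M, hM, hle⟩ := Ideal.exists_le_maximal _ hne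
    have hgM : gen k b ∈ M := hle (Submodule.mem_sup_right (Ideal.mem_span_singleton_self _))
    obtain ⟨P, rfl⟩ := hprime M hM hgM
    have hva := hplace P hgM
    have hva' : P.valuation K a = 1 :=
      (Valuation.isEquiv_valuation_valuationSubring (P.valuation K)).eq_one_iff_eq_one.2 hva
    have hxyv : P.valuation K (algebraMap (Rb k b) K x) ≤
        P.valuation K (algebraMap (Rb k b) K y) := by
      have h1 : algebraMap (Rb k b) K x = a * algebraMap (Rb k b) K y := by
        rw [← hxy, div_mul_cancel₀ _ hyK]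
      rw [h1, map_mul, hva', one_mul]
    obtain ⟨w, hwP, hwx⟩ := Int_denom P x y hy0 hxyv
    exact hwP (hle (Submodule.mem_sup_left ((hJ w).2 hwx)))
  have h1 : (1 : Rb k b) ∈ J ⊔ Ideal.span {gen k b} := by rw [hsup]; trivial
  obtain ⟨w, hwJ, z, hz, hwz⟩ := Submodule.mem_sup.1 h1
  obtain ⟨r, rfl⟩ := Ideal.mem_span_singleton'.1 hz
  have hcw : IsCoprime w (gen k b) := ⟨1, r, by rw [one_mul]; exact hwz⟩
  by_cases hw0 : w = 0
  · rw [hw0] at hcw
    have hu : IsUnit (gen k b) := isCoprime_zero_left.1 hcw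
    refine ⟨x * y, (y : K), mul_ne_zero hx0 hy0, ?_, ?_, ?_⟩
    · exact hyK
    · rw [MulMemClass.coe_mul, ← hxy, hcoe, hcoe]
      have : (y : K) ≠ 0 := hyK
      field_simp
    · obtain ⟨g, hg⟩ := hu.exists_left_inv
      exact ⟨0, g, by rw [zero_mul, zero_add]; exact hg⟩
  · obtain ⟨c, hc⟩ := Ideal.mem_span_singleton'.1 ((hJ w).1 hwJ)
    -- `w * a = c`
    have hwa : (c : K) = (w : K) * a := by
      have h2 : (c : K) * (y : K) = (w : K) * (x : K) := by
        have := congrArg (algebraMap (Rb k b) K) hc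
        rw [map_mul, map_mul] at this
        exact this
      rw [← hxy, hcoe, hcoe]
      have : (y : K) ≠ 0 := hyK
      field_simp
      exact h2
    have hwK : (w : K) ≠ 0 := by
      have : algebraMap (Rb k b) K w ≠ 0 := by
        rw [Ne, IsFractionRing.to_map_eq_zero_iff]
        exact hw0
      exact this
    have hc0 : c ≠ 0 := by
      rintro rfl
      have : (w : K) * a = 0 := by rw [← hwa]; rfl
      exact (mul_ne_zero hwK ha) this
    have hcc : IsCoprime c (gen k b) := by
      rw [← Ideal.isCoprime_span_singleton_iff, Ideal.isCoprime_iff_sup_eq]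
      by_contra hne
      obtain ⟨M, hM, hle⟩ := Ideal.exists_le_maximal _ hne
      have hgM : gen k b ∈ M := hle (Submodule.mem_sup_right (Ideal.mem_span_singleton_self _))
      have hcM : c ∈ M := hle (Submodule.mem_sup_left (Ideal.mem_span_singleton_self _))
      obtain ⟨P, rfl⟩ := hprime M hM hgM
      have hwP : w ∉ P.asIdeal := by
        intro hw
        have : (1 : Rb k b) ∈ P.asIdeal := by
          rw [← hwz]
          exact P.asIdeal.add_mem hw (P.asIdeal.mul_mem_left _ hgM)
        exact P.isPrime.ne_top ((Ideal.eq_top_iff_one _).2 this)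
      have hv1 := (plc_eq_one (k := k) (K := K) P w).2 hwP
      have hv2 := hplace P hgM
      have hv3 := (plc_lt (k := k) (K := K) P c).2 hcM
      rw [hcoe] at hv1 hv3
      rw [hwa, map_mul, hv1, hv2, one_mul] at hv3
      exact lt_irrefl _ hv3
    refine ⟨c * w, (w : K), mul_ne_zero hc0 hw0, hwK, ?_, hcc.mul_left hcw⟩
    rw [MulMemClass.coe_mul, hwa]
    ring

end Pool.Agent.GBR
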