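import Pool.Agent.Lib.GBR.Def

/-!
Module Iso. `Iso2 v a b` does not change if `a` or `b` is multiplied by a nonzero square, if `b` is
multiplied by a nonzero norm `x² - a y²`, and if `a`, `b` are exchanged.

Proof. Exchange: exchange `y`, `z`. Squares: replace `y` by `y / s`. Norms: put `N = x² - a y²` (images in
the completion, not zero). From `X² = a Y² + b Z²`, that is `X² - a Y² = b Z²`:
`(X² - a Y²) (x² - a y²) = (X x + a Y y)² - a (X y + Y x)² = (b N) Z²`. The new solution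
`(X x + a Y y, X y + Y x, Z)` is nontrivial if `Z ≠ 0`. If `Z = 0` then `X² = a Y²`, `Y ≠ 0`, and
`(X, Y, 0)` is a solution of the new equation. For the converse apply this to `b N` and the norm
`(x / N)² - a (y / N)² = 1 / N`, `b N / N = b`.
-/

set_option autoImplicit false

namespace Pool.Agent.GBR

open BSDFF

private theorem Iso_norm_aux {F : Type} [Field F] (A B X Y : F) (hN : X ^ 2 - A * Y ^ 2 ≠ 0) :
    (∃ x y z : F, (x ≠ 0 ∨ y ≠ 0 ∨ z ≠ 0) ∧
      x ^ 2 = A * y ^ 2 + B * (X ^ 2 - A * Y ^ 2) * z ^ 2) ↔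
    ∃ x y z : F, (x ≠ 0 ∨ y ≠ 0 ∨ z ≠ 0) ∧ x ^ 2 = A * y ^ 2 + B * z ^ 2 := by
  constructor
  · rintro ⟨x, y, z, h0, h⟩
    by_cases hz : z = 0
    · refine ⟨x, y, z, h0, ?_⟩
      rw [h, hz]
      ring
    · refine ⟨x * X + A * y * Y, x * Y + y * X, (X ^ 2 - A * Y ^ 2) * z,
        Or.inr (Or.inr (mul_ne_zero hN hz)), ?_⟩
      have h1 : x ^ 2 - A * y ^ 2 = B * (X ^ 2 - A * Y ^ 2) * z ^ 2 := by rw [h]; ring
      have h2 : (x * X + A * y * Y) ^ 2 = A * (x * Y + y * X) ^ 2 +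
          (x ^ 2 - A * y ^ 2) * (X ^ 2 - A * Y ^ 2) := by ring
      rw [h2, h1]
      ring
  · rintro ⟨x, y, z, h0, h⟩
    by_cases hz : z = 0
    · refine ⟨x, y, z, h0, ?_⟩
      rw [h, hz]
      ring
    · refine ⟨x * X + A * y * Y, x * Y + y * X, z, Or.inr (Or.inr hz), ?_⟩
      have h1 : x ^ 2 - A * y ^ 2 = B * z ^ 2 := by rw [h]; ring
      have h2 : (x * X + A * y * Y) ^ 2 = A * (x * Y + y * X) ^ 2 +
          (x ^ 2 - A * y ^ 2) * (X ^ 2 - A * Y ^ 2) := by ring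
      rw [h2, h1]
      ring

private theorem Iso_sq_aux {F : Type} [Field F] (A B s : F) (hs : s ≠ 0) :
    (∃ x y z : F, (x ≠ 0 ∨ y ≠ 0 ∨ z ≠ 0) ∧ x ^ 2 = A * y ^ 2 + B * s ^ 2 * z ^ 2) ↔
    ∃ x y z : F, (x ≠ 0 ∨ y ≠ 0 ∨ z ≠ 0) ∧ x ^ 2 = A * y ^ 2 + B * z ^ 2 := by
  constructor
  · rintro ⟨x, y, z, h0, h⟩
    refine ⟨x, y, s * z, ?_, by rw [h]; ring⟩
    rcases h0 with h0 | h0 | h0
    · exact Or.inl h0
    · exact Or.inr (Or.inl h0)
    · exact Or.inr (Or.inr (mul_ne_zero hs h0))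
  · rintro ⟨x, y, z, h0, h⟩
    refine ⟨x, y, z / s, ?_, by rw [h]; field_simp⟩
    rcases h0 with h0 | h0 | h0
    · exact Or.inl h0
    · exact Or.inr (Or.inl h0)
    · exact Or.inr (Or.inr (div_ne_zero h0 hs))

variable {k K : Type} [Field k] [Field K] [Algebra k K] (v : Place k K)

theorem iso2_swap (a b : K) : Iso2 v a b ↔ Iso2 v b a := by
  constructor
  · rintro ⟨x, y, z, h0, h⟩
    refine ⟨x, z, y, ?_, by rw [h]; ring⟩
    tauto
  · rintro ⟨x, y, z, h0, h⟩
    refine ⟨x, z, y, ?_, by rw [h]; ring⟩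
    tauto

theorem iso2_sq_right (a b s : K) (hs : s ≠ 0) : Iso2 v a (b * s ^ 2) ↔ Iso2 v a b := by
  have h := Iso_sq_aux (v.toCompletion a) (v.toCompletion b) (v.toCompletion s)
    ((map_ne_zero v.toCompletion).2 hs)
  rw [← map_pow, ← map_mul] at h
  exact h

theorem iso2_sq_left (a b s : K) (hs : s ≠ 0) : Iso2 v (a * s ^ 2) b ↔ Iso2 v a b := by
  rw [iso2_swap v (a * s ^ 2) b, iso2_sq_right v b a s hs, iso2_swap v b a]

theorem iso2_norm (a b x y : K) (h : x ^ 2 - a * y ^ 2 ≠ 0) :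
    Iso2 v a (b * (x ^ 2 - a * y ^ 2)) ↔ Iso2 v a b := by
  have h0 : v.toCompletion x ^ 2 - v.toCompletion a * v.toCompletion y ^ 2 ≠ 0 := by
    rw [← map_pow, ← map_pow, ← map_mul, ← map_sub]
    exact (map_ne_zero v.toCompletion).2 h
  have h1 := Iso_norm_aux (v.toCompletion a) (v.toCompletion b) (v.toCompletion x)
    (v.toCompletion y) h0
  rw [← map_pow, ← map_pow, ← map_mul v.toCompletion a, ← map_sub, ← map_mul] at h1
  exact h1

/-- the ternary form -/
theorem iso2_iff_isotropic (a b : K) :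
    Iso2 v a b ↔ BSDP.Isotropic ((Matrix.diagonal ![1, -a, -b]).map v.toCompletion) := by
  have hform : ∀ u : Fin 3 → v.ring.valuation.Completion,
      dotProduct u (((Matrix.diagonal ![1, -a, -b]).map v.toCompletion).mulVec u) =
        u 0 ^ 2 - v.toCompletion a * u 1 ^ 2 - v.toCompletion b * u 2 ^ 2 := by
    intro u
    rw [Matrix.diagonal_map (map_zero _)]
    simp only [dotProduct, Matrix.mulVec_diagonal, Fin.sum_univ_three]
    simp
    ring
  constructor
  · rintro ⟨x, y, z, h0, h⟩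
    refine ⟨![x, y, z], ?_, ?_⟩
    · intro hv
      have e0 : x = 0 := by simpa using congrFun hv 0
      have e1 : y = 0 := by simpa using congrFun hv 1
      have e2 : z = 0 := by simpa using congrFun hv 2
      tauto
    · rw [hform]
      show x ^ 2 - v.toCompletion a * y ^ 2 - v.toCompletion b * z ^ 2 = 0
      rw [h]
      ring
  · rintro ⟨u, hu, h⟩
    rw [hform] at h
    refine ⟨u 0, u 1, u 2, ?_, ?_⟩
    · by_contra hcon
      push Not at hcon
      apply hu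
      funext i
      fin_cases i
      · exact hcon.1
      · exact hcon.2.1
      · exact hcon.2.2
    · rw [← sub_eq_zero, ← h]
      ring

end Pool.Agent.GBR
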