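import Pool.Agent.Lib.GBR.Def

/-!
Module Kahler. Let `k` be a perfect field (here finite) and `K` finite and separable over `k(t)`.
* `D_ne`: `D t ≠ 0` in `Ω[K⁄k]`.
* `sepB_of_D`: if `D b ≠ 0` then `K` is finite and separable over `k(b)`.
* `D_ne_of_pow`: `D (x ^ p t) ≠ 0` for `x ≠ 0`, `p` the characteristic.

Proof. `E := IntermediateField.adjoin k {t}`. `K / E` is separable algebraic, so formally unramified
(`Algebra.FormallyUnramified.of_isSeparable`): `Ω[K⁄E]` is trivial. The kernel of
`Ω[K⁄k] → Ω[K⁄E]` (`KaehlerDifferential.map k E K K`) is the `K`-span of the `D x`, `x ∈ E`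
(`KaehlerDifferential.ker_map_of_surjective`, `KaehlerDifferential.range_mapBaseChange`,
`exact_mapBaseChange_map`); for `x = p (t) / q (t)`, `D x` is a multiple of `D t` (`Derivation.map_aeval`,
`Derivation.leibniz_div`). So `Ω[K⁄k] = K · D t`.
* `D_ne`: if `D t = 0` then `Ω[K⁄k] = 0`, so `K` is formally unramified over `k`, essentially of finite type
  (`Algebra.EssFiniteType` : finite over `k(t)`), so `K / k` is algebraic (`FormallyUnramified.finite_of_free`
  or `.isSeparable`), but `t` is transcendental.
* `sepB_of_D`: `b` is transcendental: if it is algebraic over `k` then it is separable, `P (b) = 0`,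
  `P' (b) ≠ 0`, so `D b = 0`. Finite: `FunctionField.finiteDimensional_of_adjoin_transcendental` (Mathlib) in the
  form with `RatFunc`, or: `t` is algebraic over `k(b)` (transcendence degree `1`). As `D t = c D b`,
  `Ω[K⁄k(b)]` is spanned by the image of `D t`, which is `0` because `D b = 0` there: `K / k(b)` is formally
  unramified, finite, so separable (`Algebra.FormallyUnramified.isSeparable`).
* `D (x ^ p t) = x ^ p D t + t p x ^ (p - 1) D x = x ^ p D t`.
-/

set_option autoImplicit false

open Polynomial

namespace Pool.Agent.GBR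

variable {k K : Type} [Field k] [Field K] [Algebra k K]

section aux

variable {M : Type} [AddCommGroup M] [Module K M] [Module k M] [IsScalarTower k K M]

private theorem Kahler_inv (d : Derivation k K M) {x : K} (hx : d x = 0) : d x⁻¹ = 0 := by
  by_cases h : x = 0
  · rw [h, inv_zero, map_zero]
  · rw [Derivation.leibniz_inv, hx, smul_zero]

/-- a derivation trivial at `t` is trivial on `k(t)` -/
private theorem Kahler_adjoin (d : Derivation k K M) {t : K} (ht : d t = 0) {x : K}
    (hx : x ∈ IntermediateField.adjoin k {t}) : d x = 0 := by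
  induction hx using IntermediateField.adjoin_induction with
  | mem x hx => rw [Set.mem_singleton_iff.mp hx]; exact ht
  | algebraMap x => exact d.map_algebraMap x
  | add x y hx hy h1 h2 => rw [map_add, h1, h2, add_zero]
  | inv x hx h => exact Kahler_inv d h
  | mul x y hx hy h1 h2 => rw [d.leibniz, h1, h2, smul_zero, smul_zero, add_zero]

private theorem Kahler_lin {F : Type} [Field F] [Algebra F K] [Algebra.IsSeparable F K] [Module F M]
    [IsScalarTower F K M] (d : Derivation F K M) (x : K) : d x = 0 := by
  haveI : Algebra.FormallyUnramified F K := Algebra.FormallyUnramified.of_isSeparable F K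
  haveI : Subsingleton Ω[K⁄F] := Algebra.FormallyUnramified.subsingleton_kaehlerDifferential
  have h1 : d x = d.liftKaehlerDifferential (KaehlerDifferential.D F K x) :=
    (Derivation.liftKaehlerDifferential_comp_D d x).symm
  rw [Subsingleton.elim (KaehlerDifferential.D F K x) 0, map_zero] at h1
  exact h1

private theorem Kahler_zero' {F : Type} [Field F] [Algebra F K] [Algebra.IsSeparable F K]
    (d : Derivation k K M) (h : ∀ x : F, d (algebraMap F K x) = 0) (x : K) : d x = 0 := by
  letI : Module F M := Module.compHom M (algebraMap F K)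
  haveI : IsScalarTower F K M := ⟨fun e y m => by
    change (e • y) • m = algebraMap F K e • (y • m)
    rw [Algebra.smul_def, mul_smul]⟩
  let d' : Derivation F K M :=
    { toFun := d
      map_add' := fun a b => d.map_add a b
      map_smul' := fun e y => by
        change d (e • y) = algebraMap F K e • d y
        rw [Algebra.smul_def, d.leibniz, h, smul_zero, add_zero]
      map_one_eq_zero' := d.map_one_eq_zero
      leibniz' := d.leibniz }
  exact Kahler_lin d' x

/-- a derivation trivial on `E` is trivial if `K / E` is separable -/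
private theorem Kahler_zero (E : IntermediateField k K) [Algebra.IsSeparable E K]
    (d : Derivation k K M) (h : ∀ x ∈ E, d x = 0) (x : K) : d x = 0 :=
  Kahler_zero' (F := E) d (fun x => h _ x.2) x

end aux

/-- every differential is a multiple of `D t` -/
theorem span_D {t : K} (ht : SepB k t) (ω : Ω[K⁄k]) : ∃ c : K, ω = c • KaehlerDifferential.D k K t := by
  haveI := ht.sep
  let S : Submodule K Ω[K⁄k] := Submodule.span K {KaehlerDifferential.D k K t}
  let d : Derivation k K (Ω[K⁄k] ⧸ S) := S.mkQ.compDer (KaehlerDifferential.D k K)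
  have h0 : ∀ x, d x = S.mkQ (KaehlerDifferential.D k K x) := fun x => rfl
  have h1 : d t = 0 := by
    rw [h0, Submodule.mkQ_apply, Submodule.Quotient.mk_eq_zero]
    exact Submodule.mem_span_singleton_self _
  have h2 : ∀ x, KaehlerDifferential.D k K x ∈ S := fun x => by
    have := Kahler_zero (IntermediateField.adjoin k {t}) d (fun y hy => Kahler_adjoin d h1 hy) x
    rwa [h0, Submodule.mkQ_apply, Submodule.Quotient.mk_eq_zero] at this
  have h3 : ω ∈ S := by
    have h4 : Submodule.span K (Set.range (KaehlerDifferential.D k K)) ≤ S := by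
      rw [Submodule.span_le]
      rintro _ ⟨x, rfl⟩
      exact h2 x
    rw [KaehlerDifferential.span_range_derivation] at h4
    exact h4 Submodule.mem_top
  obtain ⟨c, hc⟩ := Submodule.mem_span_singleton.mp h3
  exact ⟨c, hc.symm⟩

private theorem Kahler_ess {t : K} (ht : SepB k t) : Algebra.EssFiniteType k K := by
  haveI := ht.fin
  haveI : Algebra.EssFiniteType k (IntermediateField.adjoin k {t}) :=
    IntermediateField.essFiniteType_iff.mpr ⟨{t}, by simp⟩
  exact Algebra.EssFiniteType.comp k (IntermediateField.adjoin k {t}) K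

theorem D_ne {t : K} (ht : SepB k t) : KaehlerDifferential.D k K t ≠ 0 := by
  intro h
  haveI := Kahler_ess ht
  haveI : Subsingleton Ω[K⁄k] := ⟨fun a b => by
    obtain ⟨c, hc⟩ := span_D ht a
    obtain ⟨e, he⟩ := span_D ht b
    rw [hc, he, h, smul_zero, smul_zero]⟩
  haveI : Algebra.FormallyUnramified k K := ⟨inferInstance⟩
  haveI : Module.Finite k K := Algebra.FormallyUnramified.finite_of_free (R := k) (S := K)
  exact ht.tr (Algebra.IsAlgebraic.isAlgebraic t)

open IntermediateField in
theorem fin_of_tr {t : K} (ht : SepB k t) {b : K} (hb : Transcendental k b) :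
    FiniteDimensional (IntermediateField.adjoin k {b}) K :=
  let Fyx := restrictScalars k k⟮b⟯⟮t⟯
  let Fxy := restrictScalars k k⟮t⟯⟮b⟯
  let : Algebra k⟮b⟯ Fyx := k⟮b⟯⟮t⟯.algebra
  let : Module k⟮b⟯ Fyx := Algebra.toModule
  let : SMul k⟮b⟯ Fyx := Algebra.toSMul
  let : Algebra k⟮t⟯ Fxy := k⟮t⟯⟮b⟯.algebra
  let : Module k⟮t⟯ Fxy := Algebra.toModule
  let : SMul k⟮t⟯ Fxy := Algebra.toSMul
  have := ht.fin
  have halg : IsAlgebraic k⟮b⟯ t :=
    isAlgebraic_adjoin_iff.mpr (.adjoin_singleton ht.tr hb
      (isAlgebraic_adjoin_iff.mp (Algebra.IsAlgebraic.isAlgebraic b)))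
  have : FiniteDimensional k⟮b⟯ Fyx :=
    adjoin.finiteDimensional (isAlgebraic_iff_isIntegral.mp halg)
  have : FiniteDimensional Fyx K := by
    unfold Fyx
    rw [adjoin_simple_comm]
    have : IsScalarTower k⟮t⟯ Fxy K := isScalarTower_mid' k⟮t⟯⟮b⟯
    exact .right k⟮t⟯ Fxy K
  have : IsScalarTower k⟮b⟯ Fyx K := isScalarTower_mid' k⟮b⟯⟮t⟯
  .trans k⟮b⟯ Fyx K

theorem sepB_of_D [Finite k] {t : K} (ht : SepB k t) {b : K}
    (hb : KaehlerDifferential.D k K b ≠ 0) : SepB k b := by
  have htr : Transcendental k b := by
    intro h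
    have hint : IsIntegral k b := h.isIntegral
    have hsep : IsSeparable k b := by
      exact (PerfectField.separable_of_irreducible (minpoly.irreducible hint))
    have h1 : KaehlerDifferential.D k K (aeval b (minpoly k b)) = 0 := by
      rw [minpoly.aeval, map_zero]
    rw [Derivation.map_aeval] at h1
    rcases smul_eq_zero.mp h1 with h2 | h2
    · exact hsep.aeval_derivative_ne_zero (minpoly.aeval k b) h2
    · exact hb h2
  haveI := fin_of_tr ht htr
  refine ⟨htr, inferInstance, ?_⟩
  haveI : Algebra.EssFiniteType (IntermediateField.adjoin k {b}) K := inferInstance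
  have hb0 : KaehlerDifferential.D (IntermediateField.adjoin k {b}) K b = 0 :=
    Derivation.map_algebraMap (KaehlerDifferential.D (IntermediateField.adjoin k {b}) K)
      ⟨b, IntermediateField.mem_adjoin_simple_self k b⟩
  have hm : ∀ x : K, KaehlerDifferential.map k (IntermediateField.adjoin k {b}) K K
      (KaehlerDifferential.D k K x) = KaehlerDifferential.D (IntermediateField.adjoin k {b}) K x :=
    fun x => by rw [KaehlerDifferential.map_D]; rfl
  have ht0 : KaehlerDifferential.D (IntermediateField.adjoin k {b}) K t = 0 := by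
    obtain ⟨c, hc⟩ := span_D ht (KaehlerDifferential.D k K b)
    have hc0 : c ≠ 0 := by
      rintro rfl
      rw [zero_smul] at hc
      exact hb hc
    have h3 := hm b
    rw [hc, map_smul, hm, hb0] at h3
    exact (smul_eq_zero.mp h3).resolve_left hc0
  haveI : Subsingleton Ω[K⁄(IntermediateField.adjoin k {b})] := by
    have key : ∀ ω : Ω[K⁄(IntermediateField.adjoin k {b})], ω = 0 := by
      intro ω
      obtain ⟨ω', rfl⟩ := KaehlerDifferential.map_surjective k (IntermediateField.adjoin k {b}) K ω
      obtain ⟨c, rfl⟩ := span_D ht ω'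
      rw [map_smul, hm, ht0, smul_zero]
    exact ⟨fun a c => by rw [key a, key c]⟩
  haveI : Algebra.FormallyUnramified (IntermediateField.adjoin k {b}) K := ⟨inferInstance⟩
  exact Algebra.FormallyUnramified.isSeparable _ _

theorem D_ne_of_pow {t : K} (ht : SepB k t) {p : ℕ} [CharP k p] (hp : p.Prime) {x : K} (hx : x ≠ 0) :
    KaehlerDifferential.D k K (x ^ p * t) ≠ 0 := by
  haveI : CharP K p := charP_of_injective_algebraMap (algebraMap k K).injective p
  have h1 : KaehlerDifferential.D k K (x ^ p) = 0 := by
    rw [Derivation.leibniz_pow, ← Nat.cast_smul_eq_nsmul K p, CharP.cast_eq_zero, zero_smul]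
  rw [Derivation.leibniz, h1, smul_zero, add_zero]
  exact smul_ne_zero (pow_ne_zero _ hx) (D_ne ht)

end Pool.Agent.GBR
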