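import Pool.Agent.Lib.GBR.Kahler
import Pool.Agent.Lib.GBR.Approx
import Pool.Agent.Lib.GBR.ChiNorm

/-!
Module SepG. (1) If `K` is an algebra over `k(t) = RatFunc k`, finite and separable, then `SepB k t` for the
image `t` of `X`. (2) For `b ≠ 0` and a finite set `T` of places there is `s ≠ 0`, a unit at all places of
`T`, with `K / k(b s²)` finite and separable.

Proof. (1) `IntermediateField.adjoin k {t}` is the image of `RatFunc k` (`RatFunc.adjoin_X`,
`IntermediateField.adjoin_map`); finite: `FunctionField.FiniteDimensional.adjoin_algebraMap_X`; separable: for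
`x ∈ K` the minimal polynomial over `RatFunc k` is separable, map it to `adjoin k {t}`
(`Algebra.IsSeparable.of_algHom`/`IsSeparable.of_...tower`: `Algebra.isSeparable_tower_top_of_isSeparable`
for `RatFunc k → adjoin k {t} → K`); transcendental: `RatFunc k → K` is injective.
(2) Let `D = KaehlerDifferential.D k K`. If `D b ≠ 0` take `s = 1`. Otherwise `s = 1 + x ^ p t` with `x ≠ 0` such
that `x ^ p t` is in the maximal ideal of every `v ∈ T` (`approx` with `c = 0` and `d v` such that
`v (d v) ≤ 1` and `v (d v) v (t) ≤ 1`, and `x ≠ 0`: `exists_value`): then `v (s) = 1` for `v ∈ T`; `s ≠ 0` (if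
`T` is empty, choose `x = 1` or add a place; if `1 + x ^ p t = 0` then `D (x ^ p t) = 0`, impossible by
`D_ne_of_pow`). `D (b s²) = s² D b + 2 b s D s = 2 b s D (x ^ p t) ≠ 0`; `sepB_of_D`.
-/

set_option autoImplicit false

open Polynomial

namespace Pool.Agent.GBR

open BSDFF

open IntermediateField in
theorem sepB_ratFunc {k K : Type} [Field k] [Field K] [Algebra k K] [Algebra (RatFunc k) K]
    [IsScalarTower k (RatFunc k) K] [FiniteDimensional (RatFunc k) K]
    [Algebra.IsSeparable (RatFunc k) K] : SepB k (algebraMap (RatFunc k) K RatFunc.X) := by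
  have : FunctionField k K := ‹FiniteDimensional (RatFunc k) K›
  refine ⟨?_, ?_, ?_⟩
  · exact (transcendental_algebraMap_iff (algebraMap (RatFunc k) K).injective).2
      RatFunc.transcendental_X
  · exact FunctionField.FiniteDimensional.adjoin_algebraMap_X
  · have h1 : Algebra.IsSeparable k⟮(RatFunc.X : RatFunc k)⟯ (RatFunc k) := by
      refine ⟨fun x => ?_⟩
      have hx : x ∈ k⟮(RatFunc.X : RatFunc k)⟯ := by
        rw [RatFunc.adjoin_X]; exact IntermediateField.mem_top
      exact isSeparable_algebraMap (F := k⟮(RatFunc.X : RatFunc k)⟯) (⟨x, hx⟩ : k⟮(RatFunc.X : RatFunc k)⟯)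
    have h2 : Algebra.IsSeparable k⟮(RatFunc.X : RatFunc k)⟯ K :=
      Algebra.IsSeparable.trans k⟮(RatFunc.X : RatFunc k)⟯ (RatFunc k) K
    exact Algebra.isSeparable_tower_top_of_isSeparable k⟮(RatFunc.X : RatFunc k)⟯
      k⟮algebraMap (RatFunc k) K RatFunc.X⟯ K

variable {k K : Type} [Field k] [Finite k] [Field K] [Algebra k K]

omit [Finite k] in
private theorem SepG_exists_lt (v : Place k K) : ∃ y : K, y ≠ 0 ∧ v.ring.valuation y < 1 := by
  have := v.dvr
  obtain ⟨ϖ, hϖ⟩ := IsDiscreteValuationRing.exists_irreducible v.ring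
  refine ⟨(ϖ : K), fun h => hϖ.ne_zero (Subtype.ext h), ?_⟩
  exact (ValuationSubring.valuation_lt_one_iff v.ring ϖ).1
    ((IsLocalRing.mem_maximalIdeal ϖ).2 hϖ.not_isUnit)

theorem exists_sep (h2 : (2 : k) ≠ 0) {t : K} (ht : SepB k t) (b : K) (hb : b ≠ 0)
    (T : Finset (Place k K)) :
    ∃ s : K, s ≠ 0 ∧ SepB k (b * s ^ 2) ∧ ∀ v ∈ T, v.ring.valuation s = 1 := by
  classical
  by_cases hDb : KaehlerDifferential.D k K b = 0
  swap
  · exact ⟨1, one_ne_zero, by simpa using sepB_of_D ht hDb, fun v _ => by simp⟩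
  obtain ⟨p, hp⟩ := CharP.exists k
  have hpp : p.Prime := (CharP.char_is_prime_or_zero k p).resolve_right
    (CharP.char_ne_zero_of_finite k p)
  have ht0 : t ≠ 0 := fun h => ht.tr (h ▸ isAlgebraic_zero)
  choose y hy0 hy1 using fun v : Place k K => SepG_exists_lt v
  let d : Place k K → K := fun v => if v.ring.valuation t ≤ 1 then 1 else t⁻¹
  have dpos : ∀ v : Place k K, v.ring.valuation t ≤ 1 → d v = 1 := fun v h => if_pos h
  have dneg : ∀ v : Place k K, ¬ v.ring.valuation t ≤ 1 → d v = t⁻¹ := fun v h => if_neg h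
  have hd0 : ∀ v : Place k K, d v ≠ 0 := by
    intro v; by_cases h : v.ring.valuation t ≤ 1
    · rw [dpos v h]; exact one_ne_zero
    · rw [dneg v h]; exact inv_ne_zero ht0
  have hd1 : ∀ v : Place k K, v.ring.valuation (d v) ≤ 1 := by
    intro v; by_cases h : v.ring.valuation t ≤ 1
    · rw [dpos v h, map_one]
    · rw [dneg v h, map_inv₀]
      exact inv_le_one_of_one_le₀ (lt_of_not_ge h).le
  have hd2 : ∀ v : Place k K, v.ring.valuation (d v) * v.ring.valuation t ≤ 1 := by
    intro v; by_cases h : v.ring.valuation t ≤ 1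
    · rw [dpos v h, map_one, one_mul]; exact h
    · have ht1 : v.ring.valuation t ≠ 0 := (Valuation.ne_zero_iff _).2 ht0
      rw [dneg v h, map_inv₀, inv_mul_cancel₀ ht1]
  obtain ⟨x, hx0, hx⟩ := exists_value T (fun v => y v * d v) (fun v _ => mul_ne_zero (hy0 v) (hd0 v))
  have hDx : KaehlerDifferential.D k K (x ^ p * t) ≠ 0 := D_ne_of_pow ht hpp hx0
  have hlt : ∀ v ∈ T, v.ring.valuation (x ^ p * t) < 1 := by
    intro v hv
    have e1 : v.ring.valuation x = v.ring.valuation (y v) * v.ring.valuation (d v) := by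
      rw [hx v hv, map_mul]
    have e2 : v.ring.valuation x ≤ 1 := by
      rw [e1]; exact mul_le_one' (hy1 v).le (hd1 v)
    have e3 : v.ring.valuation x ^ p ≤ v.ring.valuation x := by
      calc v.ring.valuation x ^ p ≤ v.ring.valuation x ^ 1 :=
            pow_le_pow_right_of_le_one' e2 hpp.one_lt.le
        _ = _ := pow_one _
    rw [map_mul, map_pow]
    calc v.ring.valuation x ^ p * v.ring.valuation t
        ≤ v.ring.valuation x * v.ring.valuation t := mul_le_mul' e3 le_rfl
      _ = v.ring.valuation (y v) * (v.ring.valuation (d v) * v.ring.valuation t) := by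
          rw [e1, mul_assoc]
      _ ≤ v.ring.valuation (y v) * 1 := mul_le_mul' le_rfl (hd2 v)
      _ < 1 := by rw [mul_one]; exact hy1 v
  have hDs : KaehlerDifferential.D k K (1 + x ^ p * t) = KaehlerDifferential.D k K (x ^ p * t) := by
    rw [map_add, Derivation.map_one_eq_zero, zero_add]
  have hs0 : (1 + x ^ p * t) ≠ 0 := by
    intro h
    apply hDx
    rw [← hDs, h, map_zero]
  have h2K : (2 : K) ≠ 0 := by
    intro h
    apply h2
    apply (algebraMap k K).injective
    rw [map_ofNat, map_zero, h]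
  refine ⟨1 + x ^ p * t, hs0, ?_, ?_⟩
  · apply sepB_of_D ht
    rw [Derivation.leibniz, hDb, smul_zero, add_zero, pow_two, Derivation.leibniz, hDs,
      ← add_smul, smul_smul]
    refine smul_ne_zero ?_ hDx
    refine mul_ne_zero hb ?_
    rw [← two_mul]
    exact mul_ne_zero h2K hs0
  · intro v hv
    exact Valuation.map_one_add_of_lt _ (hlt v hv)

end Pool.Agent.GBR
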