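import Pool.Agent.Lib.GBR.Chart
import Pool.Agent.Lib.GBR.Plc

/-!
Module Supp. A nonzero element of `K` is a unit at all but finitely many places.

Proof. `SepB k t`; `Fact`s for `t` and `t⁻¹` (`sepB_inv`). A place `v` contains `t` or `t⁻¹`
(`ValuationSubring.mem_or_inv_mem`), so it contains `Rb k t` or `Rb k t⁻¹` (`Rb_le`) and is
`plc k K P` for a prime `P` of this ring (`exists_plc`). For `R = Rb k t` (or `t⁻¹`): `a = u / w`,
`u, w ∈ R` nonzero (`IsFractionRing.div_surjective`); if `a` is not a unit at `plc P` then `u ∈ P` or `w ∈ P`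
(`plc_eq_one`), and a nonzero element is in finitely many primes (`Ideal.finite_factors` or
`HeightOneSpectrum.finite_mem...`, or `normalizedFactors`).
-/

set_option autoImplicit false

open Polynomial

namespace Pool.Agent.GBR

open BSDFF

variable {k K : Type} [Field k] [Field K] [Algebra k K]

private theorem Supp_ideal {R : Type} [CommRing R] [IsDedekindDomain R] (u : R) (hu : u ≠ 0) :
    {P : IsDedekindDomain.HeightOneSpectrum R | u ∈ P.asIdeal}.Finite := by
  have h := Ideal.finite_factors (R := R) (I := Ideal.span {u})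
    (by rw [Ne, Ideal.zero_eq_bot, Ideal.span_singleton_eq_bot]; exact hu)
  refine h.subset ?_
  intro P hP
  exact Ideal.dvd_iff_le.2 ((Ideal.span_singleton_le_iff_mem _).2 hP)

private theorem Supp_half {b : K} (hb : SepB k b) (a : K) (ha : a ≠ 0) :
    {v : Place k K | b ∈ v.ring ∧ v.ring.valuation a ≠ 1}.Finite := by
  have : Fact (SepB k b) := ⟨hb⟩
  obtain ⟨u, w, hw, rfl⟩ := IsFractionRing.div_surjective (A := Rb k b) a
  have hw0 : w ≠ 0 := nonZeroDivisors.ne_zero hw
  have hu0 : u ≠ 0 := by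
    intro h0
    apply ha
    rw [h0, map_zero, zero_div]
  refine (((Supp_ideal u hu0).union (Supp_ideal w hw0)).image (plc k K)).subset ?_
  rintro v ⟨hv, hva⟩
  obtain ⟨P, rfl⟩ := exists_plc (R := Rb k b) v (Rb_le v hv)
  refine ⟨P, ?_, rfl⟩
  by_contra hP
  have h1 : u ∉ P.asIdeal := fun h => hP (Or.inl h)
  have h2 : w ∉ P.asIdeal := fun h => hP (Or.inr h)
  apply hva
  rw [map_div₀, (plc_eq_one P u).2 h1, (plc_eq_one P w).2 h2, div_one]

theorem finite_supp {t : K} (ht : SepB k t) (a : K) (ha : a ≠ 0) :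
    {v : Place k K | v.ring.valuation a ≠ 1}.Finite := by
  refine ((Supp_half ht a ha).union (Supp_half (sepB_inv ht) a ha)).subset ?_
  intro v hv
  rcases v.ring.mem_or_inv_mem t with h | h
  · exact Or.inl ⟨h, hv⟩
  · exact Or.inr ⟨h, hv⟩

end Pool.Agent.GBR
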