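import Pool.Agent.Lib.GBR.Iso
import Pool.Agent.Lib.GBR.SepG
import Pool.Agent.Lib.GBR.Supp

/-!
Module Modify. For nonzero `a`, `b` there are `a'`, `b'` with disjoint supports, `K / k(b')` finite and
separable and `Iso2 v a b ↔ Iso2 v a' b'` for all places `v`.

Proof. `S(x) := {v | v (x) ≠ 1}` is finite (`finite_supp`). Say that `x` is even at `v` if
`v (x) = v (c)²` for some `c ∈ K`. Values of a place are the powers of `v (π)`, `π` a uniformizer, so if `x`
and `y` are not even then `x y` is even.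
(R1) Choose `s` with `v (s)² = v (a)⁻¹` for the `v ∈ S(b)` at which `a` is even, `v (s) = 1` for the other
`v ∈ S(b)` (`exists_value`), `a' := a s²` (`iso2_sq_left`): at `v ∈ S(b)` either `v (a') = 1` or `a'` is not
even.
(R2) Choose `x`, `y` (`exists_value` for `T = S(a')`, twice) such that for `v ∈ S(a')`:
 if `v (b) = 1`: `v (x) = 1`, `v (a' y²) < 1`;
 if `v (b) ≠ 1` and `b` is even at `v`: `v (x)² = v (b)⁻¹`, `v (a' y²) < v (b)⁻¹`;
 if `b` is not even at `v`: then `a' b` is even at `v` (`v ∈ S(b)`, so `a'` is not even): `v (y)² = v (a' b)⁻¹`,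
 `v (x)² < v (b)⁻¹`.
So `v (x² - a' y²) = v (b)⁻¹` at all `v ∈ S(a')` (`Valuation.map_sub_eq_of_lt_left/right`); if `S(a')` is
empty take `x = 1`, `y = 0`. In all cases `N = x² - a' y² ≠ 0` (for `S(a')` nonempty because its value is not
zero), `b₁ := b N` (`iso2_norm`): `v (b₁) = 1` for `v ∈ S(a')`.
(R3) `exists_sep` for `b₁` and `T = S(a')`: `b' := b₁ s²` (`iso2_sq_right`).
-/

set_option autoImplicit false

open Polynomial

namespace Pool.Agent.GBR

open BSDFF

variable {k K : Type} [Field k] [Finite k] [Field K] [Algebra k K]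

omit [Finite k] in
private theorem Modify_unif (v : Place k K) : ∃ π : K, π ≠ 0 ∧ v.ring.valuation π < 1 ∧
    ∀ x : K, x ≠ 0 → ∃ n : ℤ, v.ring.valuation x = v.ring.valuation π ^ n := by
  obtain ⟨ϖ, hϖ⟩ := IsDiscreteValuationRing.exists_irreducible v.ring
  have h0 : (ϖ : K) ≠ 0 := by
    intro h
    exact hϖ.ne_zero (Subtype.ext h)
  have h1 : v.ring.valuation (ϖ : K) < 1 :=
    (v.ring.valuation_lt_one_iff ϖ).1 ((IsLocalRing.mem_maximalIdeal _).2 hϖ.not_isUnit)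
  have key : ∀ x : v.ring, x ≠ 0 → ∃ n : ℕ,
      v.ring.valuation (x : K) = v.ring.valuation (ϖ : K) ^ n := by
    intro x hx
    obtain ⟨n, u, hu⟩ := IsDiscreteValuationRing.associated_pow_irreducible hx hϖ
    refine ⟨n, ?_⟩
    have h2 : (x : K) * ((u : v.ring) : K) = (ϖ : K) ^ n := by
      have h3 := congrArg (fun y : v.ring => (y : K)) hu
      simpa using h3
    have h4 : v.ring.valuation ((u : v.ring) : K) = 1 := v.ring.valuation_unit u
    rw [← map_pow, ← h2, map_mul, h4, mul_one]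
  refine ⟨(ϖ : K), h0, h1, fun x hx => ?_⟩
  rcases v.ring.mem_or_inv_mem x with h | h
  · obtain ⟨n, hn⟩ := key ⟨x, h⟩ (fun h' => hx (congrArg Subtype.val h'))
    exact ⟨n, by rw [zpow_natCast]; exact hn⟩
  · obtain ⟨n, hn⟩ := key ⟨x⁻¹, h⟩ (fun h' => inv_ne_zero hx (congrArg Subtype.val h'))
    refine ⟨-(n : ℤ), ?_⟩
    have h5 : v.ring.valuation x⁻¹ = v.ring.valuation (ϖ : K) ^ n := hn
    rw [zpow_neg, zpow_natCast, ← h5, map_inv₀, inv_inv]

/-- the value is a square -/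
private def Modify_Ev (v : Place k K) (x : K) : Prop :=
  ∃ c : K, c ≠ 0 ∧ v.ring.valuation x = v.ring.valuation c ^ 2

omit [Finite k] in
private theorem Modify_mul (v : Place k K) {x y : K} (hx : x ≠ 0) (hy : y ≠ 0)
    (h1 : ¬ Modify_Ev v x) (h2 : ¬ Modify_Ev v y) : Modify_Ev v (x * y) := by
  obtain ⟨π, h0, -, hπ⟩ := Modify_unif v
  obtain ⟨m, hm⟩ := hπ x hx
  obtain ⟨n, hn⟩ := hπ y hy
  have aux : ∀ (z : K) (e : ℤ), v.ring.valuation z = v.ring.valuation π ^ e → e % 2 = 0 →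
      Modify_Ev v z := by
    intro z e he h
    refine ⟨π ^ (e / 2), zpow_ne_zero _ h0, ?_⟩
    rw [he, map_zpow₀, ← zpow_natCast, ← zpow_mul]
    congr 1
    push_cast
    omega
  have hm' : m % 2 = 1 := by
    by_contra h
    exact h1 (aux x m hm (by omega))
  have hn' : n % 2 = 1 := by
    by_contra h
    exact h2 (aux y n hn (by omega))
  refine aux (x * y) (m + n) ?_ (by omega)
  rw [map_mul, hm, hn, zpow_add₀ ((Valuation.ne_zero_iff _).2 h0)]

omit [Finite k] in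
private theorem Modify_small (v : Place k K) {a c : K} (ha : a ≠ 0) (hc : c ≠ 0) :
    ∃ d : K, d ≠ 0 ∧ v.ring.valuation (a * d ^ 2) < v.ring.valuation c := by
  obtain ⟨π, h0, h1, hπ⟩ := Modify_unif v
  obtain ⟨m, hm⟩ := hπ a ha
  obtain ⟨n, hn⟩ := hπ c hc
  have hv0 : v.ring.valuation π ≠ 0 := (Valuation.ne_zero_iff _).2 h0
  refine ⟨π ^ (|m| + |n| + 1), zpow_ne_zero _ h0, ?_⟩
  rw [map_mul, map_pow, map_zpow₀, hm, hn, ← zpow_natCast, ← zpow_mul, ← zpow_add₀ hv0]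
  refine zpow_lt_zpow_right_of_lt_one₀ (zero_lt_iff.2 hv0) h1 ?_
  have e1 := neg_abs_le m
  have e2 := le_abs_self n
  have e3 := abs_nonneg m
  have e4 := abs_nonneg n
  push_cast
  linarith

omit [Finite k] in
private theorem Modify_norm (v : Place k K) {a b x y : K}
    (h : (v.ring.valuation (x ^ 2) = v.ring.valuation b⁻¹ ∧
        v.ring.valuation (a * y ^ 2) < v.ring.valuation b⁻¹) ∨
      (v.ring.valuation (a * y ^ 2) = v.ring.valuation b⁻¹ ∧
        v.ring.valuation (x ^ 2) < v.ring.valuation b⁻¹)) :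
    v.ring.valuation (x ^ 2 - a * y ^ 2) = v.ring.valuation b⁻¹ := by
  rcases h with ⟨h1, h2⟩ | ⟨h1, h2⟩
  · rw [← h1] at h2
    rw [Valuation.map_sub_eq_of_lt_left _ h2, h1]
  · rw [← h1] at h2
    rw [Valuation.map_sub_eq_of_lt_right _ h2, h1]

theorem modify (h2 : (2 : k) ≠ 0) {t : K} (ht : SepB k t) (a b : K) (ha : a ≠ 0) (hb : b ≠ 0) :
    ∃ a' b' : K, a' ≠ 0 ∧ b' ≠ 0 ∧ SepB k b' ∧
      (∀ v : Place k K, v.ring.valuation a' = 1 ∨ v.ring.valuation b' = 1) ∧
      ∀ v : Place k K, Iso2 v a b ↔ Iso2 v a' b' := by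
  classical
  -- step 1
  set T1 : Finset (Place k K) := (finite_supp ht b hb).toFinset with hT1
  have hT1m : ∀ v : Place k K, v ∈ T1 ↔ v.ring.valuation b ≠ 1 := by
    intro v
    rw [hT1, Set.Finite.mem_toFinset, Set.mem_ofPred_eq]
  have hc1 : ∀ v : Place k K, ∃ c : K, c ≠ 0 ∧
      (Modify_Ev v a → v.ring.valuation a = v.ring.valuation c ^ 2) := by
    intro v
    by_cases h : Modify_Ev v a
    · obtain ⟨c, hc0, hc⟩ := h
      exact ⟨c, hc0, fun _ => hc⟩
    · exact ⟨1, one_ne_zero, fun h' => absurd h' h⟩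
  choose c1 hc10 hc1e using hc1
  obtain ⟨s, hs0, hs⟩ := exists_value T1 (fun v => (c1 v)⁻¹) (fun v _ => inv_ne_zero (hc10 v))
  obtain ⟨a', ha'⟩ : ∃ a' : K, a' = a * s ^ 2 := ⟨_, rfl⟩
  have ha'0 : a' ≠ 0 := by
    rw [ha']
    exact mul_ne_zero ha (pow_ne_zero _ hs0)
  have hstep1 : ∀ v ∈ T1, v.ring.valuation a' = 1 ∨ ¬ Modify_Ev v a' := by
    intro v hv
    have hsv := hs v hv
    by_cases h : Modify_Ev v a
    · left
      rw [ha', map_mul, map_pow, hsv, map_inv₀, hc1e v h, inv_pow]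
      exact mul_inv_cancel₀ (pow_ne_zero _ ((Valuation.ne_zero_iff _).2 (hc10 v)))
    · right
      rintro ⟨c, hc0, hc⟩
      apply h
      refine ⟨c / s, div_ne_zero hc0 hs0, ?_⟩
      have h3 : v.ring.valuation s ≠ 0 := (Valuation.ne_zero_iff _).2 hs0
      rw [map_div₀, div_pow, eq_div_iff (pow_ne_zero _ h3), ← hc, ha', map_mul, map_pow]
  -- step 2
  set T2 : Finset (Place k K) := (finite_supp ht a' ha'0).toFinset with hT2
  have hT2m : ∀ v : Place k K, v ∈ T2 ↔ v.ring.valuation a' ≠ 1 := by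
    intro v
    rw [hT2, Set.Finite.mem_toFinset, Set.mem_ofPred_eq]
  have hloc : ∀ v : Place k K, ∃ c d : K, v ∈ T2 → (c ≠ 0 ∧ d ≠ 0 ∧
      ((v.ring.valuation (c ^ 2) = v.ring.valuation b⁻¹ ∧
          v.ring.valuation (a' * d ^ 2) < v.ring.valuation b⁻¹) ∨
        (v.ring.valuation (a' * d ^ 2) = v.ring.valuation b⁻¹ ∧
          v.ring.valuation (c ^ 2) < v.ring.valuation b⁻¹))) := by
    intro v
    by_cases hv : v ∈ T2
    swap
    · exact ⟨1, 1, fun h => absurd h hv⟩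
    by_cases hbe : Modify_Ev v b
    · obtain ⟨e, he0, he⟩ := hbe
      obtain ⟨d, hd0, hd⟩ := Modify_small v ha'0 (inv_ne_zero hb)
      refine ⟨e⁻¹, d, fun _ => ⟨inv_ne_zero he0, hd0, Or.inl ⟨?_, hd⟩⟩⟩
      rw [map_pow, map_inv₀, map_inv₀, he, inv_pow]
    · have hb1 : v.ring.valuation b ≠ 1 := by
        intro h
        exact hbe ⟨1, one_ne_zero, by rw [h, map_one, one_pow]⟩
      have ha'e : ¬ Modify_Ev v a' := by
        rcases hstep1 v ((hT1m v).2 hb1) with h | h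
        · exact absurd h ((hT2m v).1 hv)
        · exact h
      obtain ⟨e, he0, he⟩ := Modify_mul v ha'0 hb ha'e hbe
      obtain ⟨c, hc0, hc⟩ := Modify_small v (one_ne_zero (α := K)) (inv_ne_zero hb)
      rw [one_mul] at hc
      refine ⟨c, e⁻¹, fun _ => ⟨hc0, inv_ne_zero he0, Or.inr ⟨?_, hc⟩⟩⟩
      have h3 : v.ring.valuation a' ≠ 0 := (Valuation.ne_zero_iff _).2 ha'0
      have h4 : v.ring.valuation b ≠ 0 := (Valuation.ne_zero_iff _).2 hb
      rw [map_mul, map_pow, map_inv₀, map_inv₀, inv_pow, ← he, map_mul, mul_inv, ← mul_assoc,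
        mul_inv_cancel₀ h3, one_mul]
  choose c d hcd using hloc
  obtain ⟨x0, hx00, hx0⟩ := exists_value T2 c (fun v hv => (hcd v hv).1)
  obtain ⟨y0, hy00, hy0⟩ := exists_value T2 d (fun v hv => (hcd v hv).2.1)
  have hN : ∃ x y : K, x ^ 2 - a' * y ^ 2 ≠ 0 ∧
      ∀ v ∈ T2, v.ring.valuation (x ^ 2 - a' * y ^ 2) = v.ring.valuation b⁻¹ := by
    have hval : ∀ v ∈ T2, v.ring.valuation (x0 ^ 2 - a' * y0 ^ 2) = v.ring.valuation b⁻¹ := by
      intro v hv
      apply Modify_norm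
      have h5 : v.ring.valuation (x0 ^ 2) = v.ring.valuation (c v ^ 2) := by
        rw [map_pow, map_pow, hx0 v hv]
      have h6 : v.ring.valuation (a' * y0 ^ 2) = v.ring.valuation (a' * d v ^ 2) := by
        rw [map_mul, map_mul, map_pow, map_pow, hy0 v hv]
      rw [h5, h6]
      exact (hcd v hv).2.2
    rcases T2.eq_empty_or_nonempty with h | ⟨v, hv⟩
    · refine ⟨1, 0, by simp, fun v hv => ?_⟩
      rw [h] at hv
      exact absurd hv (Finset.notMem_empty v)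
    · refine ⟨x0, y0, fun h => ?_, hval⟩
      have h7 := hval v hv
      rw [h, map_zero] at h7
      exact (Valuation.ne_zero_iff _).2 (inv_ne_zero hb) h7.symm
  obtain ⟨x, y, hN0, hNv⟩ := hN
  obtain ⟨b1, hb1⟩ : ∃ b1 : K, b1 = b * (x ^ 2 - a' * y ^ 2) := ⟨_, rfl⟩
  have hb10 : b1 ≠ 0 := by
    rw [hb1]
    exact mul_ne_zero hb hN0
  have hb1v : ∀ v ∈ T2, v.ring.valuation b1 = 1 := by
    intro v hv
    rw [hb1, map_mul, hNv v hv, map_inv₀]
    exact mul_inv_cancel₀ ((Valuation.ne_zero_iff _).2 hb)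
  -- step 3
  obtain ⟨s2, hs20, hsep, hs2⟩ := exists_sep h2 ht b1 hb10 T2
  refine ⟨a', b1 * s2 ^ 2, ha'0, mul_ne_zero hb10 (pow_ne_zero _ hs20), hsep, ?_, ?_⟩
  · intro v
    by_cases h : v.ring.valuation a' = 1
    · exact Or.inl h
    · right
      have hv := (hT2m v).2 h
      rw [map_mul, map_pow, hb1v v hv, hs2 v hv, one_pow, one_mul]
  · intro v
    rw [iso2_sq_right v a' b1 s2 hs20, hb1, iso2_norm v a' b x y hN0, ha',
      iso2_sq_left v a b s hs0]

end Pool.Agent.GBR
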