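import Pool.Agent.Lib.GBR.Chart

/-!
Module NormB. The norm of `u ∈ Rb k b` over `k[X]`, evaluated at `b`, is the norm of `u` from `K` to
`k(b)`; this norm does not change if `b` is replaced by `1/b`.

Proof. A basis of `Rb k b` over `k[X]` is a basis of `K` over `k(b)` (localization:
`Algebra.norm_localization` for `k[X] → k(b)`, `k(b)` is a localization of `k[X]` at the nonzero
polynomials, `K` is the localization of `Rb k b` at their images, `IsIntegralClosure`/
`IsLocalization` instance `IsFractionRing` of an integral extension). `Nb k b⁻¹ = Nb k b` because the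
intermediate fields are equal (`IntermediateField.adjoin_simple_..`, rewrite with the equality of the
fields: generalize). `Nb` is multiplicative (`map_mul`), and every element of `k(b)` is a quotient of
polynomials in `b` (`IntermediateField.mem_adjoin_simple_iff`).
-/

set_option autoImplicit false

open Polynomial UniqueFactorizationMonoid

namespace Pool.Agent.GBR

variable {k K : Type} [Field k] [Field K] [Algebra k K] {b : K}

private theorem NormB_coe_gen (b : K) (p : k[X]) :
    ((aeval (IntermediateField.AdjoinSimple.gen k b) p : IntermediateField.adjoin k {b}) : K) =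
      aeval b p := by
  have h := Polynomial.aeval_algHom_apply (IntermediateField.val (IntermediateField.adjoin k {b}))
    (IntermediateField.AdjoinSimple.gen k b) p
  rw [IntermediateField.coe_val, IntermediateField.AdjoinSimple.coe_gen] at h
  exact h.symm

theorem aeval_norm [h : Fact (SepB k b)] (u : Rb k b) :
    aeval b (Algebra.norm k[X] u) = Nb k b (u : K) := by
  have htr := h.out.tr
  let aF : Algebra k[X] (IntermediateField.adjoin k {b}) :=
    (aeval (IntermediateField.AdjoinSimple.gen k b)).toAlgebra
  let aK : Algebra k[X] K := (aeval b).toAlgebra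
  have hF : ∀ p : k[X], algebraMap k[X] (IntermediateField.adjoin k {b}) p =
      aeval (IntermediateField.AdjoinSimple.gen k b) p := fun p => rfl
  have hK : ∀ p : k[X], algebraMap k[X] K p = aeval b p := fun p => rfl
  have t1 : IsScalarTower k[X] (IntermediateField.adjoin k {b}) K :=
    IsScalarTower.of_algebraMap_eq fun p => by
      rw [hK, hF]
      exact (NormB_coe_gen b p).symm
  have t2 : IsScalarTower k[X] (Rb k b) K :=
    IsScalarTower.of_algebraMap_eq fun p => by
      rw [hK]
      exact (coe_algebraMap_Rb k b p).symm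
  have hinj : Function.Injective (algebraMap k[X] (IntermediateField.adjoin k {b})) := by
    intro p q hpq
    apply transcendental_iff_injective.1 htr
    have := congrArg (algebraMap (IntermediateField.adjoin k {b}) K) hpq
    rw [hF, hF] at this
    exact (NormB_coe_gen b p).symm.trans (this.trans (NormB_coe_gen b q))
  have f1 : FaithfulSMul k[X] (IntermediateField.adjoin k {b}) :=
    (faithfulSMul_iff_algebraMap_injective _ _).2 hinj
  have f2 : IsFractionRing k[X] (IntermediateField.adjoin k {b}) := by
    apply IsFractionRing.of_field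
    rintro ⟨z, hz⟩
    obtain ⟨r, s, hrs⟩ := IntermediateField.mem_adjoin_simple_iff k z |>.1 hz
    refine ⟨r, s, ?_⟩
    apply Subtype.ext
    rw [hF, hF]
    push_cast
    rw [NormB_coe_gen, NormB_coe_gen]
    exact hrs
  have := h.out.fin
  have f3 : IsIntegralClosure (Rb k b) k[X] K := by
    let φ : k[X] →ₐ[k] Algebra.adjoin k {b} :=
      aeval (⟨b, Algebra.subset_adjoin (Set.mem_singleton b)⟩ : Algebra.adjoin k {b})
    have hφ : ∀ p : k[X], ((φ p : Algebra.adjoin k {b}) : K) = aeval b p := by
      intro p
      have h := Polynomial.aeval_algHom_apply (Algebra.adjoin k {b}).val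
        (⟨b, Algebra.subset_adjoin (Set.mem_singleton b)⟩ : Algebra.adjoin k {b}) p
      exact h.symm
    let aA : Algebra k[X] (Algebra.adjoin k {b}) := φ.toRingHom.toAlgebra
    have t3 : IsScalarTower k[X] (Algebra.adjoin k {b}) K :=
      IsScalarTower.of_algebraMap_eq fun p => by
        rw [hK]
        exact (hφ p).symm
    have hint : Algebra.IsIntegral k[X] (Algebra.adjoin k {b}) := ⟨by
      rintro ⟨a, ha⟩
      have ha' := ha
      rw [Algebra.adjoin_singleton_eq_range_aeval] at ha'
      obtain ⟨p, hp⟩ := ha'
      have : (⟨a, ha⟩ : Algebra.adjoin k {b}) = algebraMap k[X] (Algebra.adjoin k {b}) p := by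
        apply Subtype.ext
        exact hp.symm.trans (hφ p).symm
      rw [this]
      exact isIntegral_algebraMap⟩
    refine ⟨Subtype.val_injective, fun {x} => ⟨fun hx => ?_, ?_⟩⟩
    · have h1 : IsIntegral (Algebra.adjoin k {b}) x := hx.tower_top
      exact ⟨⟨x, h1⟩, rfl⟩
    · rintro ⟨⟨y, hy⟩, rfl⟩
      have h1 : IsIntegral (Algebra.adjoin k {b}) y := hy
      exact isIntegral_trans y h1
  have f4 : IsLocalization (Algebra.algebraMapSubmonoid (Rb k b) (nonZeroDivisors k[X])) K :=
    IsIntegralClosure.isLocalization k[X] (IntermediateField.adjoin k {b}) K (Rb k b)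
  have key := Algebra.norm_localization (Rₘ := IntermediateField.adjoin k {b}) (Sₘ := K) k[X]
    (nonZeroDivisors k[X]) u
  rw [Nb]
  have h2 : algebraMap (Rb k b) K u = (u : K) := rfl
  rw [h2] at key
  rw [key, ← IsScalarTower.algebraMap_apply, hK]

theorem Nb_inv (b x : K) : Nb k b⁻¹ x = Nb k b x := by
  have h : IntermediateField.adjoin k {b⁻¹} = IntermediateField.adjoin k {b} := by
    apply le_antisymm
    · rw [IntermediateField.adjoin_simple_le_iff]
      exact inv_mem (IntermediateField.mem_adjoin_simple_self k b)
    · rw [IntermediateField.adjoin_simple_le_iff]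
      have := inv_mem (IntermediateField.mem_adjoin_simple_self k b⁻¹)
      rwa [inv_inv] at this
  rw [Nb, Nb, h]

theorem Nb_mul (b x y : K) : Nb k b (x * y) = Nb k b x * Nb k b y := by
  rw [Nb, Nb, Nb, map_mul, map_mul]

theorem Nb_ne_zero [h : Fact (SepB k b)] {x : K} (hx : x ≠ 0) : Nb k b x ≠ 0 := by
  have := h.out.fin
  rw [Nb]
  intro h0
  have h1 : Algebra.norm (IntermediateField.adjoin k {b}) x = 0 := by
    apply (algebraMap (IntermediateField.adjoin k {b}) K).injective
    rw [h0, map_zero]
  exact hx (Algebra.norm_eq_zero_iff.1 h1)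

/-- the norm is a quotient of polynomials in `b` -/
theorem Nb_eq_div (b x : K) : ∃ p q : k[X], aeval b q ≠ (0 : K) ∧ Nb k b x = aeval b p / aeval b q := by
  have hmem : Nb k b x ∈ IntermediateField.adjoin k {b} := by
    rw [Nb]
    exact (Algebra.norm (IntermediateField.adjoin k {b}) x).2
  obtain ⟨r, s, hrs⟩ := IntermediateField.mem_adjoin_simple_iff k _ |>.1 hmem
  by_cases hs : aeval b s = (0 : K)
  · refine ⟨0, 1, ?_, ?_⟩
    · rw [map_one]; exact one_ne_zero
    · rw [hrs, hs, div_zero, map_zero, zero_div]
  · exact ⟨r, s, hs, hrs⟩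

end Pool.Agent.GBR
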