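import Pool.Agent.Lib.GBR.DetMul
import Pool.Agent.Lib.GBR.DetNorm
import Pool.Agent.Lib.GBR.DetX
import Pool.Agent.Lib.GBR.ChiNorm

/-!
Module PP. `R` Dedekind, free of finite rank over `k[X]`, `k` finite of odd characteristic; `F` the norm of
`u`. Then `pp X u = sg (F (0))` and `pp u X = sg ((-1)^deg F lc (F) F (0))`.

Proof. For a prime factor `P` of `(y)`, `y ≠ 0`: `R ⧸ P` is a field, finite dimensional over `k`
(`finite_quot`), so `sg (mk P x) = sg (Algebra.norm k (mk P x))` (`sg_norm`); by `norm_quot` and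
`sg_mul` (a product over a multiset, `Multiset.prod_hom`-like induction; `sg 1 = 1`)
`pp y x = sg (Algebra.norm k (mk (y) x))`. Now `norm_mod_X` and `norm_X`: from
`N * lc = (-1)^d F(0)` multiply by `lc`: `sg (N) = sg (N * lc * lc)`.
-/

set_option autoImplicit false

open Polynomial UniqueFactorizationMonoid

namespace Pool.Agent.GBR

variable {k R : Type} [Field k] [Finite k] [CommRing R] [IsDedekindDomain R] [Algebra k R]
  [Algebra k[X] R] [IsScalarTower k k[X] R] [Module.Free k[X] R] [Module.Finite k[X] R]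

private theorem PP_prod {A : Type} [Field A] [Finite A] (s : Multiset A) :
    sg s.prod = (s.map sg).prod := by
  induction s using Multiset.induction_on with
  | empty => simp [sg_one]
  | cons a s ih => rw [Multiset.prod_cons, sg_mul, ih, Multiset.map_cons, Multiset.prod_cons]

theorem pp_eq_norm (h2 : (2 : k) ≠ 0) (y x : R) (hy : y ≠ 0) :
    pp y x = sg (Algebra.norm k (Ideal.Quotient.mk (Ideal.span {y}) x)) := by
  have hI : (Ideal.span {y} : Ideal R) ≠ ⊥ := by
    intro h
    exact hy (Ideal.span_singleton_eq_bot.1 h)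
  rw [norm_quot (fun I hI => finite_quot I hI) _ hI, PP_prod, Multiset.map_map]
  unfold pp
  congr 1
  refine Multiset.map_congr rfl fun P hP => ?_
  have hPp : Prime P := prime_of_normalized_factor P hP
  have h1 : P.IsPrime := Ideal.isPrime_of_prime hPp
  have hm : P.IsMaximal := h1.isMaximal hPp.ne_zero
  have : FiniteDimensional k (R ⧸ P) := finite_quot P hPp.ne_zero
  exact (sg_norm (Ideal.Quotient.maximal_ideal_iff_isField_quotient P |>.1 hm) h2 _).symm

theorem pp_X (h2 : (2 : k) ≠ 0) (hX : algebraMap k[X] R X ≠ 0) (u : R) :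
    pp (algebraMap k[X] R X) u = sg ((Algebra.norm k[X] u).eval 0) := by
  rw [pp_eq_norm h2 _ _ hX, norm_mod_X]

theorem pp_elt (h2 : (2 : k) ≠ 0) (u : R) (hu : u ≠ 0) (hF : (Algebra.norm k[X] u) ≠ 0) :
    pp u (algebraMap k[X] R X) = sg ((-1) ^ (Algebra.norm k[X] u).natDegree *
      (Algebra.norm k[X] u).leadingCoeff * (Algebra.norm k[X] u).eval 0) := by
  have hl : (Algebra.norm k[X] u).leadingCoeff ≠ 0 := leadingCoeff_ne_zero.2 hF
  have h := norm_X (k := k) u hu
  rw [pp_eq_norm h2 _ _ hu]
  have h3 : ((-1) ^ (Algebra.norm k[X] u).natDegree *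
      (Algebra.norm k[X] u).leadingCoeff * (Algebra.norm k[X] u).eval 0 : k) =
      Algebra.norm k (Ideal.Quotient.mk (Ideal.span {u}) (algebraMap k[X] R X)) *
        (Algebra.norm k[X] u).leadingCoeff ^ 2 := by
    rw [pow_two, ← mul_assoc, h]
    ring
  rw [h3, sg_mul, sg_sq hl, mul_one]

end Pool.Agent.GBR
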