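import Pool.Agent.Lib.GBR.ChiNorm

/-!
Module Poly. The comparison at infinity of the norms `F (b)` and `G (1/b)` of two elements which differ by
a square: `F(X) q(X)² = G(1/X) p(X)²`, that is, `F q² X^n = X^n G(1/X) p²`, `n = deg G`.
Comparing degrees: `deg F + 2 deg q = 2 deg p`, so `deg F` is even; leading coefficients:
`lc F (lc q)² = G (0) (lc p)²`. So `sg ((-1)^deg F lc F) = sg (G (0))`.
-/

set_option autoImplicit false

open Polynomial UniqueFactorizationMonoid

namespace Pool.Agent.GBR

theorem poly_compare {k : Type} [Field k] [Finite k] (F G p q : k[X]) (hF : F ≠ 0)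
    (hG : G.eval 0 ≠ 0) (hp : p ≠ 0) (hq : q ≠ 0)
    (h : F * q ^ 2 * X ^ G.natDegree = G.reverse * p ^ 2) :
    sg ((-1) ^ F.natDegree * F.leadingCoeff) * sg (G.eval 0) = 1 := by
  have hc0 : G.coeff 0 ≠ 0 := by rwa [coeff_zero_eq_eval_zero]
  have hG0 : G ≠ 0 := by
    rintro rfl
    simp at hG
  have ht : G.natTrailingDegree = 0 := by
    have := natTrailingDegree_le_of_ne_zero hc0
    omega
  have hr0 : G.reverse ≠ 0 := by
    rw [Ne, reverse_eq_zero]
    exact hG0
  have hrd : G.reverse.natDegree = G.natDegree := by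
    rw [reverse_natDegree, ht, Nat.sub_zero]
  have hrl : G.reverse.leadingCoeff = G.eval 0 := by
    rw [reverse_leadingCoeff, trailingCoeff, ht, coeff_zero_eq_eval_zero]
  have hd := congrArg natDegree h
  rw [natDegree_mul (mul_ne_zero hF (pow_ne_zero 2 hq)) (pow_ne_zero _ X_ne_zero),
    natDegree_mul hF (pow_ne_zero 2 hq), natDegree_mul hr0 (pow_ne_zero 2 hp), natDegree_X_pow,
    natDegree_pow, natDegree_pow, hrd] at hd
  have hev : Even F.natDegree := ⟨p.natDegree - q.natDegree, by omega⟩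
  have hl := congrArg leadingCoeff h
  rw [leadingCoeff_mul, leadingCoeff_mul, leadingCoeff_mul, leadingCoeff_X_pow, leadingCoeff_pow,
    leadingCoeff_pow, mul_one, hrl] at hl
  have hs := congrArg sg hl
  rw [sg_mul, sg_mul, sg_sq (leadingCoeff_ne_zero.2 hq), sg_sq (leadingCoeff_ne_zero.2 hp), mul_one,
    mul_one] at hs
  rw [hev.neg_one_pow, one_mul, hs]
  exact sg_mul_self hG

end Pool.Agent.GBR
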