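import Pool.Agent.Lib.GBR.Weil
import Pool.Agent.Lib.GBR.Crit
import Pool.Agent.Lib.GBR.Modify
import Pool.Agent.Lib.GBR.Int

/-!
Module Recip2. If `X² = a Y² + b Z²` is soluble at all places but one then it is soluble at this place too.

Proof. By `modify` `a`, `b` have disjoint supports and `SepB k b`; `sepB_inv`. `exists_int` for `b` and for
`b⁻¹`: `a₁ = a w₁²` in `Rb k b`, `a₂ = a w₂²` in `Rb k b⁻¹`, `a₁ = a₂ (w₁ / w₂)²`; `weil`:
`pp b a₁ * pp a₁ b * pp b⁻¹ a₂ = 1`. Group the products by primes (`Finset.prod_multiset_map_count`):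
`pp y x = ∏_{P ∈ toFinset} sg (x mod P) ^ count`. For `P` dividing `gen k b`: `a₁ ∉ P` and `crit`: the factor
is `1` iff `Iso2 (plc P) a₁ b`, iff `Iso2 (plc P) a b` (`iso2_sq_left`); for `P` dividing `a₁`: `b ∉ P`, the factor
is `1` iff `Iso2 (plc P) b a₁` (`crit`, `iso2_swap`); the primes of `Rb k b⁻¹` dividing `b⁻¹`: the same with
`Iso2 (plc P) a₂ b⁻¹`, `b⁻¹ = b (b⁻¹)²` (`iso2_sq_right`). The factors are `± 1`.
`v₀` with `b ∈ v₀.ring`: `v₀ = plc P₀`, `P₀` a prime of `Rb k b` (`Rb_le`, `exists_plc`). A place `plc P`, `P` a prime of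
`Rb k b` different from `P₀`, is different from `v₀` (`plc_lt` on elements), and a place `plc P`, `P ∋ b⁻¹` a prime of
`Rb k b⁻¹`, does not contain `b`; so all factors of the three products other than those of `P₀` are `1`, and
`P₀` occurs in at most one of the first two products (coprime), so its factor is `1`: soluble at `v₀`. If
`P₀` occurs in none of them then `count = 0` and `crit` gives the solubility.
`b ∉ v₀.ring`: then `b⁻¹` is in the maximal ideal, `v₀ = plc P₀`, `P₀ ∋ b⁻¹` a prime of `Rb k b⁻¹`; all other factors are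
`1`, so that of `P₀` is `1`.
-/

set_option autoImplicit false

open Polynomial UniqueFactorizationMonoid IsDedekindDomain

namespace Pool.Agent.GBR

open BSDFF

private theorem Recip2_pp {R : Type} [CommRing R] [IsDedekindDomain R] (y x : R) :
    pp y x = ∏ P ∈ (normalizedFactors (Ideal.span {y})).toFinset,
      sg (Ideal.Quotient.mk P x) ^ (normalizedFactors (Ideal.span {y})).count P := by
  unfold pp
  rw [Finset.prod_multiset_map_count]

/-- grouping a product over prime factors -/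
theorem pp_eq_one_of {R : Type} [CommRing R] [IsDedekindDomain R] (y x : R)
    (h : ∀ P ∈ normalizedFactors (Ideal.span {y}),
      sg (Ideal.Quotient.mk P x) ^ (normalizedFactors (Ideal.span {y})).count P = 1) :
    pp y x = 1 := by
  rw [Recip2_pp]
  exact Finset.prod_eq_one fun P hP => h P (Multiset.mem_toFinset.1 hP)

theorem pp_eq_single {R : Type} [CommRing R] [IsDedekindDomain R] (y x : R) (P₀ : Ideal R)
    (h : ∀ P ∈ normalizedFactors (Ideal.span {y}), P ≠ P₀ →
      sg (Ideal.Quotient.mk P x) ^ (normalizedFactors (Ideal.span {y})).count P = 1) :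
    pp y x = sg (Ideal.Quotient.mk P₀ x) ^ (normalizedFactors (Ideal.span {y})).count P₀ := by
  rw [Recip2_pp]
  refine Finset.prod_eq_single P₀ (fun P hP hne => h P (Multiset.mem_toFinset.1 hP) hne) ?_
  intro hP
  rw [Multiset.mem_toFinset] at hP
  rw [Multiset.count_eq_zero_of_notMem hP, pow_zero]

private theorem Recip2_hos {R : Type} [CommRing R] [IsDedekindDomain R] {y : R} {P : Ideal R}
    (hP : P ∈ normalizedFactors (Ideal.span {y})) :
    ∃ Q : HeightOneSpectrum R, Q.asIdeal = P ∧ y ∈ P := by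
  have h1 := prime_of_normalized_factor P hP
  have h2 := dvd_of_mem_normalizedFactors hP
  exact ⟨⟨P, Ideal.isPrime_of_prime h1, h1.ne_zero⟩, rfl, Ideal.dvd_span_singleton.1 h2⟩

private theorem Recip2_cop {R : Type} [CommRing R] [IsDedekindDomain R] {x y : R}
    (h : IsCoprime x y) (Q : HeightOneSpectrum R) (hy : y ∈ Q.asIdeal) : x ∉ Q.asIdeal := by
  intro hx
  obtain ⟨u, v, huv⟩ := h
  apply Q.isPrime.ne_top
  rw [Ideal.eq_top_iff_one, ← huv]
  exact Q.asIdeal.add_mem (Q.asIdeal.mul_mem_left _ hx) (Q.asIdeal.mul_mem_left _ hy)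

private theorem Recip2_factor {k R K : Type} [Field k] [CommRing R] [IsDedekindDomain R] [Field K]
    [Algebra R K] [IsFractionRing R K] [Algebra k R] [Algebra k K] [IsScalarTower k R K]
    (loc : ∀ w : Place k K, BSDK.LocAt w) {x y : R} (hy : y ≠ 0) (h : IsCoprime x y)
    {P : Ideal R} (hP : P ∈ normalizedFactors (Ideal.span {y}))
    (hI : ∀ Q : HeightOneSpectrum R, Q.asIdeal = P →
      Iso2 (plc k K Q) (algebraMap R K x) (algebraMap R K y)) :
    sg (Ideal.Quotient.mk P x) ^ (normalizedFactors (Ideal.span {y})).count P = 1 := by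
  obtain ⟨Q, rfl, hyP⟩ := Recip2_hos hP
  exact (crit Q (loc _) x y (Recip2_cop h Q hyP) hy).1 (hI Q rfl)

private theorem Recip2_count {R : Type} [CommRing R] [IsDedekindDomain R] {y : R}
    (Q : HeightOneSpectrum R) (hy : y ∉ Q.asIdeal) :
    (normalizedFactors (Ideal.span {y})).count Q.asIdeal = 0 := by
  refine Multiset.count_eq_zero_of_notMem fun h => ?_
  obtain ⟨_, _, hyP⟩ := Recip2_hos h
  exact hy hyP

private theorem Recip2_inj {k R K : Type} [Field k] [CommRing R] [IsDedekindDomain R] [Field K]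
    [Algebra R K] [IsFractionRing R K] [Algebra k R] [Algebra k K] [IsScalarTower k R K]
    {P Q : HeightOneSpectrum R} (h : plc k K P = plc k K Q) : P.asIdeal = Q.asIdeal := by
  ext r
  rw [← plc_lt (k := k) (K := K) P r, ← plc_lt (k := k) (K := K) Q r, h]

variable {k K : Type} [Field k] [Finite k] [Field K] [Algebra k K]

/-- the case of disjoint supports -/
theorem recip_disj (h2 : (2 : k) ≠ 0) (loc : ∀ w : Place k K, BSDK.LocAt w) {a b : K} (ha : a ≠ 0)
    (hb : SepB k b) (hd : ∀ v : Place k K, v.ring.valuation a = 1 ∨ v.ring.valuation b = 1)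
    (v₀ : Place k K) (H : ∀ v : Place k K, v ≠ v₀ → Iso2 v a b) : Iso2 v₀ a b := by
  have hbi : SepB k b⁻¹ := sepB_inv hb
  have : Fact (SepB k b) := ⟨hb⟩
  have : Fact (SepB k b⁻¹) := ⟨hbi⟩
  have hb0 : b ≠ 0 := by
    rintro rfl
    exact hb.tr (isAlgebraic_zero)
  obtain ⟨a₁, w₁, ha₁, hw₁, e₁, c₁⟩ := exists_int (k := k) (b := b) a ha (fun v hv =>
    (hd v).resolve_right hv.ne)
  obtain ⟨a₂, w₂, ha₂, hw₂, e₂, c₂⟩ := exists_int (k := k) (b := b⁻¹) a ha (fun v hv =>
    (hd v).resolve_right (fun h1 => by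
      rw [map_inv₀, h1, inv_one] at hv
      exact lt_irrefl _ hv))
  have hg1 : gen k b ≠ 0 := by
    intro h0
    apply hb0
    exact congrArg Subtype.val h0
  have hg2 : gen k b⁻¹ ≠ 0 := by
    intro h0
    apply inv_ne_zero hb0
    exact congrArg Subtype.val h0
  have hs : w₁ / w₂ ≠ 0 := div_ne_zero hw₁ hw₂
  have he : (a₁ : K) = a₂ * (w₁ / w₂) ^ 2 := by
    rw [e₁, e₂]
    field_simp
  have W := weil h2 a₁ a₂ (w₁ / w₂) hs he c₁ c₂ ha₁
  -- solubility in terms of `a₁`, `gen`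
  have J1 : ∀ v : Place k K, Iso2 v (algebraMap (Rb k b) K a₁) (algebraMap (Rb k b) K (gen k b)) ↔
      Iso2 v a b := by
    intro v
    have h1 : algebraMap (Rb k b) K a₁ = a * w₁ ^ 2 := e₁
    have h3 : algebraMap (Rb k b) K (gen k b) = b := rfl
    rw [h1, h3]
    exact iso2_sq_left v a b w₁ hw₁
  have J2 : ∀ v : Place k K, Iso2 v (algebraMap (Rb k b) K (gen k b)) (algebraMap (Rb k b) K a₁) ↔
      Iso2 v a b := fun v => (iso2_swap v _ _).trans (J1 v)
  have J3 : ∀ v : Place k K,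
      Iso2 v (algebraMap (Rb k b⁻¹) K a₂) (algebraMap (Rb k b⁻¹) K (gen k b⁻¹)) ↔ Iso2 v a b := by
    intro v
    have h1 : algebraMap (Rb k b⁻¹) K a₂ = a * w₂ ^ 2 := e₂
    have h3 : algebraMap (Rb k b⁻¹) K (gen k b⁻¹) = b * b⁻¹ ^ 2 := by
      have : algebraMap (Rb k b⁻¹) K (gen k b⁻¹) = b⁻¹ := rfl
      rw [this]
      field_simp
    rw [h1, h3, iso2_sq_left v a _ w₂ hw₂]
    exact iso2_sq_right v a b b⁻¹ (inv_ne_zero hb0)
  have hmem1 : ∀ Q : HeightOneSpectrum (Rb k b), b ∈ (plc k K Q).ring := fun Q =>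
    mem_plc Q (gen k b)
  by_cases hv0 : b ∈ v₀.ring
  · obtain ⟨P₀, rfl⟩ := exists_plc (R := Rb k b) v₀ (Rb_le v₀ hv0)
    have p1 : pp (gen k b) a₁ = sg (Ideal.Quotient.mk P₀.asIdeal a₁) ^
        (normalizedFactors (Ideal.span {gen k b})).count P₀.asIdeal :=
      pp_eq_single _ _ _ fun P hP hne => Recip2_factor loc hg1 c₁ hP fun Q hQ =>
        (J1 _).2 (H _ fun h => hne (by rw [← hQ]; exact Recip2_inj h))
    have p2 : pp a₁ (gen k b) = sg (Ideal.Quotient.mk P₀.asIdeal (gen k b)) ^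
        (normalizedFactors (Ideal.span {a₁})).count P₀.asIdeal :=
      pp_eq_single _ _ _ fun P hP hne => Recip2_factor loc ha₁ c₁.symm hP fun Q hQ =>
        (J2 _).2 (H _ fun h => hne (by rw [← hQ]; exact Recip2_inj h))
    have p3 : pp (gen k b⁻¹) a₂ = 1 := by
      refine pp_eq_one_of _ _ fun P hP => Recip2_factor loc hg2 c₂ hP fun Q hQ =>
        (J3 _).2 (H _ fun h => ?_)
      obtain ⟨_, _, hy⟩ := Recip2_hos hP
      rw [← hQ] at hy
      have h3 := (plc_lt (k := k) (K := K) Q (gen k b⁻¹)).2 hy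
      have h4 : algebraMap (Rb k b⁻¹) K (gen k b⁻¹) = b⁻¹ := rfl
      rw [h4] at h3
      have h5 : b ∈ (plc k K Q).ring := by rw [h]; exact hv0
      rw [← ValuationSubring.valuation_le_one_iff] at h5
      rw [map_inv₀] at h3
      have h6 : (plc k K Q).ring.valuation b ≠ 0 := (Valuation.ne_zero_iff _).2 hb0
      have h7 := mul_lt_one_of_lt_of_le h3 h5
      rw [inv_mul_cancel₀ h6] at h7
      exact lt_irrefl _ h7
    rw [p1, p2, p3, mul_one] at W
    by_cases hg : gen k b ∈ P₀.asIdeal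
    · have hna := Recip2_cop c₁ P₀ hg
      rw [Recip2_count P₀ hna, pow_zero, mul_one] at W
      exact (J1 _).1 ((crit P₀ (loc _) a₁ (gen k b) hna hg1).2 W)
    · rw [Recip2_count P₀ hg, pow_zero, one_mul] at W
      exact (J2 _).1 ((crit P₀ (loc _) (gen k b) a₁ hg ha₁).2 W)
  · have hv1 : v₀.ring.valuation b⁻¹ < 1 := by
      rw [← ValuationSubring.valuation_le_one_iff, not_le] at hv0
      rw [map_inv₀]
      exact inv_lt_one_of_one_lt₀ hv0
    have hv2 : b⁻¹ ∈ v₀.ring := by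
      rw [← ValuationSubring.valuation_le_one_iff]
      exact hv1.le
    obtain ⟨P₀, rfl⟩ := exists_plc (R := Rb k b⁻¹) v₀ (Rb_le v₀ hv2)
    have hgen : gen k b⁻¹ ∈ P₀.asIdeal := (plc_lt (k := k) (K := K) P₀ (gen k b⁻¹)).1 hv1
    have p1 : pp (gen k b) a₁ = 1 :=
      pp_eq_one_of _ _ fun P hP => Recip2_factor loc hg1 c₁ hP fun Q hQ =>
        (J1 _).2 (H _ fun h => hv0 (by rw [← h]; exact hmem1 Q))
    have p2 : pp a₁ (gen k b) = 1 :=
      pp_eq_one_of _ _ fun P hP => Recip2_factor loc ha₁ c₁.symm hP fun Q hQ =>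
        (J2 _).2 (H _ fun h => hv0 (by rw [← h]; exact hmem1 Q))
    have p3 : pp (gen k b⁻¹) a₂ = sg (Ideal.Quotient.mk P₀.asIdeal a₂) ^
        (normalizedFactors (Ideal.span {gen k b⁻¹})).count P₀.asIdeal :=
      pp_eq_single _ _ _ fun P hP hne => Recip2_factor loc hg2 c₂ hP fun Q hQ =>
        (J3 _).2 (H _ fun h => hne (by rw [← hQ]; exact Recip2_inj h))
    rw [p1, p2, p3, one_mul, one_mul] at W
    exact (J3 _).1 ((crit P₀ (loc _) a₂ (gen k b⁻¹) (Recip2_cop c₂ P₀ hgen) hg2).2 W)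

theorem recip2 (h2 : (2 : k) ≠ 0) (loc : ∀ w : Place k K, BSDK.LocAt w) {t : K} (ht : SepB k t)
    {a b : K} (ha : a ≠ 0) (hb : b ≠ 0) (v₀ : Place k K)
    (H : ∀ v : Place k K, v ≠ v₀ → Iso2 v a b) : Iso2 v₀ a b := by
  obtain ⟨a', b', ha', _, hs', hd', hiff⟩ := modify h2 ht a b ha hb
  exact (hiff v₀).2 (recip_disj h2 loc ha' hs' hd' v₀ fun v hv => (hiff v).1 (H v hv))

end Pool.Agent.GBR
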