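import Pool.Agent.Lib.GBR.PP
import Pool.Agent.Lib.GBR.Poly
import Pool.Agent.Lib.GBR.NormB

/-!
Module Weil. Weil reciprocity for the quadratic character.

Proof. `F := norm of a₁` over `k[X]` (for `Rb k b`), `G := norm of a₂` (for `Rb k b⁻¹`, `X ↦ b⁻¹`). `F ≠ 0`
(`aeval_norm`, `Nb_ne_zero`). `pp_X`, `pp_elt` (`algebraMap_X`): `pp gen a₁ = sg (F (0))`,
`pp a₁ gen = sg ((-1)^deg F lc F F(0))`, `pp gen' a₂ = sg (G (0))`; `F (0) ≠ 0` and `G (0) ≠ 0` because `a₁`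
is prime to `b`: `sg (F(0)) = pp gen a₁` is a product of `sg (mk P a₁)`, `P ∣ gen`, which are not zero
(`Multiset.prod_eq_zero_iff`, `a₁ ∈ P` and `gen ∈ P` contradict `IsCoprime`). So the product is
`sg ((-1)^deg F lc F) * sg (G (0))`. By `aeval_norm`, `Nb_inv`, `Nb_mul`:
`F (b) = Nb a₁ = Nb a₂ (Nb s)² = G (b⁻¹) (p (b) / q (b))²` (`Nb_eq_div`), so
`F (b) q (b)² b ^ n = (b ^ n G (b⁻¹)) p (b)²`, `n = deg G`, `b ^ n G (b⁻¹) = G.reverse (b)`
(`Polynomial.eval₂_reverse_mul_pow` or `aeval`-version); `b` is transcendental, so this is an identity of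
polynomials, and `poly_compare` applies.
-/

set_option autoImplicit false

open Polynomial UniqueFactorizationMonoid

namespace Pool.Agent.GBR

private theorem Weil_pp_ne {R : Type} [CommRing R] [IsDedekindDomain R] (y x : R)
    (hy : y ≠ 0) (h : IsCoprime x y) : pp y x ≠ 0 := by
  unfold pp
  intro h0
  rw [Multiset.prod_eq_zero_iff, Multiset.mem_map] at h0
  obtain ⟨P, hP, h1⟩ := h0
  rw [sg_eq_zero, Ideal.Quotient.eq_zero_iff_mem] at h1
  have hprime : Prime P := prime_of_normalized_factor P hP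
  have hdvd : P ∣ Ideal.span {y} := dvd_of_mem_normalizedFactors hP
  have hyP : y ∈ P := Ideal.le_of_dvd hdvd (Ideal.mem_span_singleton_self y)
  obtain ⟨u, v, huv⟩ := h
  have h2 : (1 : R) ∈ P := by
    rw [← huv]
    exact add_mem (P.mul_mem_left _ h1) (P.mul_mem_left _ hyP)
  have h3 : P = ⊤ := (Ideal.eq_top_iff_one P).2 h2
  apply hprime.not_unit
  rw [Ideal.isUnit_iff]
  exact h3

variable {k K : Type} [Field k] [Finite k] [Field K] [Algebra k K] {b : K}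

theorem weil (h2 : (2 : k) ≠ 0) [Fact (SepB k b)] [Fact (SepB k b⁻¹)] (a₁ : Rb k b) (a₂ : Rb k b⁻¹)
    (s : K) (hs : s ≠ 0) (h : (a₁ : K) = a₂ * s ^ 2) (h1 : IsCoprime a₁ (gen k b))
    (h3 : IsCoprime a₂ (gen k b⁻¹)) (ha : a₁ ≠ 0) :
    pp (gen k b) a₁ * pp a₁ (gen k b) * pp (gen k b⁻¹) a₂ = 1 := by
  have htr : Transcendental k b := (Fact.out : SepB k b).tr
  have hb0 : b ≠ 0 := by
    rintro rfl
    exact htr isAlgebraic_zero
  have hg0 : gen k b ≠ 0 := fun h' => hb0 (congrArg Subtype.val h')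
  have hg0' : gen k b⁻¹ ≠ 0 := fun h' => inv_ne_zero hb0 (congrArg Subtype.val h')
  have haK : (a₁ : K) ≠ 0 := fun h' => ha (Subtype.ext h')
  have haK' : (a₂ : K) ≠ 0 := by
    intro h'
    rw [h', zero_mul] at h
    exact haK h
  have hX : algebraMap k[X] (Rb k b) X ≠ 0 := by rw [algebraMap_X]; exact hg0
  have hX' : algebraMap k[X] (Rb k b⁻¹) X ≠ 0 := by rw [algebraMap_X]; exact hg0'
  have hFb : aeval b (Algebra.norm k[X] a₁) = Nb k b (a₁ : K) := aeval_norm a₁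
  have hGb : aeval b⁻¹ (Algebra.norm k[X] a₂) = Nb k b⁻¹ (a₂ : K) := aeval_norm a₂
  have e1 := pp_X h2 hX a₁
  have hF : Algebra.norm k[X] a₁ ≠ 0 := by
    intro h'
    rw [h', map_zero] at hFb
    exact Nb_ne_zero haK hFb.symm
  have e2 := pp_elt h2 a₁ ha hF
  have e3 := pp_X h2 hX' a₂
  rw [algebraMap_X] at e1 e2 e3
  set F := Algebra.norm k[X] a₁
  set G := Algebra.norm k[X] a₂
  have hF0 : F.eval 0 ≠ 0 := by
    intro h'
    rw [h', sg_zero] at e1
    exact Weil_pp_ne _ _ hg0 h1 e1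
  have hG0 : G.eval 0 ≠ 0 := by
    intro h'
    rw [h', sg_zero] at e3
    exact Weil_pp_ne _ _ hg0' h3 e3
  obtain ⟨p, q, hq, hpq⟩ := Nb_eq_div (k := k) b s
  have hNs : Nb k b s ≠ 0 := Nb_ne_zero hs
  have hp : p ≠ 0 := by
    rintro rfl
    rw [map_zero, zero_div] at hpq
    exact hNs hpq
  have hq' : q ≠ 0 := by
    rintro rfl
    exact hq (map_zero _)
  have hrev : aeval b G.reverse = aeval b⁻¹ G * b ^ G.natDegree := by
    letI : Invertible (b⁻¹ : K) := ⟨b, mul_inv_cancel₀ hb0, inv_mul_cancel₀ hb0⟩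
    have h4 := Polynomial.eval₂_reverse_mul_pow (algebraMap k K) b⁻¹ G
    have h5 : (⅟(b⁻¹ : K)) = b := rfl
    rw [h5] at h4
    rw [aeval_def, aeval_def, ← h4, mul_assoc, ← mul_pow, inv_mul_cancel₀ hb0, one_pow, mul_one]
  have hkey : F * q ^ 2 * X ^ G.natDegree = G.reverse * p ^ 2 := by
    apply transcendental_iff_injective.1 htr
    rw [map_mul, map_mul, map_mul, map_pow, map_pow, map_pow, aeval_X, hFb, hrev, hGb, Nb_inv, h,
      Nb_mul, sq s, Nb_mul, hpq]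
    field_simp
  have h6 := poly_compare F G p q hF hG0 hp hq' hkey
  rw [e1, e2, e3, sg_mul ((-1) ^ F.natDegree * F.leadingCoeff) (F.eval 0)]
  have h7 := sg_mul_self hF0
  calc sg (eval 0 F) * (sg ((-1) ^ F.natDegree * F.leadingCoeff) * sg (eval 0 F)) * sg (eval 0 G)
      = (sg (eval 0 F) * sg (eval 0 F)) *
        (sg ((-1) ^ F.natDegree * F.leadingCoeff) * sg (eval 0 G)) := by ring
    _ = 1 := by rw [h7, h6, one_mul]

end Pool.Agent.GBR
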